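import Pool.Agent.TH839.LD.Fam

/-!
# Project SC: the completed function at `7/2 + iT` and the gamma factor at `1/2 + θ + iT`
-/

set_option autoImplicit false

open Complex Filter Topology Set
open scoped ComplexConjugate

namespace Pool.Agent.TH839.SC

open Pool.Agent.W169.HF H353.E Pool.Agent.W355.UN Pool.Agent.TH839.UH Pool.Agent.TH839.UH.EP
open Pool.Agent.TH839.LD
open Pool.Agent.TH839.UH.NF (B0 B0_nonneg)

variable {m r : ℕ} {N : ℝ} {a : Fin m → ℂ} {α : Nat.Primes → Fin m → ℂ} {X : ℂ → ℂ}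

lemma pi_sq : 9 < Real.pi ^ 2 := by nlinarith [Real.pi_gt_three]

lemma zw_aux {c c2 w z : ℝ} (hc : c2 ≤ c / 3) (h4 : c2 ≤ 1 / 4) (h0 : 0 < c2)
    (h1 : w ≤ z + 1) (h2 : c ≤ z) : c2 * (1 + w) ≤ z := by
  rcases le_total w 2 with h5 | h5
  · have : c2 * (1 + w) ≤ c2 * 3 := mul_le_mul_of_nonneg_left (by linarith) h0.le
    linarith
  · have : c2 * (1 + w) ≤ 1 / 4 * (1 + w) := mul_le_mul_of_nonneg_right h4 (by linarith)
    linarith

lemma sq_aux {x : ℝ} (hx : 0 < x) (y : ℝ) : x * x + y * y ≤ (x + 2) * (x + 2) + y * y := by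
  nlinarith

lemma pol_aux {θ d g : ℝ} (T : ℝ) (hθ0 : 0 ≤ θ) (hd : d = 1 / 2 - θ) (hd0 : 0 < d) (hgd : g * d = 36)
    (hg1 : 1 ≤ g) :
    ((1 / 2 + θ) ^ 2 + T ^ 2) * (d ^ 2 + T ^ 2) ≤ ((9 / 2 + θ) ^ 2 + T ^ 2) * ((7 / 2 + θ) ^ 2 + T ^ 2) ∧
    ((9 / 2 + θ) ^ 2 + T ^ 2) * ((7 / 2 + θ) ^ 2 + T ^ 2) ≤
      g ^ 2 * (((1 / 2 + θ) ^ 2 + T ^ 2) * (d ^ 2 + T ^ 2)) := by
  have hd1 : d ≤ 1 / 2 := by linarith
  have hθ1 : θ < 1 / 2 := by linarith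
  have hT2 := sq_nonneg T
  have u1 : (1 / 2 + θ) ^ 2 ≤ (9 / 2 + θ) ^ 2 := pow_le_pow_left₀ (by linarith) (by linarith) 2
  have u2 : d ^ 2 ≤ (7 / 2 + θ) ^ 2 := pow_le_pow_left₀ hd0.le (by linarith) 2
  have u3 : (9 / 2 + θ) ^ 2 ≤ 81 * (1 / 2 + θ) ^ 2 := by
    have : (9 / 2 + θ) ^ 2 ≤ (9 * (1 / 2 + θ)) ^ 2 := pow_le_pow_left₀ (by linarith) (by linarith) 2
    rw [mul_pow] at this
    linarith
  have u4 : 81 * ((7 / 2 + θ) ^ 2 + T ^ 2) ≤ g ^ 2 * (d ^ 2 + T ^ 2) := by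
    have v1 : (g * d) ^ 2 = 1296 := by rw [hgd]; norm_num
    have v2 : (7 / 2 + θ) ^ 2 ≤ 4 ^ 2 := pow_le_pow_left₀ (by linarith) (by linarith) 2
    have v3 : 9 ^ 2 ≤ g ^ 2 := by
      have v4 : 72 ≤ g := by
        have : g * d ≤ g * (1 / 2) := mul_le_mul_of_nonneg_left hd1 (by linarith)
        linarith
      exact pow_le_pow_left₀ (by norm_num) (by linarith) 2
    have v5 : g ^ 2 * (d ^ 2 + T ^ 2) = (g * d) ^ 2 + g ^ 2 * T ^ 2 := by ring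
    rw [v5, v1]
    have v6 : 9 ^ 2 * T ^ 2 ≤ g ^ 2 * T ^ 2 := mul_le_mul_of_nonneg_right v3 hT2
    linarith
  constructor
  · gcongr
  · calc ((9 / 2 + θ) ^ 2 + T ^ 2) * ((7 / 2 + θ) ^ 2 + T ^ 2)
        ≤ (81 * ((1 / 2 + θ) ^ 2 + T ^ 2)) * ((7 / 2 + θ) ^ 2 + T ^ 2) := by
          refine mul_le_mul_of_nonneg_right ?_ (by positivity)
          linarith
      _ = ((1 / 2 + θ) ^ 2 + T ^ 2) * (81 * ((7 / 2 + θ) ^ 2 + T ^ 2)) := by ring
      _ ≤ ((1 / 2 + θ) ^ 2 + T ^ 2) * (g ^ 2 * (d ^ 2 + T ^ 2)) := by gcongr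
      _ = _ := by ring

/-- comparison of the size of the completed function at `7/2 + iT` and of the gamma factor at
`1/2 + θ + iT` -/
theorem cmpt (m : ℕ) (c θ : ℝ) (hcp : 0 < c) (hθ0 : 0 ≤ θ) (hθ1 : θ < 1 / 2) :
    ∃ K : ℝ, 0 < K ∧ ∀ (r : ℕ) (N : ℝ) (a : Fin m → ℂ)
    (α : Nat.Primes → Fin m → ℂ) (X : ℂ → ℂ), HW m r N a α X → (∀ j, -1 / 2 + c ≤ (a j).re) →
      ∀ (T : ℝ) (s : ℂ), s = 1 / 2 + (T : ℂ) * I + θ →
        ‖X (7 / 2 + (T : ℂ) * I)‖ * Real.exp (-(3 * hc N (fun j => -a j) T) +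
            θ * hc N (fun j => -a j) T) ≤ K * ‖gm r N a s‖ ∧
        ‖gm r N a s‖ ≤ K * (‖X (7 / 2 + (T : ℂ) * I)‖ * Real.exp (-(3 * hc N (fun j => -a j) T) +
          θ * hc N (fun j => -a j) T)) := by
  obtain ⟨c2, hc2⟩ : ∃ c2 : ℝ, c2 = min (c / 3) (1 / 4) := ⟨_, rfl⟩
  have hc2p : 0 < c2 := by rw [hc2]; positivity
  have hc2c : c2 ≤ c / 3 := by rw [hc2]; exact min_le_left _ _
  have hc24 : c2 ≤ 1 / 4 := by rw [hc2]; exact min_le_right _ _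
  have hB := B0_nonneg
  obtain ⟨b, hb⟩ : ∃ b : ℝ, b = 4 * B0 + 2 := ⟨_, rfl⟩
  have hb0 : 0 ≤ b := by rw [hb]; positivity
  obtain ⟨K0, hK0⟩ : ∃ K0 : ℝ, K0 = Kn m b 0 := ⟨_, rfl⟩
  have hK00 : 0 ≤ K0 := by rw [hK0]; exact Kn_nonneg hb0 0
  have hpi := Real.pi_pos
  obtain ⟨d, hd⟩ : ∃ d : ℝ, d = 1 / 2 - θ := ⟨_, rfl⟩
  have hd0 : 0 < d := by rw [hd]; linarith
  have hd1 : d ≤ 1 / 2 := by rw [hd]; linarith
  obtain ⟨g, hg⟩ : ∃ g : ℝ, g = 36 / d := ⟨_, rfl⟩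
  have hgd : g * d = 36 := by rw [hg]; field_simp
  have hg1 : 1 ≤ g := by rw [hg, le_div_iff₀ hd0]; linarith
  obtain ⟨e0, he0⟩ : ∃ e0 : ℝ, e0 = Real.exp (26 * K0) * Real.exp (m * (B0 / 2)) := ⟨_, rfl⟩
  have he0p : 0 < e0 := by rw [he0]; positivity
  obtain ⟨q, hq⟩ : ∃ q : ℝ, q = 4 * Real.pi ^ 2 / c2 ^ 2 := ⟨_, rfl⟩
  have hqp : 0 < q := by rw [hq]; positivity
  refine ⟨e0 * (g ^ m + q ^ m), by positivity, ?_⟩
  intro r N a α X h ha T s hs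
  have hN := h.hN
  have hN0 : 0 < N := by linarith
  have hsre : s.re = 1 / 2 + θ := by rw [hs]; simp
  obtain ⟨s', hs'⟩ : ∃ s' : ℂ, s' = s + 4 := ⟨_, rfl⟩
  have hsre' : s'.re = 9 / 2 + θ := by rw [hs', add_re, hsre]; norm_num; ring
  obtain ⟨h', hh'⟩ : ∃ h' : ℝ, h' = hc N (fun j => -a j) T := ⟨_, rfl⟩
  obtain ⟨Q, hQ⟩ : ∃ Q : ℝ, Q = ‖X (7 / 2 + (T : ℂ) * I)‖ := ⟨_, rfl⟩
  have hQ0 : 0 ≤ Q := by rw [hQ]; exact norm_nonneg _
  rw [← hQ, ← hh']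
  -- the gamma factors
  have hexp := exp4 hN a T
  rw [← hh'] at hexp
  have hz : ∀ j, 0 < (s + a j).re := fun j => by
    rw [add_re, hsre]
    linarith [ha j]
  obtain ⟨w, hw⟩ : ∃ w : Fin m → ℝ, w = fun j => ‖(T : ℂ) * I + a j‖ := ⟨_, rfl⟩
  have hw0 : ∀ j, 0 ≤ w j := fun j => by rw [hw]; exact norm_nonneg _
  have hexp' : Real.exp (4 * h') = N ^ 2 * ∏ j, (1 + w j) ^ 2 := by rw [hexp, hw]
  have hzw : ∀ j, ‖s + a j‖ ≤ 1 + w j ∧ ‖s + a j + 2‖ ≤ 3 * (1 + w j) ∧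
      c2 * (1 + w j) ≤ ‖s + a j‖ ∧ ‖s + a j‖ ≤ ‖s + a j + 2‖ := by
    intro j
    have e1 : s + a j = ((T : ℂ) * I + a j) + ((1 / 2 + θ : ℝ) : ℂ) := by
      rw [hs]
      push_cast
      ring
    have e2 : ‖((1 / 2 + θ : ℝ) : ℂ)‖ = 1 / 2 + θ := by
      rw [Complex.norm_real, Real.norm_eq_abs, abs_of_pos (by linarith)]
    have h1 := norm_add_le ((T : ℂ) * I + a j) ((1 / 2 + θ : ℝ) : ℂ)
    rw [← e1, e2] at h1
    have h2 := norm_sub_le (s + a j) ((1 / 2 + θ : ℝ) : ℂ)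
    have e3 : s + a j - ((1 / 2 + θ : ℝ) : ℂ) = (T : ℂ) * I + a j := by rw [e1]; ring
    rw [e3, e2] at h2
    have e4 : w j = ‖(T : ℂ) * I + a j‖ := by rw [hw]
    rw [← e4] at h1 h2
    have h3 := norm_add_le (s + a j) 2
    rw [Complex.norm_ofNat] at h3
    have h4 : c ≤ ‖s + a j‖ := by
      have h5 := Complex.re_le_norm (s + a j)
      rw [add_re, hsre] at h5
      linarith [ha j]
    have hwj := hw0 j
    refine ⟨by linarith, by linarith, ?_, ?_⟩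
    · exact zw_aux hc2c hc24 hc2p (by linarith) h4
    · rw [← sq_le_sq₀ (norm_nonneg _) (norm_nonneg _), ← Complex.normSq_eq_norm_sq,
        ← Complex.normSq_eq_norm_sq, Complex.normSq_apply, Complex.normSq_apply]
      have h6 := hz j
      have h7 : (s + a j + 2).re = (s + a j).re + 2 := by simp
      have h8 : (s + a j + 2).im = (s + a j).im := by simp
      rw [h7, h8]
      exact sq_aux h6 _
  obtain ⟨G, hG⟩ : ∃ G : ℝ, G = ‖(N : ℂ) ^ (s / 2) * ∏ j, Gammaℝ (s + a j)‖ := ⟨_, rfl⟩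
  obtain ⟨G', hG'⟩ : ∃ G' : ℝ, G' = ‖gaf N (fun j => -a j) s'‖ := ⟨_, rfl⟩
  have hG0 : 0 ≤ G := by rw [hG]; exact norm_nonneg _
  have hG0' : 0 ≤ G' := by rw [hG']; exact norm_nonneg _
  have hGG : G' = G * (N ^ 2 * ∏ j, (‖s + a j‖ * ‖s + a j + 2‖ / (4 * Real.pi ^ 2))) := by
    rw [hG', hG, gaf_eq, norm_mul, norm_mul, norm_prod, norm_prod,
      Complex.norm_cpow_eq_rpow_re_of_pos hN0, Complex.norm_cpow_eq_rpow_re_of_pos hN0]
    have e1 : (s' / 2).re = (s / 2).re + 2 := by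
      rw [hs']
      simp
      ring
    have e2 : ∀ j, ‖Gammaℝ (s' + a j)‖ = ‖Gammaℝ (s + a j)‖ *
        (‖s + a j‖ * ‖s + a j + 2‖ / (4 * Real.pi ^ 2)) := fun j => by
      rw [← GR4 (hz j)]
      congr 2
      rw [hs']
      ring
    rw [e1, Real.rpow_add hN0]
    simp only [e2]
    rw [Finset.prod_mul_distrib]
    norm_num
    ring
  have hPn : 0 ≤ ∏ j, (‖s + a j‖ * ‖s + a j + 2‖ / (4 * Real.pi ^ 2)) :=
    Finset.prod_nonneg fun j _ => by positivity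
  have h9 : 9 < Real.pi ^ 2 := pi_sq
  have up : G' ≤ Real.exp (4 * h') * G := by
    rw [hGG, hexp', mul_comm _ G]
    refine mul_le_mul_of_nonneg_left (mul_le_mul_of_nonneg_left ?_ (by positivity)) hG0
    refine Finset.prod_le_prod (fun j _ => by positivity) fun j _ => ?_
    obtain ⟨z1, z2, -, -⟩ := hzw j
    have hwj := hw0 j
    rw [div_le_iff₀ (by positivity)]
    calc ‖s + a j‖ * ‖s + a j + 2‖ ≤ (1 + w j) * (3 * (1 + w j)) := by gcongr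
      _ = (1 + w j) ^ 2 * 3 := by ring
      _ ≤ (1 + w j) ^ 2 * (4 * Real.pi ^ 2) := by
        refine mul_le_mul_of_nonneg_left (by linarith) (by positivity)
  have lo : Real.exp (4 * h') * G ≤ q ^ m * G' := by
    rw [hGG, hexp']
    have h1 : ∏ j, (1 + w j) ^ 2 ≤ q ^ m * ∏ j, (‖s + a j‖ * ‖s + a j + 2‖ / (4 * Real.pi ^ 2)) := by
      have e1 : q ^ m * ∏ j, (‖s + a j‖ * ‖s + a j + 2‖ / (4 * Real.pi ^ 2)) =
          ∏ j : Fin m, (q * (‖s + a j‖ * ‖s + a j + 2‖ / (4 * Real.pi ^ 2))) := by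
        rw [Finset.prod_mul_distrib, Finset.prod_const, Finset.card_univ, Fintype.card_fin]
      rw [e1]
      refine Finset.prod_le_prod (fun j _ => by have := hw0 j; positivity) fun j _ => ?_
      obtain ⟨-, -, z3, z4⟩ := hzw j
      have hwj := hw0 j
      have h2 : (c2 * (1 + w j)) ^ 2 ≤ ‖s + a j‖ * ‖s + a j + 2‖ := by
        calc (c2 * (1 + w j)) ^ 2 = (c2 * (1 + w j)) * (c2 * (1 + w j)) := by ring
          _ ≤ ‖s + a j‖ * ‖s + a j + 2‖ := by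
            have := z3.trans z4
            have h3 : 0 ≤ c2 * (1 + w j) := by positivity
            gcongr
      have e2 : q * (‖s + a j‖ * ‖s + a j + 2‖ / (4 * Real.pi ^ 2)) =
          ‖s + a j‖ * ‖s + a j + 2‖ / c2 ^ 2 := by
        rw [hq]
        field_simp
      rw [e2, le_div_iff₀ (by positivity)]
      linarith
    calc N ^ 2 * (∏ j, (1 + w j) ^ 2) * G ≤ N ^ 2 *
          (q ^ m * ∏ j, (‖s + a j‖ * ‖s + a j + 2‖ / (4 * Real.pi ^ 2))) * G :=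
          mul_le_mul_of_nonneg_right (mul_le_mul_of_nonneg_left h1 (by positivity)) hG0
      _ = _ := by ring
  -- the polynomial factor
  obtain ⟨p, hp⟩ : ∃ p : ℝ, p = ‖s * (s - 1)‖ := ⟨_, rfl⟩
  obtain ⟨p', hp'⟩ : ∃ p' : ℝ, p' = ‖s' * (s' - 1)‖ := ⟨_, rfl⟩
  have hp0 : 0 ≤ p := by rw [hp]; exact norm_nonneg _
  have hp0' : 0 ≤ p' := by rw [hp']; exact norm_nonneg _
  have hsn : ∀ x : ℝ, ‖((x : ℂ) + (T : ℂ) * I)‖ ^ 2 = x ^ 2 + T ^ 2 := by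
    intro x
    rw [← Complex.normSq_eq_norm_sq, Complex.normSq_apply]
    simp
    ring
  have n1 := hsn (1 / 2 + θ)
  have n2 := hsn (-d)
  have n3 := hsn (9 / 2 + θ)
  have n4 := hsn (7 / 2 + θ)
  have e1 : (((1 / 2 + θ : ℝ) : ℂ) + (T : ℂ) * I) = s := by rw [hs]; push_cast; ring
  have e2 : (((-d : ℝ) : ℂ) + (T : ℂ) * I) = s - 1 := by rw [hs, hd]; push_cast; ring
  have e3 : (((9 / 2 + θ : ℝ) : ℂ) + (T : ℂ) * I) = s' := by rw [hs', hs]; push_cast; ring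
  have e4 : (((7 / 2 + θ : ℝ) : ℂ) + (T : ℂ) * I) = s' - 1 := by rw [hs', hs]; push_cast; ring
  rw [e1] at n1
  rw [e2] at n2
  rw [e3] at n3
  rw [e4] at n4
  have hT2 := sq_nonneg T
  have hpp : p ^ 2 ≤ p' ^ 2 ∧ p' ^ 2 ≤ (g * p) ^ 2 := by
    have q1 : p ^ 2 = ((1 / 2 + θ) ^ 2 + T ^ 2) * (d ^ 2 + T ^ 2) := by
      rw [hp, norm_mul, mul_pow, n1, n2]
      ring
    have q2 : p' ^ 2 = ((9 / 2 + θ) ^ 2 + T ^ 2) * ((7 / 2 + θ) ^ 2 + T ^ 2) := by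
      rw [hp', norm_mul, mul_pow, n3, n4]
    rw [mul_pow, q1, q2]
    exact pol_aux T hθ0 hd hd0 hgd hg1
  have hp1 : p ≤ p' := (sq_le_sq₀ hp0 hp0').1 hpp.1
  have hp2 : p' ≤ g * p := (sq_le_sq₀ hp0' (by positivity)).1 hpp.2
  have hpr1 : p ^ r ≤ p' ^ r := pow_le_pow_left₀ hp0 hp1 r
  have hpr2 : p' ^ r ≤ g ^ m * p ^ r := by
    calc p' ^ r ≤ (g * p) ^ r := pow_le_pow_left₀ hp0' hp2 r
      _ = g ^ r * p ^ r := mul_pow _ _ _
      _ ≤ _ := by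
        have := pow_le_pow_right₀ hg1 h.hr
        gcongr
  -- the value at `9/2 + θ + iT`
  obtain ⟨Y, hY⟩ : ∃ Y : ℝ, Y = ‖X s'‖ := ⟨_, rfl⟩
  have hYe : Y = G' * (p' ^ r * ‖E α s'‖) := by
    rw [hY, h.eq' (s := s') (by rw [hsre']; linarith), norm_mul, norm_mul, norm_pow, hG', hp']
  obtain ⟨b1, b2⟩ := E_bd h.hα (s := s') (by rw [hsre']; linarith)
  have hul := h.ul
  obtain ⟨-, -, pu, pl⟩ := prf hul le_rfl 0 T
  simp only [iteratedDeriv_zero] at pu pl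
  have ere : ((θ : ℂ) + 4).re = θ + 4 := by simp
  have pu4 := pu ((θ : ℂ) + 4)
  have pl4 := pl ((θ : ℂ) + 4) (by rw [ere]; linarith)
  have e5 : (1 / 2 + (T : ℂ) * I + ((θ : ℂ) + 4) : ℂ) = s' := by rw [hs', hs]; ring
  have e6 : max |((θ : ℂ) + 4).re| 3 - 3 = θ + 1 := by
    rw [ere, abs_of_pos (by linarith), max_eq_left (by linarith)]
    ring
  have hn5 : K0 * (1 + ‖(θ : ℂ) + 4‖ ^ 2) ≤ 26 * K0 := by
    have h1 : ‖(θ : ℂ) + 4‖ ≤ 5 := by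
      refine (norm_add_le _ _).trans ?_
      rw [Complex.norm_real, Real.norm_eq_abs, abs_of_nonneg hθ0, Complex.norm_ofNat]
      linarith
    have h2 : ‖(θ : ℂ) + 4‖ ^ 2 ≤ 5 ^ 2 := pow_le_pow_left₀ (norm_nonneg _) h1 2
    have h3 : K0 * (1 + ‖(θ : ℂ) + 4‖ ^ 2) ≤ K0 * 26 := mul_le_mul_of_nonneg_left (by linarith) hK00
    linarith
  rw [e5, ← hY, ← hQ, ← hh', e6] at pu4
  rw [e5, ← hY, ← hQ, ← hh', ere] at pl4
  rw [← hb, ← hK0] at pu4 pl4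
  have pu5 : Y ≤ Q * Real.exp (h' * (θ + 1) + 26 * K0) :=
    pu4.trans (mul_le_mul_of_nonneg_left (Real.exp_le_exp.2 (by linarith)) hQ0)
  have pl5 : Q * Real.exp (h' * (θ + 4 - 3) - 26 * K0) ≤ Y :=
    le_trans (mul_le_mul_of_nonneg_left (Real.exp_le_exp.2 (by linarith)) hQ0) pl4
  have hnorm : ‖gm r N a s‖ = p ^ r * G := by
    unfold gm
    rw [norm_mul, norm_pow, hG, hp]
  rw [hnorm]
  have hEp : 0 < ‖E α s'‖ := lt_of_lt_of_le (Real.exp_pos _) b2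
  constructor
  · have h1 : Q * Real.exp (-(3 * h') + θ * h') ≤ Real.exp (26 * K0) * Real.exp (-(4 * h')) * Y := by
      have h2 := mul_le_mul_of_nonneg_right pl5
        (by positivity : 0 ≤ Real.exp (26 * K0) * Real.exp (-(4 * h')))
      refine le_trans (le_of_eq ?_) (h2.trans (le_of_eq (by ring)))
      rw [mul_assoc, ← Real.exp_add, ← Real.exp_add]
      congr 2
      ring
    calc Q * Real.exp (-(3 * h') + θ * h') ≤ Real.exp (26 * K0) * Real.exp (-(4 * h')) * Y := h1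
      _ = Real.exp (26 * K0) * Real.exp (-(4 * h')) * (G' * (p' ^ r * ‖E α s'‖)) := by rw [hYe]
      _ ≤ Real.exp (26 * K0) * Real.exp (-(4 * h')) * ((Real.exp (4 * h') * G) *
          ((g ^ m * p ^ r) * Real.exp (m * (B0 / 2)))) := by gcongr
      _ = (Real.exp (-(4 * h')) * Real.exp (4 * h')) * (e0 * g ^ m * (p ^ r * G)) := by
          rw [he0]
          ring
      _ = e0 * g ^ m * (p ^ r * G) := by
          rw [← Real.exp_add, neg_add_cancel, Real.exp_zero, one_mul]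
      _ ≤ e0 * (g ^ m + q ^ m) * (p ^ r * G) := by
          have : (0 : ℝ) ≤ q ^ m := by positivity
          gcongr
          linarith
  · have h2 : G' * p' ^ r ≤ Real.exp (m * (B0 / 2)) * Y := by
      rw [hYe]
      have h3 : 1 ≤ Real.exp (m * (B0 / 2)) * ‖E α s'‖ := by
        have h4 := mul_le_mul_of_nonneg_left b2 (Real.exp_pos (m * (B0 / 2))).le
        rw [← Real.exp_add, add_neg_cancel, Real.exp_zero] at h4
        exact h4
      calc G' * p' ^ r = G' * p' ^ r * 1 := by ring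
        _ ≤ G' * p' ^ r * (Real.exp (m * (B0 / 2)) * ‖E α s'‖) := by gcongr
        _ = _ := by ring
    have h5 : Real.exp (4 * h') * (p ^ r * G) ≤ q ^ m * (Real.exp (m * (B0 / 2)) * Y) := by
      calc Real.exp (4 * h') * (p ^ r * G) = p ^ r * (Real.exp (4 * h') * G) := by ring
        _ ≤ p' ^ r * (q ^ m * G') := by
            have : 0 ≤ Real.exp (4 * h') * G := by positivity
            gcongr
        _ = q ^ m * (G' * p' ^ r) := by ring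
        _ ≤ _ := by gcongr
    have h6 : p ^ r * G ≤ Real.exp (-(4 * h')) * (q ^ m * (Real.exp (m * (B0 / 2)) * Y)) := by
      have h7 := mul_le_mul_of_nonneg_left h5 (Real.exp_pos (-(4 * h'))).le
      rw [← mul_assoc, ← Real.exp_add, neg_add_cancel, Real.exp_zero, one_mul] at h7
      exact h7
    calc p ^ r * G ≤ Real.exp (-(4 * h')) * (q ^ m * (Real.exp (m * (B0 / 2)) * Y)) := h6
      _ ≤ Real.exp (-(4 * h')) * (q ^ m * (Real.exp (m * (B0 / 2)) *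
          (Q * Real.exp (h' * (θ + 1) + 26 * K0)))) := by gcongr
      _ = q ^ m * Real.exp (m * (B0 / 2)) * Q *
          (Real.exp (-(4 * h')) * Real.exp (h' * (θ + 1) + 26 * K0)) := by ring
      _ = q ^ m * Real.exp (m * (B0 / 2)) * Q *
          (Real.exp (26 * K0) * Real.exp (-(3 * h') + θ * h')) := by
          rw [← Real.exp_add, ← Real.exp_add]
          congr 2
          ring
      _ = e0 * q ^ m * (Q * Real.exp (-(3 * h') + θ * h')) := by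
          rw [he0]
          ring
      _ ≤ e0 * (g ^ m + q ^ m) * (Q * Real.exp (-(3 * h') + θ * h')) := by
          have : (0 : ℝ) ≤ g ^ m := by positivity
          gcongr
          linarith

end Pool.Agent.TH839.SC
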