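import Pool.Agent.TH839.LD.Dec

/-!
# Project SC: vertical decay at heights outside the range of the archimedean parameters
-/

set_option autoImplicit false

open Complex Filter Topology Set
open scoped ComplexConjugate

namespace Pool.Agent.TH839.SC

open Pool.Agent.W169.HF H353.E Pool.Agent.W355.UN Pool.Agent.TH839.UH Pool.Agent.TH839.UH.EP
open Pool.Agent.TH839.LD
open Pool.Agent.TH839.UH.NF (B0 B0_nonneg)

variable {m r : ℕ} {N : ℝ} {a : Fin m → ℂ} {α : Nat.Primes → Fin m → ℂ} {X : ℂ → ℂ}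

/-- vertical decay of `X` on the line `Re s = 7/2` in the direction `σ` and slow decrease of the conductor,
for the heights near `T` -/
def DecT (Dc : ℝ → ℝ) {m : ℕ} (N : ℝ) (μ : Fin m → ℂ) (X : ℂ → ℂ) (σ T : ℝ) : Prop := |σ| = 1 ∧
  ∀ R : ℝ, 0 ≤ R → 0 ≤ Dc R ∧ ∀ T1 : ℝ, |T1 - T| ≤ R → ∀ v : ℝ, 0 ≤ v →
    ‖X (7 / 2 + ((T1 + σ * v : ℝ) : ℂ) * I)‖ ≤
      Dc R * Real.exp (-(v / 4)) * ‖X (7 / 2 + (T1 : ℂ) * I)‖ ∧
    hc N μ T1 - Dc R ≤ hc N μ (T1 + σ * v)

/-- `T` is outside the range of the heights `-Im (a j)`, up to `A`, on the side `σ` -/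
def Side (A : ℝ) {m : ℕ} (a : Fin m → ℂ) (σ T : ℝ) : Prop := |σ| = 1 ∧ ∀ j, -A ≤ σ * (T + (a j).im)

lemma log_key {A R σ T v : ℝ} (hA : 0 ≤ A) (hR : 0 ≤ R) (b : ℂ) (hb : |b.re| ≤ A) (hσ : |σ| = 1)
    (hT : -R ≤ σ * (T + b.im)) (hv : 0 ≤ v) :
    Real.log (1 + ‖(T : ℂ) * I + b‖) ≤ Real.log (1 + ‖((T + σ * v : ℝ) : ℂ) * I + b‖) + (R + A) := by
  have hσ2 : σ * σ = 1 := by
    rcases (abs_eq (zero_le_one' ℝ)).1 hσ with h1 | h1 <;> rw [h1] <;> norm_num
  obtain ⟨t, ht⟩ : ∃ t : ℝ, t = T + b.im := ⟨_, rfl⟩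
  rw [← ht] at hT
  obtain ⟨w, hw⟩ : ∃ w : ℝ, w = ‖((T + σ * v : ℝ) : ℂ) * I + b‖ := ⟨_, rfl⟩
  have hw0 : 0 ≤ w := by rw [hw]; exact norm_nonneg _
  have h1 : ‖(T : ℂ) * I + b‖ ≤ |b.re| + |t| := by
    have h2 := Complex.norm_le_abs_re_add_abs_im ((T : ℂ) * I + b)
    have e1 : ((T : ℂ) * I + b).re = b.re := by simp
    have e2 : ((T : ℂ) * I + b).im = t := by rw [ht]; simp
    rwa [e1, e2] at h2
  have h2 : |t + σ * v| ≤ w := by
    have h3 := Complex.abs_im_le_norm (((T + σ * v : ℝ) : ℂ) * I + b)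
    have e2 : (((T + σ * v : ℝ) : ℂ) * I + b).im = t + σ * v := by rw [ht]; simp; ring
    rwa [e2, ← hw] at h3
  have h3 : |t| ≤ |t + σ * v| + R := by
    have e1 : |t| = |σ * t| := by rw [abs_mul, hσ, one_mul]
    have e2 : |t + σ * v| = |σ * t + v| := by
      have : σ * (t + σ * v) = σ * t + v := by
        rw [mul_add, ← mul_assoc, hσ2, one_mul]
      rw [← this, abs_mul, hσ, one_mul]
    rw [e1, e2]
    rcases le_total 0 (σ * t) with h1 | h1
    · rw [abs_of_nonneg h1, abs_of_nonneg (by linarith)]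
      linarith
    · rw [abs_of_nonpos h1]
      have := abs_nonneg (σ * t + v)
      linarith
  have h4 : 1 + ‖(T : ℂ) * I + b‖ ≤ (1 + w) * (1 + (R + A)) := by
    have : 0 ≤ w * (R + A) := by positivity
    have e : (1 + w) * (1 + (R + A)) = 1 + w + (R + A) + w * (R + A) := by ring
    rw [e]
    linarith
  calc Real.log (1 + ‖(T : ℂ) * I + b‖) ≤ Real.log ((1 + w) * (1 + (R + A))) :=
        Real.log_le_log (by positivity) h4
    _ = Real.log (1 + w) + Real.log (1 + (R + A)) :=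
        Real.log_mul (by positivity) (by positivity)
    _ ≤ _ := by
        have h5 := log_one_add_le (v := R + A) (by positivity)
        rw [← hw]
        linarith

lemma sum_monoT {A R σ T v : ℝ} (hA : 0 ≤ A) (hR : 0 ≤ R) (hN : 1 ≤ N) {a : Fin m → ℂ}
    (ha : ∀ j, |(a j).re| ≤ A) (hσ : |σ| = 1) (hT : ∀ j, -R ≤ σ * (T + (a j).im)) (hv : 0 ≤ v) :
    hc N (fun j => -a j) T - m * (R + A) ≤ hc N (fun j => -a j) (T + σ * v) := by
  have hm0 : (0 : ℝ) ≤ m := Nat.cast_nonneg m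
  rw [hc_eq hN, hc_eq hN]
  simp only [sub_neg_eq_add]
  have h3 := Finset.sum_le_sum (s := (Finset.univ : Finset (Fin m))) fun j _ =>
    log_key hA hR (a j) (ha j) hσ (hT j) hv
  rw [Finset.sum_add_distrib (g := fun _ => R + A), Finset.sum_const, Finset.card_univ,
    Fintype.card_fin, nsmul_eq_mul] at h3
  have h4 : 0 ≤ (m : ℝ) * (R + A) := by positivity
  linarith

/-- vertical decay outside the range of the archimedean parameters -/
theorem decT (m : ℕ) (A : ℝ) (hA : 0 ≤ A) : ∃ Dc : ℝ → ℝ, ∀ (r : ℕ) (N : ℝ) (a : Fin m → ℂ)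
    (α : Nat.Primes → Fin m → ℂ) (X : ℂ → ℂ) (σ T : ℝ), HW m r N a α X → (∀ j, |(a j).re| ≤ A) →
      Side A a σ T → DecT Dc N (fun j => -a j) X σ T := by
  have H0 : ∀ R : ℝ, ∃ C : ℝ, 0 ≤ R → 0 < C ∧ ∀ (μ : ℂ) (T v : ℝ), ‖μ‖ ≤ A → μ.re ≤ 1 / 2 → -R ≤ T →
      0 ≤ v → ‖Gammaℝ (7 / 2 + ((T + v : ℝ) : ℂ) * I - μ)‖ ≤
        C * Real.exp (-(v / 2)) * ‖Gammaℝ (7 / 2 + (T : ℂ) * I - μ)‖ := by
    intro R
    rcases le_or_gt 0 R with h | h
    · obtain ⟨C, hC, H⟩ := Pool.Agent.TH9.LD.gdec A R hA h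
      exact ⟨C, fun _ => ⟨hC, H⟩⟩
    · exact ⟨1, fun h2 => absurd h2 (not_le.2 h)⟩
  choose C hC using H0
  refine ⟨fun R => (64 * C (R + A) * Real.exp B0) ^ m + m * (R + A + A), ?_⟩
  intro r N a α X σ T0 h ha hside
  obtain ⟨hσ, hS⟩ := hside
  refine ⟨hσ, ?_⟩
  intro R hR
  have hRA : 0 ≤ R + A := by linarith
  obtain ⟨hC0, HC⟩ := hC (R + A) hRA
  have hm0 : (0 : ℝ) ≤ m := Nat.cast_nonneg m
  have hB := B0_nonneg
  have hD1 : 0 ≤ (64 * C (R + A) * Real.exp B0) ^ m := by positivity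
  have hD2 : 0 ≤ (m : ℝ) * (R + A + A) := by positivity
  refine ⟨by positivity, ?_⟩
  intro T hTT v hv
  have hTj : ∀ j, -(R + A) ≤ σ * (T + (a j).im) := by
    intro j
    have e1 : σ * (T + (a j).im) = σ * (T0 + (a j).im) + σ * (T - T0) := by ring
    have e2 : |σ * (T - T0)| ≤ R := by rw [abs_mul, hσ, one_mul]; exact hTT
    have e3 := (abs_le.1 e2).1
    have e4 := hS j
    linarith
  constructor
  · obtain ⟨s, hs⟩ : ∃ s : ℂ, s = 7 / 2 + (T : ℂ) * I := ⟨_, rfl⟩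
    obtain ⟨s', hs'⟩ : ∃ s' : ℂ, s' = 7 / 2 + ((T + σ * v : ℝ) : ℂ) * I := ⟨_, rfl⟩
    have hre : s.re = 7 / 2 := by rw [hs]; simp
    have hre' : s'.re = 7 / 2 := by rw [hs']; simp
    rw [← hs, ← hs']
    have hN0 : 0 < N := by linarith [h.hN]
    have g1 : ‖gaf N (fun j => -a j) s'‖ ≤ (C (R + A) * Real.exp (-(v / 2))) ^ m *
        ‖gaf N (fun j => -a j) s‖ := by
      unfold gaf
      rw [norm_mul, norm_mul, norm_prod, norm_prod, Complex.norm_cpow_eq_rpow_re_of_pos hN0,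
        Complex.norm_cpow_eq_rpow_re_of_pos hN0]
      have e1 : (s / 2).re = (s' / 2).re := by
        rw [show (2 : ℂ) = ((2 : ℝ) : ℂ) by norm_num, Complex.div_ofReal_re, Complex.div_ofReal_re,
          hre, hre']
      rw [e1]
      have h1 : ∏ j, ‖Gammaℝ (s' - (fun j => -a j) j)‖ ≤
          ∏ j, (C (R + A) * Real.exp (-(v / 2)) * ‖Gammaℝ (s - (fun j => -a j) j)‖) := by
        refine Finset.prod_le_prod (fun _ _ => norm_nonneg _) fun j _ => ?_
        have h2 : ‖((-(a j).re : ℝ) : ℂ)‖ ≤ A := by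
          rw [Complex.norm_real, Real.norm_eq_abs, abs_neg]
          exact ha j
        have h3 : (((-(a j).re : ℝ) : ℂ)).re ≤ 1 / 2 := by
          have := h.re_le j
          rw [neg_re] at this
          rw [ofReal_re]
          exact this
        have h4 := gd HC h2 h3 hσ (hTj j) hv
        have ea : a j = ((a j).re : ℂ) + ((a j).im : ℂ) * I := (Complex.re_add_im (a j)).symm
        have e2 : (7 / 2 + ((T + (a j).im + σ * v : ℝ) : ℂ) * I - ((-(a j).re : ℝ) : ℂ) : ℂ) =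
            s' - (fun j => -a j) j := by
          simp only
          rw [hs', sub_neg_eq_add]
          conv_rhs => rw [ea]
          push_cast
          ring
        have e3 : (7 / 2 + ((T + (a j).im : ℝ) : ℂ) * I - ((-(a j).re : ℝ) : ℂ) : ℂ) =
            s - (fun j => -a j) j := by
          simp only
          rw [hs, sub_neg_eq_add]
          conv_rhs => rw [ea]
          push_cast
          ring
        rw [e2, e3] at h4
        exact h4
      rw [Finset.prod_mul_distrib, Finset.prod_const, Finset.card_univ, Fintype.card_fin] at h1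
      calc _ ≤ N ^ (s' / 2).re * ((C (R + A) * Real.exp (-(v / 2))) ^ m *
            ∏ j, ‖Gammaℝ (s - (fun j => -a j) j)‖) := by gcongr
        _ = _ := by ring
    have g2 : ‖s' * (s' - 1)‖ ≤ (1 + v) ^ 2 * ‖s * (s - 1)‖ := by
      rw [norm_mul, norm_mul]
      have h1 := norm_vert (T := T) hσ hv (b := 7 / 2) (by norm_num)
      have h2 := norm_vert (T := T) hσ hv (b := 5 / 2) (by norm_num)
      have e1 : (((7 / 2 : ℝ) : ℂ) + ((T + σ * v : ℝ) : ℂ) * I) = s' := by rw [hs']; push_cast; ring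
      have e2 : (((7 / 2 : ℝ) : ℂ) + (T : ℂ) * I) = s := by rw [hs]; push_cast; ring
      have e3 : (((5 / 2 : ℝ) : ℂ) + ((T + σ * v : ℝ) : ℂ) * I) = s' - 1 := by
        rw [hs']; push_cast; ring
      have e4 : (((5 / 2 : ℝ) : ℂ) + (T : ℂ) * I) = s - 1 := by rw [hs]; push_cast; ring
      rw [e1, e2] at h1
      rw [e3, e4] at h2
      calc ‖s'‖ * ‖s' - 1‖ ≤ ((1 + v) * ‖s‖) * ((1 + v) * ‖s - 1‖) := by gcongr
        _ = _ := by ring
    have g3 : ‖E α s'‖ ≤ Real.exp (m * B0) * ‖E α s‖ := by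
      have h1 := (E_bd h.hα (s := s') (by rw [hre']; norm_num)).1
      have h2 := (E_bd h.hα (s := s) (by rw [hre]; norm_num)).2
      calc ‖E α s'‖ ≤ Real.exp (m * (B0 / 2)) := h1
        _ = Real.exp (m * B0) * Real.exp (-(m * (B0 / 2))) := by
            rw [← Real.exp_add]
            congr 1
            ring
        _ ≤ _ := by gcongr
    rw [h.eq' (s := s') (by rw [hre']; norm_num), h.eq' (s := s) (by rw [hre]; norm_num)]
    simp only [norm_mul, norm_pow]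
    simp only [norm_mul] at g2
    have g4 : (‖s'‖ * ‖s' - 1‖) ^ r ≤ ((1 + v) ^ 2) ^ m * (‖s‖ * ‖s - 1‖) ^ r := by
      calc (‖s'‖ * ‖s' - 1‖) ^ r ≤ ((1 + v) ^ 2 * (‖s‖ * ‖s - 1‖)) ^ r := by gcongr
        _ = ((1 + v) ^ 2) ^ r * (‖s‖ * ‖s - 1‖) ^ r := mul_pow _ _ _
        _ ≤ _ := by
          have h1 : 1 ≤ (1 + v) ^ 2 := one_le_pow₀ (by linarith)
          have h2 := pow_le_pow_right₀ h1 h.hr
          gcongr
    have g5 : (C (R + A) * Real.exp (-(v / 2))) ^ m * ((1 + v) ^ 2) ^ m * Real.exp (m * B0) ≤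
        (64 * C (R + A) * Real.exp B0) ^ m * Real.exp (-(v / 4)) := by
      have h1 : Real.exp (m * B0) = Real.exp B0 ^ m := by rw [← Real.exp_nat_mul]
      rw [h1, ← mul_pow, ← mul_pow]
      have h2 : C (R + A) * Real.exp (-(v / 2)) * (1 + v) ^ 2 * Real.exp B0 ≤
          64 * C (R + A) * Real.exp B0 * Real.exp (-(v / 4)) := by
        have h3 := poly_exp hv
        calc _ ≤ C (R + A) * Real.exp (-(v / 2)) * (64 * Real.exp (v / 4)) * Real.exp B0 := by gcongr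
          _ = 64 * C (R + A) * Real.exp B0 * (Real.exp (-(v / 2)) * Real.exp (v / 4)) := by ring
          _ = _ := by
            rw [← Real.exp_add]
            congr 2
            ring
      have h4 : Real.exp (-(v / 4)) ^ m ≤ Real.exp (-(v / 4)) := by
        have h5 : Real.exp (-(v / 4)) ≤ 1 := by
          rw [Real.exp_le_one_iff]
          linarith
        exact pow_le_of_le_one (Real.exp_pos _).le h5 (by have := h.hm; omega)
      calc _ ≤ (64 * C (R + A) * Real.exp B0 * Real.exp (-(v / 4))) ^ m := by gcongr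
        _ = (64 * C (R + A) * Real.exp B0) ^ m * Real.exp (-(v / 4)) ^ m := mul_pow _ _ _
        _ ≤ _ := by gcongr
    calc _ ≤ ((C (R + A) * Real.exp (-(v / 2))) ^ m * ‖gaf N (fun j => -a j) s‖) *
          ((((1 + v) ^ 2) ^ m * (‖s‖ * ‖s - 1‖) ^ r) * (Real.exp (m * B0) * ‖E α s‖)) := by gcongr
      _ = ((C (R + A) * Real.exp (-(v / 2))) ^ m * ((1 + v) ^ 2) ^ m * Real.exp (m * B0)) *
          (‖gaf N (fun j => -a j) s‖ * ((‖s‖ * ‖s - 1‖) ^ r * ‖E α s‖)) := by ring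
      _ ≤ ((64 * C (R + A) * Real.exp B0) ^ m * Real.exp (-(v / 4))) *
          (‖gaf N (fun j => -a j) s‖ * ((‖s‖ * ‖s - 1‖) ^ r * ‖E α s‖)) := by gcongr
      _ ≤ (((64 * C (R + A) * Real.exp B0) ^ m + m * (R + A + A)) * Real.exp (-(v / 4))) *
          (‖gaf N (fun j => -a j) s‖ * ((‖s‖ * ‖s - 1‖) ^ r * ‖E α s‖)) := by
          gcongr
          linarith
      _ = _ := by ring
  · have h1 := sum_monoT hA hRA h.hN ha hσ hTj hv
    linarith

end Pool.Agent.TH839.SC
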