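import Pool.Agent.TH839.SC.Fsm
import Pool.Agent.TH839.LD.Sml

/-!
# Project SC: small values on `Re s = 1/2 + θ` give few zeros of all derivatives to the right
-/

set_option autoImplicit false

open Complex MeasureTheory Filter Topology Set
open scoped ComplexConjugate

namespace Pool.Agent.TH839.SC

open Pool.Agent.W169.HF H353.E Pool.Agent.W355.UN Pool.Agent.TH839.UH Pool.Agent.TH839.LD

variable {m : ℕ} {B : ℝ → ℝ} {N θ : ℝ} {μ : Fin m → ℂ} {X L : ℂ → ℂ}

theorem smallfewt (m : ℕ) (B : ℝ → ℝ) (hB : 0 ≤ B 1) (θ δ ε : ℝ) (hθ0 : 0 ≤ θ) (hθ1 : θ ≤ 1 / 2)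
    (hδ : 0 < δ) (hδ1 : δ ≤ 1) (hε : 0 < ε) :
    ∃ κ W h0 : ℝ, 0 < κ ∧ ∀ (N : ℝ) (μ : Fin m → ℂ) (X L : ℂ → ℂ), UL m B N 1 μ X L →
      ∀ T : ℝ, h0 ≤ hc N μ T →
        (∀ T' : ℝ, |T' - T| ≤ W → ‖X (1 / 2 + (T' : ℂ) * I + θ)‖ ≤ ‖X (7 / 2 + (T' : ℂ) * I)‖ *
          Real.exp (-(3 * hc N μ T') + (θ + κ) * hc N μ T')) →
        ∀ n : ℕ, Few X n (θ + δ) T (ε * hc N μ T) := by
  obtain ⟨C, hC, HM⟩ := main_all hB
  obtain ⟨κc, hκc, HCNT⟩ := cnt δ ε hδ hδ1 hε
  obtain ⟨A0, hA0⟩ : ∃ A0 : ℝ, A0 = 5 * C := ⟨_, rfl⟩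
  have hA0p : 0 < A0 := by rw [hA0]; positivity
  obtain ⟨κL, ℓL, hκL, HLOW⟩ := Pool.Agent.TH494.LD.low A0 κc hA0p hκc
  obtain ⟨κ1, R, ℓC, hκ1, hRW, HC⟩ := Pool.Agent.TH324.LD.cvx θ 4 (κc / 4) (11 + A0) hθ0
    (by linarith) (by norm_num) (by positivity) (by positivity)
  have hR0 : 0 ≤ R := by linarith
  have hm0 : (0 : ℝ) ≤ m := Nat.cast_nonneg m
  obtain ⟨K0, hK0⟩ : ∃ K0 : ℝ, K0 = Kn m (B 1) 0 := ⟨_, rfl⟩
  have hK00 : 0 ≤ K0 := by rw [hK0]; exact Kn_nonneg hB 0
  have E : ∀ C k : ℝ, 0 < k → ∀ᶠ h : ℝ in atTop, C ≤ k * h := fun C k hk =>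
    (tendsto_id.const_mul_atTop hk).eventually_ge_atTop C
  obtain ⟨h0, H0⟩ := eventually_atTop.1 ((E 2 1 one_pos).and ((E m 1 one_pos).and
    ((E ℓL 1 one_pos).and ((E ℓC 1 one_pos).and
    ((E (K0 * (1 + (2 * A0 + 13) ^ 2)) κL hκL).and
    ((E (K0 * (10 + R ^ 2) + 5 * (m * R)) (κ1 / 2) (by positivity)).and
    ((E (K0 * (10 + R ^ 2)) 1 one_pos).and
    ((E (K0 * (1 + (11 + A0) ^ 2)) (κc / 4) (by positivity)).and
    (E (3 * A0) (κc ^ 2 / 32) (by positivity))))))))))
  refine ⟨min 1 (κ1 / 2), R, h0, by positivity, ?_⟩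
  intro N μ X L h T hh0 hsm n
  obtain ⟨κ, hκ⟩ : ∃ κ : ℝ, κ = min 1 (κ1 / 2) := ⟨_, rfl⟩
  rw [← hκ] at hsm
  have hκ0 : 0 < κ := by rw [hκ]; positivity
  have hκo : κ ≤ 1 := by rw [hκ]; exact min_le_left _ _
  have hκκ : κ ≤ κ1 / 2 := by rw [hκ]; exact min_le_right _ _
  obtain ⟨h', hh'⟩ : ∃ h' : ℝ, h' = hc N μ T := ⟨_, rfl⟩
  rw [← hh'] at hh0 ⊢
  obtain ⟨d1, d2, d3, d4, d5, d6, d7, d8, d9⟩ := H0 h' hh0
  rw [one_mul] at d1 d2 d3 d4 d7
  have hh2 : 0 < h' := by linarith
  have hne2 : ∀ s : ℂ, 2 < s.re → iteratedDeriv n X s ≠ 0 := fun s hs =>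
    ((steps' h le_rfl n).2.2 s (by linarith)).1
  rcases le_total (A0 * h') (n : ℝ) with hn | hn
  · -- many derivatives: no zeros
    intro S hS
    have hSe : S = ∅ := by
      rw [Finset.eq_empty_iff_forall_notMem]
      intro s hs
      obtain ⟨s1, s2, s3⟩ := hS s hs
      have h1 := (HM m N 1 μ X L h le_rfl 0 n s le_rfl ?_ (by rw [heat_zero_time X h.slow]; exact s1)).1
      · linarith
      · rw [zero_mul, add_zero]
        refine le_trans ?_ hn
        have h2 : Real.log (W355.UN.cond N μ s.im) = 2 * hc N μ s.im := by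
          unfold hc
          ring
        rw [h2, hA0]
        have h3 := (hc_near h.hN μ (T := T) (T1 := s.im) s3).1
        rw [← hh'] at h3
        have h4 : (m : ℝ) + 2 * hc N μ s.im ≤ 5 * h' := by linarith
        calc _ ≤ C * (5 * h') := mul_le_mul_of_nonneg_left h4 hC.le
          _ = _ := by ring
    rw [hSe, Finset.sum_empty]
    positivity
  · obtain ⟨Q, hQ⟩ : ∃ Q : ℝ, Q = ‖X (7 / 2 + (T : ℂ) * I)‖ := ⟨_, rfl⟩
    have hQ0 : 0 < Q := by rw [hQ]; exact norm_pos_iff.2 (prf h le_rfl 0 T).1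
    obtain ⟨P, hP⟩ : ∃ P : ℝ, P = Q * Real.exp (-(3 * h')) := ⟨_, rfl⟩
    have hP0 : 0 < P := by rw [hP]; positivity
    have hPe : ∀ x : ℝ, Q * Real.exp x = P * Real.exp (x + 3 * h') := by
      intro x
      rw [hP, mul_assoc, ← Real.exp_add]
      congr 2
      ring
    obtain ⟨f, hf⟩ : ∃ f : ℂ → ℂ, f = fun u => X (1 / 2 + (T : ℂ) * I + u) := ⟨_, rfl⟩
    have hfd : Differentiable ℂ f := by
      rw [hf]
      exact h.slow.1.comp (by fun_prop)
    obtain ⟨-, -, pu, pl⟩ := prf h le_rfl 0 T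
    simp only [iteratedDeriv_zero] at pu pl
    rw [← hQ, ← hh', ← hK0] at pu pl
    have pu' : ∀ u : ℂ, ‖f u‖ ≤ P * Real.exp (h' * max |u.re| 3 + K0 * (1 + ‖u‖ ^ 2)) := by
      intro u
      rw [hf]
      refine (pu u).trans (le_of_eq ?_)
      rw [hPe]
      congr 2
      ring
    have pl' : ∀ u : ℂ, 3 ≤ u.re → P * Real.exp (h' * u.re - K0 * (1 + ‖u‖ ^ 2)) ≤ ‖f u‖ := by
      intro u hu
      rw [hf]
      refine le_trans (le_of_eq ?_) (pl u hu)
      rw [hPe]
      congr 2
      ring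
    have hsq : ∀ (u : ℂ) (r : ℝ), ‖u‖ ≤ r → K0 * (1 + ‖u‖ ^ 2) ≤ K0 * (1 + r ^ 2) := by
      intro u r hu
      have := pow_le_pow_left₀ (norm_nonneg u) hu 2
      exact mul_le_mul_of_nonneg_left (by linarith) hK00
    -- the shifted function
    obtain ⟨F, hF⟩ : ∃ F : ℂ → ℂ, F = fun u => X ((1 / 2 + (T : ℂ) * I + θ) + u) := ⟨_, rfl⟩
    have hFf : ∀ u : ℂ, F u = f (θ + u) := fun u => by rw [hF, hf]; simp only [add_assoc]
    have hFd : Differentiable ℂ F := by
      rw [hF]
      exact h.slow.1.comp (by fun_prop)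
    have hFi : ∀ k : ℕ, iteratedDeriv k F =
        fun u => iteratedDeriv k X ((1 / 2 + (T : ℂ) * I + θ) + u) := by
      intro k
      rw [hF]
      exact iteratedDeriv_comp_const_add k X _
    obtain ⟨P', hP'⟩ : ∃ P' : ℝ, P' = P * Real.exp (θ * h') := ⟨_, rfl⟩
    have hP'0 : 0 < P' := by rw [hP']; positivity
    have hPP : ∀ x : ℝ, P * Real.exp x = P' * Real.exp (x - θ * h') := by
      intro x
      rw [hP', mul_assoc, ← Real.exp_add]
      congr 2
      ring
    have hre : ∀ u : ℂ, ((θ : ℂ) + u).re = θ + u.re := fun u => by simp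
    have hnt : ∀ (u : ℂ) (r : ℝ), ‖u‖ ≤ r → ‖(θ : ℂ) + u‖ ≤ r + 1 := by
      intro u r hu
      refine (norm_add_le _ _).trans ?_
      rw [Complex.norm_real, Real.norm_eq_abs, abs_of_nonneg hθ0]
      linarith
    -- convexity
    have CV := HC h' P f d4 hP0 hfd (fun u => by rw [hf]; exact sym h T u) ?_ ?_ ?_
    · -- the upper bound
      have UP : ∀ w : ℂ, ‖w‖ ≤ 10 + A0 → ‖F w‖ ≤ P' * Real.exp (|w.re| * h' + κc / 4 * h') := by
        intro w hw
        have hw1 := hnt w _ hw
        have hw2 : ‖(θ : ℂ) + w‖ ≤ 11 + A0 := by linarith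
        have habs : |θ + w.re| ≤ θ + |w.re| := by
          refine (abs_add_le _ _).trans ?_
          rw [abs_of_nonneg hθ0]
        rw [hFf]
        rcases le_total |θ + w.re| 3 with h1 | h1
        · have h2 := CV (θ + w) (by rw [hre]; exact h1) ((Complex.abs_im_le_norm _).trans hw2)
          rw [hre] at h2
          refine h2.trans ?_
          rw [hPP]
          refine mul_le_mul_of_nonneg_left (Real.exp_le_exp.2 ?_) hP'0.le
          have h3 : max |θ + w.re| θ ≤ θ + |w.re| := max_le habs (by linarith [abs_nonneg w.re])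
          have h4 : max |θ + w.re| θ * h' ≤ (θ + |w.re|) * h' := mul_le_mul_of_nonneg_right h3 hh2.le
          linarith
        · refine (pu' (θ + w)).trans ?_
          rw [hPP]
          refine mul_le_mul_of_nonneg_left (Real.exp_le_exp.2 ?_) hP'0.le
          rw [hre, max_eq_left h1]
          have := hsq _ _ hw2
          have h4 : h' * |θ + w.re| ≤ h' * (θ + |w.re|) := mul_le_mul_of_nonneg_left habs hh2.le
          linarith
      have hquad : 3 * A0 * h' ≤ Real.exp (κc / 4 * h') := by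
        have h1 := Real.quadratic_le_exp_of_nonneg (x := κc / 4 * h') (by positivity)
        have h2 : 3 * A0 * h' ≤ κc ^ 2 / 32 * h' * h' := mul_le_mul_of_nonneg_right d9 hh2.le
        have h3 : (κc / 4 * h') ^ 2 / 2 = κc ^ 2 / 32 * h' * h' := by ring
        have h4 : 0 < κc / 4 * h' := by positivity
        linarith
      have hup : ∀ u : ℂ, 0 ≤ u.re → ‖u‖ ≤ 10 →
          ‖iteratedDeriv n F u‖ ≤ P' * h' ^ n * Real.exp (h' * u.re + κc * h') := by
        intro u hu1 hu2
        have h1 := cauchy hFd hP'0.le hh2 hu1 n hn hquad (by positivity) fun w hw => UP w (by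
          have := norm_add_le (w - u) u
          rw [sub_add_cancel] at this
          linarith)
        refine h1.trans (mul_le_mul_of_nonneg_left (Real.exp_le_exp.2 ?_) (by positivity))
        have : 0 < κc * h' := by positivity
        have e1 : 2 * (κc / 4) * h' = κc * h' / 2 := by ring
        linarith
      have hlow := HLOW h' P' n F d3 hP'0 hn hFd (fun u hu => by
          rw [hFi]
          exact hne2 _ (by simp; linarith)) (fun u hu => by
          rw [hFf]
          refine (pu' (θ + u)).trans ?_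
          rw [hPP, hre]
          refine mul_le_mul_of_nonneg_left (Real.exp_le_exp.2 ?_) hP'0.le
          have h5 := hsq _ _ (hnt u _ hu)
          have h6 : max |θ + u.re| 3 ≤ θ + max |u.re| 3 := by
            apply max_le
            · refine (abs_add_le _ _).trans ?_
              rw [abs_of_nonneg hθ0]
              linarith [le_max_left |u.re| 3]
            · linarith [le_max_right |u.re| 3]
          have h7 : h' * max |θ + u.re| 3 ≤ h' * (θ + max |u.re| 3) :=
            mul_le_mul_of_nonneg_left h6 hh2.le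
          have h8 : 2 * A0 + 12 + 1 = 2 * A0 + 13 := by ring
          rw [h8] at h5
          linarith) (fun u hu1 hu2 => by
          rw [hFf]
          refine le_trans ?_ (pl' (θ + u) (by rw [hre]; linarith))
          rw [hPP, hre]
          refine mul_le_mul_of_nonneg_left (Real.exp_le_exp.2 ?_) hP'0.le
          have h5 := hsq _ _ (hnt u _ hu2)
          have h8 : 2 * A0 + 12 + 1 = 2 * A0 + 13 := by ring
          rw [h8] at h5
          linarith)
      have hcnt := HCNT h' (P' * h' ^ n) (iteratedDeriv n F) (by linarith) (by positivity)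
        ((hFd.contDiff (n := ⊤)).differentiable_iteratedDeriv n (by exact_mod_cast WithTop.coe_lt_top _))
        hup hlow
      intro S hS
      classical
      have hinj : Set.InjOn (fun z : ℂ => z - (1 / 2 + (T : ℂ) * I + θ)) (S : Set ℂ) := fun a _ b _ h =>
        sub_left_injective h
      have h1 := hcnt (S.image fun z => z - (1 / 2 + (T : ℂ) * I + θ)) (by
        intro z hz
        rw [Finset.mem_image] at hz
        obtain ⟨s, hs, rfl⟩ := hz
        obtain ⟨s1, s2, s3⟩ := hS s hs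
        have er : (s - (1 / 2 + (T : ℂ) * I + θ)).re = s.re - 1 / 2 - θ := by simp; ring
        have ei : (s - (1 / 2 + (T : ℂ) * I + θ)).im = s.im - T := by simp
        rw [hFi, er, ei]
        simp only [add_sub_cancel]
        refine ⟨s1, by linarith, ?_, s3⟩
        by_contra hcon
        push Not at hcon
        exact hne2 s (by linarith) s1)
      rw [Finset.sum_image hinj] at h1
      refine le_trans (le_of_eq ?_) h1
      refine Finset.sum_congr rfl fun s _ => ?_
      rw [hFi, ord_shift (iter_diff h n) (iter_ne h le_rfl n)]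
      simp
    · intro u hu1 hu2
      have p1 := near h le_rfl T hu1 hu2
      rw [← hQ, ← hK0, hPe] at p1
      have e : f u = X (1 / 2 + (T : ℂ) * I + u) := by rw [hf]
      rw [e]
      refine p1.trans (mul_le_mul_of_nonneg_left (Real.exp_le_exp.2 ?_) hP0.le)
      linarith
    · intro u hu1 hu2
      have p1 := hsm (T + u.im) (by rw [add_sub_cancel_left]; exact hu2)
      have e1 : (1 / 2 + ((T + u.im : ℝ) : ℂ) * I + θ : ℂ) = 1 / 2 + (T : ℂ) * I + u := by
        have : u = (θ : ℂ) + (u.im : ℂ) * I := by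
          rw [← hu1]
          exact (Complex.re_add_im u).symm
        conv_rhs => rw [this]
        push_cast
        ring
      have e : f u = X (1 / 2 + (T : ℂ) * I + u) := by rw [hf]
      rw [e1] at p1
      rw [e]
      refine p1.trans ?_
      have p2 := near h le_rfl T (R := R) (u := 3 + (u.im : ℂ) * I) (by simp) (by simpa using hu2)
      have e2 : (1 / 2 + (T : ℂ) * I + (3 + (u.im : ℂ) * I) : ℂ) =
          7 / 2 + ((T + u.im : ℝ) : ℂ) * I := by
        push_cast
        ring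
      rw [e2, ← hQ, ← hK0] at p2
      obtain ⟨a1, a2⟩ := hc_near h.hN μ (T := T) (T1 := T + u.im) (R := R) (by
        rw [add_sub_cancel_left]; exact hu2)
      rw [← hh'] at a1 a2
      have e3 : (θ + κ) * hc N μ (T + u.im) ≤ (θ + κ) * h' + 2 * (m * R) := by
        have e4 := mul_le_mul_of_nonneg_left a1 (by linarith : 0 ≤ θ + κ)
        have e5 : (θ + κ) * (m * R) ≤ 2 * (m * R) :=
          mul_le_mul_of_nonneg_right (by linarith) (by positivity)
        linarith
      have e6 : κ * h' ≤ κ1 / 2 * h' := mul_le_mul_of_nonneg_right hκκ hh2.le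
      calc _ ≤ Q * Real.exp (K0 * (10 + R ^ 2)) *
            Real.exp (-(3 * (h' - m * R)) + ((θ + κ) * h' + 2 * (m * R))) := by
            have := Real.exp_le_exp.2 (by linarith :
              -(3 * hc N μ (T + u.im)) + (θ + κ) * hc N μ (T + u.im) ≤
                -(3 * (h' - m * R)) + ((θ + κ) * h' + 2 * (m * R)))
            gcongr
        _ = P * Real.exp (K0 * (10 + R ^ 2) + (-(3 * (h' - m * R)) + ((θ + κ) * h' + 2 * (m * R))) +
              3 * h') := by
            rw [← hPe, mul_assoc, ← Real.exp_add]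
        _ ≤ _ := by
            refine mul_le_mul_of_nonneg_left (Real.exp_le_exp.2 ?_) hP0.le
            linarith
    · intro u hu1 hu2
      have p1 := near h le_rfl T (R := R) (u := u) (by rw [hu1]; norm_num) hu2
      rw [← hQ, ← hK0, hPe] at p1
      have e : f u = X (1 / 2 + (T : ℂ) * I + u) := by rw [hf]
      rw [e]
      refine p1.trans (mul_le_mul_of_nonneg_left (Real.exp_le_exp.2 ?_) hP0.le)
      have e7 : 0 < κ1 * h' := by positivity
      have e8 : 0 ≤ 5 * (m * R) := by positivity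
      linarith

end Pool.Agent.TH839.SC
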