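import Pool.Agent.TH839.SC.Cmp
import Pool.Agent.TH839.SC.Sml

/-!
# Project SC: families of L-functions
-/

set_option autoImplicit false

open Complex Filter Topology Set
open scoped ComplexConjugate

namespace Pool.Agent.TH839.SC

open Pool.Agent.W169.HF H353.E Pool.Agent.W355.UN Pool.Agent.TH839.UH Pool.Agent.TH839.UH.EP
open Pool.Agent.TH839.LD
open Pool.Agent.TH839.UH.NF (B0 B0_nonneg)

variable {m r : ℕ} {N : ℝ} {a : Fin m → ℂ} {α : Nat.Primes → Fin m → ℂ} {X : ℂ → ℂ}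

lemma gm_net (h : HW m r N a α X) {c θ : ℝ} (hc0 : 0 < c) (hθ0 : 0 ≤ θ) (hθ1 : θ < 1 / 2)
    (ha : ∀ j, -1 / 2 + c ≤ (a j).re) (T : ℝ) : gm r N a (1 / 2 + (T : ℂ) * I + θ) ≠ 0 := by
  obtain ⟨K, hK, H⟩ := cmpt m c θ hc0 hθ0 hθ1
  obtain ⟨h1, -⟩ := H r N a α X h ha T _ rfl
  intro h0
  rw [h0, norm_zero, mul_zero] at h1
  have h2 : 0 < ‖X (7 / 2 + (T : ℂ) * I)‖ := norm_pos_iff.2 (prf h.ul le_rfl 0 T).1
  have h3 : 0 < ‖X (7 / 2 + (T : ℂ) * I)‖ * Real.exp (-(3 * hc N (fun j => -a j) T) +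
    θ * hc N (fun j => -a j) T) := by positivity
  linarith

/-- few zeros of one derivative give small values -/
theorem fam1t (m : ℕ) (A c θ x0 β ε τ : ℝ) (hA : 1 / 2 ≤ A) (hc0 : 0 < c) (hθ0 : 0 ≤ θ) (hθ1 : θ ≤ 1 / 2)
    (hx0 : 0 < x0) (hx1 : x0 ≤ 1 / 2) (hβ : 0 ≤ β) (hε : 0 < ε) (hτ0 : 0 ≤ τ) (hτ1 : τ < 1 / 2) :
    ∃ κ W X0 : ℝ, 0 < κ ∧ ∀ (r : ℕ) (N : ℝ) (a : Fin m → ℂ)
      (α : Nat.Primes → Fin m → ℂ) (X : ℂ → ℂ), HW m r N a α X → (∀ j, (a j).re ≤ A) →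
      (∀ j, -1 / 2 + c ≤ (a j).re) → ∀ (T : ℝ) (n : ℕ), (n = 0 ∨ ∃ σ : ℝ, Side A a σ T) →
        X0 ≤ cd N a T →
        n * Real.log (Real.log (cd N a T)) ≤ (β + κ) * Real.log (cd N a T) →
        (∀ T' : ℝ, |T' - T| ≤ W * Real.log (cd N a T) →
          Few X n (θ + x0 / 4) T' (κ * Real.log (cd N a T))) →
          ‖X (1 / 2 + (T : ℂ) * I + τ) / gm r N a (1 / 2 + (T : ℂ) * I + τ)‖ ≤
            cd N a T ^ ((max τ (θ + x0) - τ) / 2 + β + ε) := by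
  have hB := B0_nonneg
  obtain ⟨Dc, HD⟩ := decT m A (by linarith)
  obtain ⟨κ, W, h0, hκ, H⟩ := fewsmallt m (4 * B0 + 2) (by linarith) Dc θ x0 (2 * β) ε hθ0 hθ1 hx0 hx1
    (by linarith) hε
  obtain ⟨K, hK, HK⟩ := cmpt m c τ hc0 hτ0 hτ1
  have E : ∀ C k : ℝ, 0 < k → ∀ᶠ h : ℝ in atTop, C ≤ k * h := fun C k hk =>
    (tendsto_id.const_mul_atTop hk).eventually_ge_atTop C
  obtain ⟨y0, hy0⟩ := eventually_atTop.1 (Real.tendsto_log_atTop.eventually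
    ((E 2 1 one_pos).and ((E (2 * h0) 1 one_pos).and (E (Real.log K) (ε / 2) (by positivity)))))
  refine ⟨κ / 2, W / 2, max y0 1, by positivity, ?_⟩
  intro r N a α X h hAa ha T n hside hX0 hn hfew
  obtain ⟨l, hl⟩ : ∃ l : ℝ, l = Real.log (cd N a T) := ⟨_, rfl⟩
  have hcd := hc_cd N a T
  obtain ⟨b1, b2, b3⟩ := hy0 _ ((le_max_left _ _).trans hX0)
  rw [← hl] at hcd b1 b2 b3 hn hfew
  rw [one_mul] at b1 b2
  have hl0 : 0 < l := by linarith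
  have hn0 : (0 : ℝ) ≤ n := Nat.cast_nonneg n
  have R := H _ N (fun j => -a j) X _ h.ul rfl n T
    (hside.imp id fun ⟨σ, hσ⟩ => ⟨σ, HD r N a α X σ T h (fun j => abs_le.2 ⟨by linarith [ha j], hAa j⟩) hσ⟩)
    (by rw [hcd]; linarith) ?_ ?_ τ (by rw [ofReal_re, abs_of_nonneg hτ0]; linarith) (by simp)
  · obtain ⟨hk, -⟩ := HK r N a α X h ha T _ rfl
    rw [norm_div]
    obtain ⟨g, hg⟩ : ∃ g : ℝ, g = ‖gm r N a (1 / 2 + (T : ℂ) * I + τ)‖ := ⟨_, rfl⟩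
    have hgp : 0 < g := by rw [hg]; exact norm_pos_iff.2 (gm_net h hc0 hτ0 hτ1 ha T)
    rw [← hg] at hk
    rw [← hg, div_le_iff₀ hgp]
    rw [ofReal_re, abs_of_nonneg hτ0, hcd] at R
    rw [hcd] at hk
    have hcp : 0 < cd N a T := lt_of_lt_of_le one_pos (one_le_cd h.hN a T)
    have e1 : ∀ x : ℝ, cd N a T ^ x = Real.exp (x * l) := by
      intro x
      rw [Real.rpow_def_of_pos hcp, ← hl, mul_comm]
    rw [e1]
    have hKl : K ≤ Real.exp (ε / 2 * l) := by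
      rw [← Real.log_le_iff_le_exp hK]
      exact b3
    obtain ⟨M, hM⟩ : ∃ M : ℝ, M = max τ (θ + x0) := ⟨_, rfl⟩
    rw [← hM] at R ⊢
    calc _ ≤ _ := R
      _ = (‖X (7 / 2 + (T : ℂ) * I)‖ * Real.exp (-(3 * (l / 2)) + τ * (l / 2))) *
          Real.exp ((M - τ + 2 * β + ε) * (l / 2)) := by
          rw [mul_assoc, ← Real.exp_add]
          congr 2
          ring
      _ ≤ (Real.exp (ε / 2 * l) * g) * Real.exp ((M - τ + 2 * β + ε) * (l / 2)) := by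
          refine mul_le_mul_of_nonneg_right (hk.trans ?_) (Real.exp_pos _).le
          exact mul_le_mul_of_nonneg_right hKl hgp.le
      _ = Real.exp (ε / 2 * l + (M - τ + 2 * β + ε) * (l / 2)) * g := by
          rw [Real.exp_add]
          ring
      _ = _ := by
          congr 2
          ring
  · rw [hcd]
    have h1 : Real.log (l / 2) ≤ Real.log l := Real.log_le_log (by linarith) (by linarith)
    calc (n : ℝ) * Real.log (l / 2) ≤ n * Real.log l := mul_le_mul_of_nonneg_left h1 hn0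
      _ ≤ _ := hn
      _ = _ := by ring
  · rw [hcd]
    intro T' hT'
    refine (hfew T' (hT'.trans (le_of_eq (by ring)))).mono le_rfl (le_of_eq (by ring))

/-- small values give few zeros -/
theorem fam2t (m : ℕ) (c θ ε δ : ℝ) (hc0 : 0 < c) (hθ0 : 0 ≤ θ) (hθ1 : θ < 1 / 2) (hε : 0 < ε)
    (hδ : 0 < δ) :
    ∃ κ W X0 : ℝ, 0 < κ ∧ ∀ (r : ℕ) (N : ℝ) (a : Fin m → ℂ)
      (α : Nat.Primes → Fin m → ℂ) (X : ℂ → ℂ), HW m r N a α X →
      (∀ j, -1 / 2 + c ≤ (a j).re) → ∀ T : ℝ, X0 ≤ cd N a T →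
        (∀ T' : ℝ, |T' - T| ≤ W →
          ‖X (1 / 2 + (T' : ℂ) * I + θ) / gm r N a (1 / 2 + (T' : ℂ) * I + θ)‖ ≤ cd N a T ^ κ) →
        ∀ n : ℕ, Few X n (θ + δ) T (ε * Real.log (cd N a T)) := by
  have hB := B0_nonneg
  obtain ⟨κ, W', h0, hκ, H⟩ := smallfewt m (fun _ => 4 * B0 + 2) (by linarith) θ (min δ 1) (2 * ε)
    hθ0 hθ1.le (by positivity) (min_le_right _ _) (by positivity)
  obtain ⟨W, hW⟩ : ∃ W : ℝ, W = max W' 0 := ⟨_, rfl⟩
  have hWW : W' ≤ W := by rw [hW]; exact le_max_left _ _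
  have hW0 : 0 ≤ W := by rw [hW]; exact le_max_right _ _
  obtain ⟨K, hK, HK⟩ := cmpt m c θ hc0 hθ0 hθ1
  have hm0 : (0 : ℝ) ≤ m := Nat.cast_nonneg m
  have E : ∀ C k : ℝ, 0 < k → ∀ᶠ h : ℝ in atTop, C ≤ k * h := fun C k hk =>
    (tendsto_id.const_mul_atTop hk).eventually_ge_atTop C
  obtain ⟨x0, hx0⟩ := eventually_atTop.1 (Real.tendsto_log_atTop.eventually
    ((E (2 * h0) 1 one_pos).and (E (Real.log K + κ * (m * W)) (κ / 4) (by positivity))))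
  refine ⟨κ / 4, W, x0, by positivity, ?_⟩
  intro r N a α X h ha T hX0 hsm n
  obtain ⟨l, hl⟩ : ∃ l : ℝ, l = Real.log (cd N a T) := ⟨_, rfl⟩
  have hcd := hc_cd N a T
  obtain ⟨b1, b2⟩ := hx0 _ hX0
  rw [← hl] at hcd b1 b2 ⊢
  rw [one_mul] at b1
  have hcp : 0 < cd N a T := lt_of_lt_of_le one_pos (one_le_cd h.hN a T)
  have hl0 : 0 ≤ l := by rw [hl]; exact Real.log_nonneg (one_le_cd h.hN a T)
  have R := H N (fun j => -a j) X _ h.ul T (by rw [hcd]; linarith) ?_ n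
  · rw [hcd] at R
    exact R.mono (by linarith [min_le_left δ 1]) (le_of_eq (by ring))
  · intro T' hT'
    obtain ⟨-, hk⟩ := HK r N a α X h ha T' _ rfl
    have hs := hsm T' (hT'.trans hWW)
    have hgp : 0 < ‖gm r N a (1 / 2 + (T' : ℂ) * I + θ)‖ := norm_pos_iff.2 (gm_net h hc0 hθ0 hθ1 ha T')
    rw [norm_div, div_le_iff₀ hgp] at hs
    have e1 : cd N a T ^ (κ / 4) = Real.exp (κ / 4 * l) := by
      rw [Real.rpow_def_of_pos hcp, ← hl, mul_comm]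
    rw [e1] at hs
    have hnr := (hc_near h.hN (fun j => -a j) (T := T) (T1 := T') (R := W) (hT'.trans hWW)).2
    rw [hcd] at hnr
    obtain ⟨h1, hh1⟩ : ∃ h1 : ℝ, h1 = hc N (fun j => -a j) T' := ⟨_, rfl⟩
    rw [← hh1] at hnr hk ⊢
    calc ‖X (1 / 2 + (T' : ℂ) * I + θ)‖ ≤ Real.exp (κ / 4 * l) *
          ‖gm r N a (1 / 2 + (T' : ℂ) * I + θ)‖ := hs
      _ ≤ Real.exp (κ / 4 * l) * (Real.exp (Real.log K) *
          (‖X (7 / 2 + (T' : ℂ) * I)‖ * Real.exp (-(3 * h1) + θ * h1))) := by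
          rw [Real.exp_log hK]
          exact mul_le_mul_of_nonneg_left hk (Real.exp_pos _).le
      _ = ‖X (7 / 2 + (T' : ℂ) * I)‖ *
          Real.exp (κ / 4 * l + Real.log K + (-(3 * h1) + θ * h1)) := by
          rw [Real.exp_add (κ / 4 * l + Real.log K), Real.exp_add (κ / 4 * l)]
          ring
      _ ≤ _ := by
          refine mul_le_mul_of_nonneg_left (Real.exp_le_exp.2 ?_) (norm_nonneg _)
          have h2 := mul_le_mul_of_nonneg_left hnr hκ.le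
          have h3 : κ * (l / 2 - m * W) = κ / 4 * l + κ / 4 * l - κ * (m * W) := by ring
          have h4 : (θ + κ) * h1 = θ * h1 + κ * h1 := by ring
          linarith

/-- a trivial bound -/
theorem trivt (m : ℕ) (c θ : ℝ) (hc0 : 0 < c) (hθ0 : 0 ≤ θ) (hθ1 : θ < 1 / 2) :
    ∃ K : ℝ, 0 < K ∧ ∀ (r : ℕ) (N : ℝ) (a : Fin m → ℂ)
    (α : Nat.Primes → Fin m → ℂ) (X : ℂ → ℂ), HW m r N a α X → (∀ j, -1 / 2 + c ≤ (a j).re) →
      ∀ T : ℝ, ‖X (1 / 2 + (T : ℂ) * I + θ) / gm r N a (1 / 2 + (T : ℂ) * I + θ)‖ ≤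
        K * Real.exp (3 / 2 * Real.log (cd N a T)) := by
  obtain ⟨K, hK, HK⟩ := cmpt m c θ hc0 hθ0 hθ1
  refine ⟨K * Real.exp (Kn m (4 * B0 + 2) 0 * (10 + 0 ^ 2)), by positivity, ?_⟩
  intro r N a α X h ha T
  obtain ⟨hk, -⟩ := HK r N a α X h ha T _ rfl
  have hgp : 0 < ‖gm r N a (1 / 2 + (T : ℂ) * I + θ)‖ := norm_pos_iff.2 (gm_net h hc0 hθ0 hθ1 ha T)
  have h1 := near h.ul le_rfl T (R := 0) (u := θ) (by rw [ofReal_re, abs_of_nonneg hθ0]; linarith)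
    (by simp)
  obtain ⟨g, hg⟩ : ∃ g : ℝ, g = ‖gm r N a (1 / 2 + (T : ℂ) * I + θ)‖ := ⟨_, rfl⟩
  rw [← hg] at hk
  rw [norm_div, ← hg, div_le_iff₀ (by rw [hg]; exact hgp)]
  have hh0 : 0 ≤ hc N (fun j => -a j) T := hc_nonneg h.hN _ T
  have hg0 : 0 < g := by rw [hg]; exact hgp
  have e1 : ‖X (7 / 2 + (T : ℂ) * I)‖ ≤ K * g * Real.exp (3 * hc N (fun j => -a j) T) := by
    have e2 : ‖X (7 / 2 + (T : ℂ) * I)‖ = (‖X (7 / 2 + (T : ℂ) * I)‖ *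
      Real.exp (-(3 * hc N (fun j => -a j) T) + θ * hc N (fun j => -a j) T)) *
        Real.exp (3 * hc N (fun j => -a j) T - θ * hc N (fun j => -a j) T) := by
      rw [mul_assoc, ← Real.exp_add]
      have : -(3 * hc N (fun j => -a j) T) + θ * hc N (fun j => -a j) T +
        (3 * hc N (fun j => -a j) T - θ * hc N (fun j => -a j) T) = 0 := by ring
      rw [this, Real.exp_zero, mul_one]
    rw [e2]
    have e3 : 0 ≤ θ * hc N (fun j => -a j) T := mul_nonneg hθ0 hh0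
    have e4 : Real.exp (3 * hc N (fun j => -a j) T - θ * hc N (fun j => -a j) T) ≤
      Real.exp (3 * hc N (fun j => -a j) T) := Real.exp_le_exp.2 (by linarith)
    exact mul_le_mul hk e4 (Real.exp_pos _).le (by positivity)
  have e2 : 3 * hc N (fun j => -a j) T = 3 / 2 * Real.log (cd N a T) := by
    rw [hc_cd]
    ring
  calc _ ≤ _ := h1
    _ ≤ (K * g * Real.exp (3 * hc N (fun j => -a j) T)) *
        Real.exp (Kn m (4 * B0 + 2) 0 * (10 + 0 ^ 2)) :=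
        mul_le_mul_of_nonneg_right e1 (Real.exp_pos _).le
    _ = _ := by
        rw [e2]
        ring

end Pool.Agent.TH839.SC
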