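import Pool.Agent.TH839.SC.Many4
import Pool.Agent.TH839.SC.Cmp2
import Pool.Agent.TH839.SC.Fam

/-!
# Project SC: families, many zeros near the critical line
-/

set_option autoImplicit false

open Complex Filter Topology Set
open scoped ComplexConjugate

namespace Pool.Agent.TH839.SC

open Pool.Agent.W169.HF H353.E Pool.Agent.W355.UN Pool.Agent.TH839.UH Pool.Agent.TH839.UH.EP
open Pool.Agent.TH839.LD
open Pool.Agent.TH839.UH.NF (B0 B0_nonneg)

variable {ι : Type}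

/-- a bound to the right of the critical strip -/
def Rb (L : ι → ℂ → ℂ) (C : ι → ℝ → ℝ) : Prop := ∀ a1 : ℝ, 1 / 2 < a1 → a1 ≤ 1 → ∀ κ : ℝ, 0 < κ →
  ∃ K : ℝ, ∀ (i : ι) (T : ℝ), ‖L i (1 / 2 + (T : ℂ) * I + (a1 : ℂ))‖ ≤ K * C i T ^ κ

/-- many zeros of one derivative near the critical line give small values -/
theorem famM (m : ℕ) (A c r c1 β ε : ℝ) (hA : 1 / 2 ≤ A) (hc0 : 0 < c) (hr0 : 0 < r) (hr1 : r < 1 / 2)
    (hc1 : 0 < c1) (hβ : 0 ≤ β) (hε : 0 < ε)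
    (e : ι → ℕ) (N : ι → ℝ)
    (a : ι → Fin m → ℂ) (α : ι → Nat.Primes → Fin m → ℂ) (X : ι → ℂ → ℂ)
    (h : ∀ i, HW m (e i) (N i) (a i) (α i) (X i)) (hAa : ∀ i j, (a i j).re ≤ A)
    (ha : ∀ i j, -1 / 2 + c ≤ (a i j).re)
    (hR : Rb (fun i s => X i s / gm (e i) (N i) (a i) s) (fun i => cd (N i) (a i))) :
    ∃ κ W X0 : ℝ, 0 < κ ∧ ∀ (i : ι) (T : ℝ) (n : ℕ), (n = 0 ∨ ∃ σ : ℝ, Side A (a i) σ T) →
      X0 ≤ cd (N i) (a i) T →
      n * Real.log (Real.log (cd (N i) (a i) T)) ≤ (β + κ) * Real.log (cd (N i) (a i) T) →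
      (∀ T' : ℝ, |T' - T| ≤ W * Real.log (cd (N i) (a i) T) →
        Many (X i) n r T' ((c1 - κ) * Real.log (cd (N i) (a i) T'))) →
      ‖X i (1 / 2 + (T : ℂ) * I) / gm (e i) (N i) (a i) (1 / 2 + (T : ℂ) * I)‖ ≤
        cd (N i) (a i) T ^ (max 0 (1 / 2 - Real.pi * c1 * Real.log (1 / (2 * r))) / 2 + β + ε) := by
  have hB := B0_nonneg
  have hm0 : (0 : ℝ) ≤ m := Nat.cast_nonneg m
  obtain ⟨Dc, HD⟩ := decT m A (by linarith)
  obtain ⟨a1, κ, W', h0, ha1, ha1', hκ, H⟩ := manysmall m (4 * B0 + 2) (by linarith) Dc r c1 (2 * β) ε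
    hr0 hr1 hc1 (by linarith) hε
  obtain ⟨W, hW⟩ : ∃ W : ℝ, W = max W' 0 := ⟨_, rfl⟩
  have hWW : W' ≤ W := by rw [hW]; exact le_max_left _ _
  have hW0 : 0 ≤ W := by rw [hW]; exact le_max_right _ _
  obtain ⟨h1, H1⟩ := hc_win m W hW0
  obtain ⟨K, hK, HK⟩ := cmp m c hc0
  obtain ⟨K2, hK2, HK2⟩ := cmpt2 m c a1 hc0 (by linarith) (by linarith) (by linarith)
  obtain ⟨K3, HK3⟩ := hR a1 ha1 (by linarith) (κ / 4) (by positivity)
  obtain ⟨K4, hK4⟩ : ∃ K4 : ℝ, K4 = max K3 1 := ⟨_, rfl⟩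
  have hK41 : 1 ≤ K4 := by rw [hK4]; exact le_max_right _ _
  have hK43 : K3 ≤ K4 := by rw [hK4]; exact le_max_left _ _
  have E : ∀ C k : ℝ, 0 < k → ∀ᶠ h : ℝ in atTop, C ≤ k * h := fun C k hk =>
    (tendsto_id.const_mul_atTop hk).eventually_ge_atTop C
  obtain ⟨y0, hy0⟩ := eventually_atTop.1 (Real.tendsto_log_atTop.eventually
    ((E 2 1 one_pos).and ((E (2 * h0) 1 one_pos).and ((E (2 * h1) 1 one_pos).and
    ((E (Real.log K) (ε / 2) (by positivity)).and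
    (E (Real.log (K4 * K2)) (κ / 8) (by positivity)))))))
  refine ⟨κ / 2, W / 2, max y0 1, by positivity, ?_⟩
  intro i T n hside hX0 hn hmany
  obtain ⟨l, hl⟩ : ∃ l : ℝ, l = Real.log (cd (N i) (a i) T) := ⟨_, rfl⟩
  have hcd := hc_cd (N i) (a i) T
  obtain ⟨b1, b2, b3, b4, b5⟩ := hy0 _ ((le_max_left _ _).trans hX0)
  rw [← hl] at hcd b1 b2 b3 b4 b5 hn hmany
  rw [one_mul] at b1 b2 b3
  have hl0 : 0 < l := by linarith
  have hn0 : (0 : ℝ) ≤ n := Nat.cast_nonneg n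
  have hwin := fun T' => H1 (N i) (fun j => -a i j) T T' (h i).hN (by rw [hcd]; linarith)
  rw [hcd] at hwin
  have hTW : ∀ T' : ℝ, |T' - T| ≤ W' * (l / 2) → |T' - T| ≤ W * (l / 2) := fun T' hT' =>
    hT'.trans (mul_le_mul_of_nonneg_right hWW (by linarith))
  have R := H _ (N i) (fun j => -a i j) (X i) _ (h i).ul rfl n T
    (hside.imp id fun ⟨σ, hσ⟩ => ⟨σ, HD (e i) (N i) (a i) (α i) (X i) σ T (h i)
      (fun j => abs_le.2 ⟨by linarith [ha i j], hAa i j⟩) hσ⟩)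
    (by rw [hcd]; linarith) ?_ ?_ ?_
  · obtain ⟨hk, -⟩ := HK (e i) (N i) (a i) (α i) (X i) (h i) (ha i) T _ rfl
    rw [norm_div]
    obtain ⟨g, hg⟩ : ∃ g : ℝ, g = ‖gm (e i) (N i) (a i) (1 / 2 + (T : ℂ) * I)‖ := ⟨_, rfl⟩
    have hgp : 0 < g := by rw [hg]; exact norm_pos_iff.2 (gm_ne (h i) hc0 (ha i) T)
    have hk' : ‖X i (7 / 2 + (T : ℂ) * I)‖ * Real.exp (-(3 * (l / 2))) ≤ K * g := by
      rw [hg, ← hcd]
      exact hk
    rw [← hg, div_le_iff₀ hgp]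
    rw [hcd] at R
    have hcp : 0 < cd (N i) (a i) T := lt_of_lt_of_le one_pos (one_le_cd (h i).hN (a i) T)
    have e1 : ∀ x : ℝ, cd (N i) (a i) T ^ x = Real.exp (x * l) := by
      intro x
      rw [Real.rpow_def_of_pos hcp, ← hl, mul_comm]
    rw [e1]
    have hKl : K ≤ Real.exp (ε / 2 * l) := by
      rw [← Real.log_le_iff_le_exp hK]
      exact b4
    obtain ⟨M, hM⟩ : ∃ M : ℝ, M = max 0 (1 / 2 - Real.pi * c1 * Real.log (1 / (2 * r))) := ⟨_, rfl⟩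
    rw [← hM] at R ⊢
    calc _ ≤ _ := R
      _ = (‖X i (7 / 2 + (T : ℂ) * I)‖ * Real.exp (-(3 * (l / 2)))) *
          Real.exp ((M + 2 * β + ε) * (l / 2)) := by
          rw [mul_assoc, ← Real.exp_add]
      _ ≤ (Real.exp (ε / 2 * l) * g) * Real.exp ((M + 2 * β + ε) * (l / 2)) := by
          refine mul_le_mul_of_nonneg_right (hk'.trans ?_) (Real.exp_pos _).le
          exact mul_le_mul_of_nonneg_right hKl hgp.le
      _ = Real.exp (ε / 2 * l + (M + 2 * β + ε) * (l / 2)) * g := by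
          rw [Real.exp_add]
          ring
      _ = _ := by
          congr 2
          ring
  · rw [hcd]
    have h1 : Real.log (l / 2) ≤ Real.log l := Real.log_le_log (by linarith) (by linarith)
    calc (n : ℝ) * Real.log (l / 2) ≤ n * Real.log l := mul_le_mul_of_nonneg_left h1 hn0
      _ ≤ _ := hn
      _ = _ := by ring
  · rw [hcd]
    intro T' hT'
    obtain ⟨w1, w2⟩ := hwin T' (hTW T' hT')
    obtain ⟨-, hk⟩ := HK2 (e i) (N i) (a i) (α i) (X i) (h i) (ha i) T' _ rfl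
    have hs := HK3 i T'
    have hcp : 0 < cd (N i) (a i) T' := lt_of_lt_of_le one_pos (one_le_cd (h i).hN (a i) T')
    have hcd' := hc_cd (N i) (a i) T'
    obtain ⟨g, hg⟩ : ∃ g : ℝ, g = hc (N i) (fun j => -a i j) T' := ⟨_, rfl⟩
    rw [← hg] at w1 w2 hk hcd' ⊢
    have hrp : cd (N i) (a i) T' ^ (κ / 4) = Real.exp (κ / 2 * g) := by
      rw [Real.rpow_def_of_pos hcp, hcd']
      congr 1
      ring
    rw [hrp] at hs
    obtain ⟨Q, hQ⟩ : ∃ Q : ℝ, Q = ‖X i (7 / 2 + (T' : ℂ) * I)‖ := ⟨_, rfl⟩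
    have hQ0 : 0 < Q := by rw [hQ]; exact norm_pos_iff.2 (prf (h i).ul le_rfl 0 T').1
    rw [← hQ] at hk ⊢
    have hgm0 : gm (e i) (N i) (a i) (1 / 2 + (T' : ℂ) * I + a1) ≠ 0 := by
      intro hz
      obtain ⟨hk2, -⟩ := HK2 (e i) (N i) (a i) (α i) (X i) (h i) (ha i) T' _ rfl
      rw [hz, norm_zero, mul_zero, ← hQ] at hk2
      have := mul_pos hQ0 (Real.exp_pos (-(3 * hc (N i) (fun j => -a i j) T') +
        a1 * hc (N i) (fun j => -a i j) T'))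
      linarith
    have hgp : 0 < ‖gm (e i) (N i) (a i) (1 / 2 + (T' : ℂ) * I + a1)‖ := norm_pos_iff.2 hgm0
    rw [norm_div, div_le_iff₀ hgp] at hs
    have hKe : K4 * K2 ≤ Real.exp (κ / 2 * g) := by
      rw [← Real.log_le_iff_le_exp (by positivity)]
      have : κ / 8 * l ≤ κ / 2 * g := by
        have h5 : l / 4 ≤ g := by linarith
        have h6 := mul_le_mul_of_nonneg_left h5 (by positivity : 0 ≤ κ / 2)
        linarith
      linarith
    calc ‖X i (1 / 2 + (T' : ℂ) * I + a1)‖ ≤ K3 * Real.exp (κ / 2 * g) *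
          ‖gm (e i) (N i) (a i) (1 / 2 + (T' : ℂ) * I + a1)‖ := hs
      _ ≤ K4 * Real.exp (κ / 2 * g) * (K2 * (Q * Real.exp (-(3 * g) + a1 * g))) := by gcongr
      _ = (K4 * K2) * Real.exp (κ / 2 * g) * (Q * Real.exp (-(3 * g) + a1 * g)) := by ring
      _ ≤ Real.exp (κ / 2 * g) * Real.exp (κ / 2 * g) * (Q * Real.exp (-(3 * g) + a1 * g)) := by gcongr
      _ = Q * Real.exp (-(3 * g) + (a1 + κ) * g) := by
          have e2 : Real.exp (-(3 * g) + (a1 + κ) * g) = Real.exp (κ / 2 * g) * Real.exp (κ / 2 * g) *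
            Real.exp (-(3 * g) + a1 * g) := by
            rw [← Real.exp_add, ← Real.exp_add]
            congr 1
            ring
          rw [e2]
          ring
  · rw [hcd]
    intro T' hT'
    refine (hmany T' ((hTW T' hT').trans (le_of_eq (by ring)))).mono (le_of_eq ?_)
    rw [hc_cd]
    ring

end Pool.Agent.TH839.SC
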