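import Pool.Agent.TH839.ZT.Pathk

/-!
# Project SC: few zeros to the right of the line `Re s = 1/2 + θ` give a bound for the `n`-th derivative
-/

set_option autoImplicit false

open Complex MeasureTheory Filter Topology Set
open scoped ComplexConjugate

namespace Pool.Agent.TH839.SC

open Pool.Agent.W169.HF H353.E Pool.Agent.W355.UN Pool.Agent.TH839.UH Pool.Agent.TH839.LD

/-- few zeros near `1/2 + θ + iy` give a bound for the `n`-th derivative -/
theorem fewbt (x0 κ : ℝ) (hx0 : 0 < x0) (hx1 : x0 ≤ 1 / 2) (hκ : 0 < κ) : ∃ κ1 : ℝ, 0 < κ1 ∧ κ1 ≤ 1 ∧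
    ∀ (θ : ℝ), 0 ≤ θ → θ ≤ 1 / 2 →
    ∀ (m : ℕ) (B : ℝ → ℝ) (N : ℝ) (μ : Fin m → ℂ) (X L : ℂ → ℂ), UL m B N 1 μ X L →
      ∀ (n : ℕ) (y : ℝ), 1 ≤ hc N μ y → 442 * Kn m (B 1) n ≤ κ1 * hc N μ y →
        (∀ T' : ℝ, |T' - y| ≤ 20 → Few X n (θ + x0 / 4) T' (κ1 / 21 * hc N μ y)) →
        ‖iteratedDeriv n X (1 / 2 + (y : ℂ) * I + ((θ + x0 : ℝ) : ℂ))‖ ≤
          ‖iteratedDeriv n X (7 / 2 + (y : ℂ) * I)‖ *
          Real.exp (hc N μ y * (θ + x0 - 3) + κ * hc N μ y) := by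
  obtain ⟨κ1, hκ1, hκ2, H⟩ := bl x0 κ hx0 hx1 hκ
  refine ⟨κ1, hκ1, hκ2, ?_⟩
  intro θ hθ0 hθ1 m B N μ X L h n y hh hK hfew
  obtain ⟨Q, hQ⟩ : ∃ Q : ℝ, Q = ‖iteratedDeriv n X (7 / 2 + (y : ℂ) * I)‖ := ⟨_, rfl⟩
  obtain ⟨e, he⟩ : ∃ e : ℝ, e = hc N μ y := ⟨_, rfl⟩
  obtain ⟨-, hne, hup, hlo⟩ := prf h le_rfl n y
  have hQ0 : 0 < Q := by rw [hQ]; exact norm_pos_iff.2 hne
  rw [← hQ, ← he] at hup hlo ⊢
  rw [← he] at hh hK hfew
  have hKn := Kn_nonneg (m := m) (h.hB 1) n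
  have hd := iter_diff h n
  have hnt : ∀ u : ℂ, ‖u‖ ≤ 20 → ‖(θ : ℂ) + u‖ ≤ 21 := by
    intro u hu
    refine (norm_add_le _ _).trans ?_
    rw [Complex.norm_real, Real.norm_eq_abs, abs_of_nonneg hθ0]
    linarith
  have hkk : ∀ u : ℂ, ‖u‖ ≤ 20 → Kn m (B 1) n * (1 + ‖(θ : ℂ) + u‖ ^ 2) ≤ κ1 * e := by
    intro u hu
    have h1 : ‖(θ : ℂ) + u‖ ^ 2 ≤ 21 ^ 2 := pow_le_pow_left₀ (norm_nonneg _) (hnt u hu) 2
    have h2 : Kn m (B 1) n * (1 + ‖(θ : ℂ) + u‖ ^ 2) ≤ Kn m (B 1) n * 442 :=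
      mul_le_mul_of_nonneg_left (by linarith) hKn
    linarith
  have hre : ∀ u : ℂ, ((θ : ℂ) + u).re = θ + u.re := fun u => by simp
  have he0 : 0 < e := by linarith
  have R := H e (Q * Real.exp (-(3 * e) + θ * e))
    (fun u => iteratedDeriv n X (1 / 2 + (y : ℂ) * I + (θ + u))) hh
    (by positivity) (hd.comp (by fun_prop)) ?_ ?_ ?_ x0 le_rfl (by linarith)
  · have e1 : (((θ + x0 : ℝ) : ℂ)) = (θ : ℂ) + (x0 : ℂ) := by push_cast; rfl
    rw [e1]
    refine R.trans (le_of_eq ?_)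
    rw [mul_assoc, ← Real.exp_add]
    congr 2
    ring
  · intro u hu hu2
    refine (hup (θ + u)).trans ?_
    rw [mul_assoc, ← Real.exp_add, hre, abs_of_nonneg (by linarith)]
    refine mul_le_mul_of_nonneg_left (Real.exp_le_exp.2 ?_) hQ0.le
    have h1 := hkk u hu2
    have h2 : max (θ + u.re) 3 ≤ θ + max u.re 3 := by
      apply max_le
      · linarith [le_max_left u.re 3]
      · linarith [le_max_right u.re 3]
    have h3 : e * (max (θ + u.re) 3 - 3) ≤ e * (θ + max u.re 3 - 3) :=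
      mul_le_mul_of_nonneg_left (by linarith) he0.le
    have h4 : e * (θ + max u.re 3 - 3) = -(3 * e) + θ * e + e * max u.re 3 := by ring
    linarith
  · intro u hu hu2
    refine le_trans ?_ (hlo (θ + u) (by rw [hre]; linarith))
    rw [mul_assoc, ← Real.exp_add, hre]
    refine mul_le_mul_of_nonneg_left (Real.exp_le_exp.2 ?_) hQ0.le
    have := hkk u hu2
    linarith
  · intro S hS
    classical
    have hinj : Set.InjOn (fun z : ℂ => 1 / 2 + (y : ℂ) * I + (θ + z)) (S : Set ℂ) := fun a _ b _ h =>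
      add_left_cancel (add_left_cancel h)
    have h1 := few_win hfew (S.image fun z => 1 / 2 + (y : ℂ) * I + (θ + z)) (by
      intro s hs
      rw [Finset.mem_image] at hs
      obtain ⟨z, hz, rfl⟩ := hs
      obtain ⟨z1, z2, z3⟩ := hS z hz
      refine ⟨z1, ?_, ?_⟩
      · simp
        linarith
      · have e1 : (1 / 2 + (y : ℂ) * I + (θ + z)).im - y = z.im := by simp
        rw [e1]
        exact (Complex.abs_im_le_norm z).trans z3)
    rw [Finset.sum_image hinj] at h1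
    calc _ = ∑ z ∈ S, (analyticOrderNatAt (iteratedDeriv n X) (1 / 2 + (y : ℂ) * I + (θ + z)) : ℝ) := by
          refine Finset.sum_congr rfl fun z _ => ?_
          have e2 : (fun u => iteratedDeriv n X (1 / 2 + (y : ℂ) * I + (θ + u))) =
              fun u => iteratedDeriv n X ((1 / 2 + (y : ℂ) * I + θ) + u) := by
            funext u
            rw [← add_assoc]
          rw [e2, ord_shift hd (iter_ne h le_rfl n), add_assoc]
      _ ≤ _ := h1
      _ = κ1 * e := by ring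

end Pool.Agent.TH839.SC
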