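import Pool.Agent.TH839.SC.Tr
import Pool.Agent.TH839.LD.Eqv

/-!
# Project SC: few zeros of one derivative to the right of `Re s = 1/2 + θ` bound the function
-/

set_option autoImplicit false

open Complex MeasureTheory Filter Topology Set
open scoped ComplexConjugate

namespace Pool.Agent.TH839.SC

open Pool.Agent.W169.HF H353.E Pool.Agent.W355.UN Pool.Agent.TH839.UH Pool.Agent.TH839.LD

variable {m : ℕ} {B : ℝ → ℝ} {N θ : ℝ} {μ : Fin m → ℂ} {X L : ℂ → ℂ}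

/-- the conductor does not change much in a logarithmic window -/
lemma hc_win (m : ℕ) (W : ℝ) (hW : 0 ≤ W) : ∃ h0 : ℝ, ∀ (N : ℝ) (μ : Fin m → ℂ) (T T' : ℝ), 1 ≤ N →
    h0 ≤ hc N μ T → |T' - T| ≤ W * hc N μ T →
      hc N μ T / 2 ≤ hc N μ T' ∧ hc N μ T' ≤ 2 * hc N μ T := by
  have hm0 : (0 : ℝ) ≤ m := Nat.cast_nonneg m
  obtain ⟨C, hC⟩ := log_small hm0 hW
  refine ⟨max 1 (4 * |C|), fun N μ T T' hN h0 hT => ?_⟩
  have h1 : 1 ≤ hc N μ T := (le_max_left _ _).trans h0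
  have h2 : 4 * |C| ≤ hc N μ T := (le_max_right _ _).trans h0
  have h3 := hC (hc N μ T) (by linarith)
  have h4 := le_abs_self C
  have h5 : Real.log (1 + |T' - T|) ≤ Real.log (1 + W * hc N μ T) :=
    Real.log_le_log (by positivity) (by linarith)
  have h6 : (m : ℝ) / 2 * Real.log (1 + |T' - T|) ≤ m / 2 * Real.log (1 + W * hc N μ T) := by gcongr
  have h7 := hc_shift hN μ T (T' - T)
  have h8 := hc_shift hN μ T' (T - T')
  rw [add_sub_cancel] at h7 h8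
  rw [abs_sub_comm] at h8
  constructor <;> linarith

/-- few zeros of one derivative give bounds for the function -/
theorem fewsmallt (m : ℕ) (b : ℝ) (hb : 0 ≤ b) (Dc : ℝ → ℝ) (θ x0 α ε : ℝ) (hθ0 : 0 ≤ θ) (hθ1 : θ ≤ 1 / 2)
    (hx0 : 0 < x0) (hx1 : x0 ≤ 1 / 2) (hα : 0 ≤ α) (hε : 0 < ε) :
    ∃ κ W h0 : ℝ, 0 < κ ∧ ∀ (B : ℝ → ℝ) (N : ℝ) (μ : Fin m → ℂ) (X L : ℂ → ℂ),
      UL m B N 1 μ X L → B 1 = b → ∀ (n : ℕ) (T : ℝ), (n = 0 ∨ ∃ σ : ℝ, DecT Dc N μ X σ T) →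
        h0 ≤ hc N μ T → n * Real.log (hc N μ T) ≤ (α + κ) * hc N μ T →
        (∀ T' : ℝ, |T' - T| ≤ W * hc N μ T → Few X n (θ + x0 / 4) T' (κ * hc N μ T)) →
          ∀ u : ℂ, |u.re| ≤ 3 → |u.im| ≤ 1 →
            ‖X (1 / 2 + (T : ℂ) * I + u)‖ ≤ ‖X (7 / 2 + (T : ℂ) * I)‖ *
              Real.exp (-(3 * hc N μ T) + (max |u.re| (θ + x0) + α + ε) * hc N μ T) := by
  obtain ⟨κa, κ', W', h0', hκa, hκ', HT⟩ := transfer m b hb Dc (θ + x0) 0 α ε (by linarith) (by linarith)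
    le_rfl (by norm_num) hα hε
  obtain ⟨κ1, hκ1, hκ11, HB⟩ := fewbt x0 κa hx0 hx1 hκa
  obtain ⟨W1, hW1⟩ : ∃ W1 : ℝ, W1 = max W' 0 := ⟨_, rfl⟩
  have hW1' : W' ≤ W1 := by rw [hW1]; exact le_max_left _ _
  have hW10 : 0 ≤ W1 := by rw [hW1]; exact le_max_right _ _
  obtain ⟨h1, H1⟩ := hc_win m W1 hW10
  obtain ⟨τ, hτ⟩ : ∃ τ : ℝ, τ = κ1 / (4 * 442 * 3888) := ⟨_, rfl⟩
  have hτ0 : 0 < τ := by rw [hτ]; positivity
  have hτ1 : 442 * (3888 * τ) = κ1 / 4 := by rw [hτ]; ring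
  have E : ∀ C k : ℝ, 0 < k → ∀ᶠ h : ℝ in atTop, C ≤ k * h := fun C k hk =>
    (tendsto_id.const_mul_atTop hk).eventually_ge_atTop C
  obtain ⟨h2, H2⟩ := eventually_atTop.1 ((E 2 1 one_pos).and ((E (Real.exp ((α + 1) / τ)) 1 one_pos).and
    ((E h0' 1 one_pos).and ((E h1 1 one_pos).and
    (E (442 * (1458 * (m * (18 + b)))) (κ1 / 4) (by positivity))))))
  refine ⟨min (min κ' (κ1 / 42)) 1, W1 + 20, h2, by positivity, ?_⟩
  intro B N μ X L h hBb n T hdec hh0 hn hfew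
  obtain ⟨κ, hκ⟩ : ∃ κ : ℝ, κ = min (min κ' (κ1 / 42)) 1 := ⟨_, rfl⟩
  rw [← hκ] at hn hfew
  have hκ0 : 0 < κ := by rw [hκ]; positivity
  have hκκ : κ ≤ κ' := by rw [hκ]; exact (min_le_left _ _).trans (min_le_left _ _)
  have hκ42 : κ ≤ κ1 / 42 := by rw [hκ]; exact (min_le_left _ _).trans (min_le_right _ _)
  have hκo : κ ≤ 1 := by rw [hκ]; exact min_le_right _ _
  obtain ⟨c1, c2, c3, c4, c5⟩ := H2 _ hh0
  rw [one_mul] at c1 c2 c3 c4
  obtain ⟨h', hh'⟩ : ∃ h' : ℝ, h' = hc N μ T := ⟨_, rfl⟩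
  have hwin := fun T' => H1 N μ T T' h.hN c4
  rw [← hh'] at hn hfew c1 c2 c3 c4 c5 hwin
  have hh2 : 0 < h' := by linarith
  have hn0 : (0 : ℝ) ≤ n := Nat.cast_nonneg n
  have hnτ : (n : ℝ) ≤ τ * h' := by
    have h1 : (α + 1) / τ ≤ Real.log h' := by
      rw [Real.le_log_iff_exp_le hh2]
      exact c2
    have h2 : (n : ℝ) * ((α + 1) / τ) ≤ (α + 1) * h' := by
      calc (n : ℝ) * ((α + 1) / τ) ≤ n * Real.log h' := mul_le_mul_of_nonneg_left h1 hn0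
        _ ≤ (α + κ) * h' := hn
        _ ≤ _ := mul_le_mul_of_nonneg_right (by linarith) hh2.le
    have h3 : (n : ℝ) * (α + 1) ≤ τ * h' * (α + 1) := by
      have e1 : (n : ℝ) * (α + 1) = τ * (n * ((α + 1) / τ)) := by
        field_simp
      rw [e1]
      calc _ ≤ τ * ((α + 1) * h') := mul_le_mul_of_nonneg_left h2 hτ0.le
        _ = _ := by ring
    exact le_of_mul_le_mul_right h3 (by linarith)
  have n1 : 442 * (3888 * (n : ℝ)) ≤ κ1 / 4 * h' := by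
    calc 442 * (3888 * (n : ℝ)) ≤ 442 * (3888 * (τ * h')) := by linarith
      _ = 442 * (3888 * τ) * h' := by ring
      _ = _ := by rw [hτ1]
  have R := HT B N μ X L h hBb n T hdec (by rw [← hh']; exact c3) (by
    rw [← hh']
    exact hn.trans (mul_le_mul_of_nonneg_right (by linarith) hh2.le)) ?_
  · intro u hu1 hu2
    have := R u hu1 hu2
    rw [add_zero] at this
    exact this
  · intro T' hT'
    rw [← hh'] at hT'
    have hT1 : |T' - T| ≤ W1 * h' := hT'.trans (mul_le_mul_of_nonneg_right hW1' hh2.le)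
    obtain ⟨w1, w2⟩ := hwin T' hT1
    have hk1 := mul_le_mul_of_nonneg_left w1 hκ1.le
    have S := HB θ hθ0 hθ1 m B N μ X L h n T' (by linarith) (by
      rw [hBb]
      unfold Kn
      linarith) (fun T'' hT'' => (hfew T'' (by
        have e1 : T'' - T = (T'' - T') + (T' - T) := by ring
        rw [e1]
        refine (abs_add_le _ _).trans ?_
        linarith)).mono le_rfl (by
        have e1 : κ * h' ≤ κ1 / 42 * h' := mul_le_mul_of_nonneg_right hκ42 hh2.le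
        linarith))
    rw [add_zero]
    exact S

end Pool.Agent.TH839.SC
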