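import Pool.Agent.TH839.SC.Sml
import Pool.Agent.TH804.DL3

/-!
# Project SC: many zeros of a derivative near the critical line bound the derivative
-/

set_option autoImplicit false

open Complex MeasureTheory Filter Topology Set
open scoped ComplexConjugate

namespace Pool.Agent.TH839.SC

open Pool.Agent.W169.HF H353.E Pool.Agent.W355.UN Pool.Agent.TH839.UH Pool.Agent.TH839.LD
open W587.PL Pool.Agent.TH804.DL

variable {m : ℕ} {B : ℝ → ℝ} {N θ : ℝ} {μ : Fin m → ℂ} {X L : ℂ → ℂ}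

/-- the disc of radius `r` about `1/2 + iT` contains zeros of the `n`-th derivative of total multiplicity at
least `ν` -/
def Many (X : ℂ → ℂ) (n : ℕ) (r T ν : ℝ) : Prop := ∃ S : Finset ℂ,
  (∀ s ∈ S, ‖s - (1 / 2 + (T : ℂ) * I)‖ ≤ r) ∧
    ν ≤ ∑ s ∈ S, (analyticOrderNatAt (iteratedDeriv n X) s : ℝ)

lemma Many.mono {X : ℂ → ℂ} {n : ℕ} {r T ν ν' : ℝ} (h : Many X n r T ν) (hν : ν' ≤ ν) :
    Many X n r T ν' := by
  obtain ⟨S, h1, h2⟩ := h
  exact ⟨S, h1, hν.trans h2⟩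

lemma symn (h : UL m B N 1 μ X L) (n : ℕ) (T : ℝ) (u : ℂ) :
    ‖iteratedDeriv n X (1 / 2 + (T : ℂ) * I + -conj u)‖ =
      ‖iteratedDeriv n X (1 / 2 + (T : ℂ) * I + u)‖ := by
  obtain ⟨-, hcl, -⟩ := steps' h le_rfl n
  obtain ⟨ε, hε, hfe⟩ := hcl.fe
  rw [hfe (1 / 2 + (T : ℂ) * I + u), norm_mul, hε, one_mul, Complex.norm_conj]
  congr 2
  simp only [map_add, map_mul, Complex.conj_ofReal, Complex.conj_I, map_div₀, map_one, map_ofNat]
  ring

/-- bound to the right for the derivative, from a bound to the right for the function -/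
lemma rightn (h : UL m B N 1 μ X L) {T a1 κ κ1 R h' : ℝ} (n : ℕ)
    (ha1 : 0 ≤ a1) (ha2 : a1 ≤ 1) (hκ0 : 0 < κ) (hh' : h' = hc N μ T) (hh2 : 0 < h')
    (hR0 : 0 ≤ R) (hκ1 : 0 < κ1)
    (hK : Kn m (B 1) 0 * (10 + R ^ 2) + 5 * (m * R) ≤ κ1 / 2 * h')
    (hK2 : Kn m (B 1) 0 * (10 + R ^ 2) ≤ h') (W κ2 : ℝ) (hκ2 : 0 < κ2)
    (HC : ∀ (P : ℝ) (f : ℂ → ℂ), 0 < P → Differentiable ℂ f →
      (∀ u : ℂ, ‖f (-conj u)‖ = ‖f u‖) →
      (∀ u : ℂ, |u.re| ≤ 3 → |u.im| ≤ R → ‖f u‖ ≤ P * Real.exp (4 * h')) →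
      (∀ u : ℂ, u.re = a1 → |u.im| ≤ R → ‖f u‖ ≤ P * Real.exp (a1 * h' + κ1 * h')) →
      (∀ u : ℂ, u.re = 3 → |u.im| ≤ R → ‖f u‖ ≤ P * Real.exp (3 * h' + κ1 * h')) →
      ∀ u : ℂ, |u.re| ≤ 3 → |u.im| ≤ W + 2 → ‖f u‖ ≤ P * Real.exp (max |u.re| a1 * h' + κ2 * h'))
    (hκκ : κ ≤ κ1 / 2) (hκo : κ ≤ 1) (hn : (n : ℝ) ≤ h') (hquad : 3 * h' ≤ Real.exp (κ2 * h'))
    (hsm : ∀ T' : ℝ, |T' - T| ≤ R → ‖X (1 / 2 + (T' : ℂ) * I + a1)‖ ≤ ‖X (7 / 2 + (T' : ℂ) * I)‖ *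
      Real.exp (-(3 * hc N μ T') + (a1 + κ) * hc N μ T')) :
    ∀ x y : ℝ, a1 ≤ x → x ≤ 1 → |y| ≤ W →
      ‖iteratedDeriv n X (1 / 2 + (T : ℂ) * I + ((x : ℂ) + (y : ℂ) * I))‖ ≤
        ‖X (7 / 2 + (T : ℂ) * I)‖ * Real.exp (-(3 * h')) * h' ^ n * Real.exp (x * h' + 2 * κ2 * h') := by
  have hm0 : (0 : ℝ) ≤ m := Nat.cast_nonneg m
  obtain ⟨K0, hK0⟩ : ∃ K0 : ℝ, K0 = Kn m (B 1) 0 := ⟨_, rfl⟩
  have hK00 : 0 ≤ K0 := by rw [hK0]; exact Kn_nonneg (h.hB 1) 0
  rw [← hK0] at hK hK2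
  obtain ⟨Q, hQ⟩ : ∃ Q : ℝ, Q = ‖X (7 / 2 + (T : ℂ) * I)‖ := ⟨_, rfl⟩
  have hQ0 : 0 < Q := by rw [hQ]; exact norm_pos_iff.2 (prf h le_rfl 0 T).1
  obtain ⟨P, hP⟩ : ∃ P : ℝ, P = Q * Real.exp (-(3 * h')) := ⟨_, rfl⟩
  have hP0 : 0 < P := by rw [hP]; positivity
  have hPe : ∀ x : ℝ, Q * Real.exp x = P * Real.exp (x + 3 * h') := by
    intro x
    rw [hP, mul_assoc, ← Real.exp_add]
    congr 2
    ring
  obtain ⟨f, hf⟩ : ∃ f : ℂ → ℂ, f = fun u => X (1 / 2 + (T : ℂ) * I + u) := ⟨_, rfl⟩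
  have hfd : Differentiable ℂ f := by
    rw [hf]
    exact h.slow.1.comp (by fun_prop)
  have CV := HC P f hP0 hfd (fun u => by rw [hf]; exact sym h T u) ?_ ?_ ?_
  · intro x y hx hx1 hy
    obtain ⟨F, hF⟩ : ∃ F : ℂ → ℂ, F = fun u => X ((1 / 2 + (T : ℂ) * I + a1) + u) := ⟨_, rfl⟩
    have hFf : ∀ u : ℂ, F u = f (a1 + u) := fun u => by rw [hF, hf]; simp only [add_assoc]
    have hFd : Differentiable ℂ F := by
      rw [hF]
      exact h.slow.1.comp (by fun_prop)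
    have hFi : ∀ k : ℕ, iteratedDeriv k F =
        fun u => iteratedDeriv k X ((1 / 2 + (T : ℂ) * I + a1) + u) := by
      intro k
      rw [hF]
      exact iteratedDeriv_comp_const_add k X _
    obtain ⟨P', hP'⟩ : ∃ P' : ℝ, P' = P * Real.exp (a1 * h') := ⟨_, rfl⟩
    have hP'0 : 0 < P' := by rw [hP']; positivity
    have hPP : ∀ x : ℝ, P * Real.exp x = P' * Real.exp (x - a1 * h') := by
      intro x
      rw [hP', mul_assoc, ← Real.exp_add]
      congr 2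
      ring
    obtain ⟨u, hu⟩ : ∃ u : ℂ, u = ((x - a1 : ℝ) : ℂ) + (y : ℂ) * I := ⟨_, rfl⟩
    have hure : u.re = x - a1 := by rw [hu]; simp
    have huim : u.im = y := by rw [hu]; simp
    have R := cauchy hFd hP'0.le hh2 (A0 := 1) (κ := κ2) (u := u) (by rw [hure]; linarith) n
      (by rw [one_mul]; exact hn) (by rw [mul_one]; exact hquad) hκ2.le (fun w hw => by
        have w1 := abs_le.1 ((Complex.abs_re_le_norm (w - u)).trans hw)
        have w2 := abs_le.1 ((Complex.abs_im_le_norm (w - u)).trans hw)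
        rw [sub_re, hure] at w1
        rw [sub_im, huim] at w2
        have hre : ((a1 : ℂ) + w).re = a1 + w.re := by simp
        have him : ((a1 : ℂ) + w).im = w.im := by simp
        have hy2 := abs_le.1 hy
        have h1 := CV (a1 + w) (by rw [hre, abs_le]; constructor <;> linarith)
          (by rw [him, abs_le]; constructor <;> linarith)
        rw [hre] at h1
        rw [hFf]
        refine h1.trans ?_
        rw [hPP]
        refine mul_le_mul_of_nonneg_left (Real.exp_le_exp.2 ?_) hP'0.le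
        have h3 : max |a1 + w.re| a1 ≤ a1 + |w.re| := by
          apply max_le
          · refine (abs_add_le _ _).trans ?_
            rw [abs_of_nonneg ha1]
          · linarith [abs_nonneg w.re]
        have h4 : max |a1 + w.re| a1 * h' ≤ (a1 + |w.re|) * h' := mul_le_mul_of_nonneg_right h3 hh2.le
        linarith)
    rw [hFi] at R
    have e1 : (1 / 2 + (T : ℂ) * I + a1 + u : ℂ) = 1 / 2 + (T : ℂ) * I + ((x : ℂ) + (y : ℂ) * I) := by
      rw [hu]
      push_cast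
      ring
    simp only [e1] at R
    rw [← hQ, ← hP]
    refine R.trans (le_of_eq ?_)
    rw [hP', hure]
    have e2 : Real.exp ((x - a1) * h' + 2 * κ2 * h') * Real.exp (a1 * h') =
        Real.exp (x * h' + 2 * κ2 * h') := by
      rw [← Real.exp_add]
      congr 1
      ring
    rw [← e2]
    ring
  · intro u hu1 hu2
    have p1 := near h le_rfl T hu1 hu2
    rw [← hQ, ← hK0, hPe] at p1
    have e : f u = X (1 / 2 + (T : ℂ) * I + u) := by rw [hf]
    rw [e]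
    refine p1.trans (mul_le_mul_of_nonneg_left (Real.exp_le_exp.2 ?_) hP0.le)
    linarith
  · intro u hu1 hu2
    have p1 := hsm (T + u.im) (by rw [add_sub_cancel_left]; exact hu2)
    have e1 : (1 / 2 + ((T + u.im : ℝ) : ℂ) * I + a1 : ℂ) = 1 / 2 + (T : ℂ) * I + u := by
      have : u = (a1 : ℂ) + (u.im : ℂ) * I := by
        rw [← hu1]
        exact (Complex.re_add_im u).symm
      conv_rhs => rw [this]
      push_cast
      ring
    have e : f u = X (1 / 2 + (T : ℂ) * I + u) := by rw [hf]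
    rw [e1] at p1
    rw [e]
    refine p1.trans ?_
    have p2 := near h le_rfl T (R := R) (u := 3 + (u.im : ℂ) * I) (by simp) (by simpa using hu2)
    have e2 : (1 / 2 + (T : ℂ) * I + (3 + (u.im : ℂ) * I) : ℂ) =
        7 / 2 + ((T + u.im : ℝ) : ℂ) * I := by
      push_cast
      ring
    rw [e2, ← hQ, ← hK0] at p2
    obtain ⟨b1, b2⟩ := hc_near h.hN μ (T := T) (T1 := T + u.im) (R := R) (by
      rw [add_sub_cancel_left]; exact hu2)
    rw [← hh'] at b1 b2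
    have e3 : (a1 + κ) * hc N μ (T + u.im) ≤ (a1 + κ) * h' + 2 * (m * R) := by
      have e4 := mul_le_mul_of_nonneg_left b1 (by linarith : 0 ≤ a1 + κ)
      have e5 : (a1 + κ) * (m * R) ≤ 2 * (m * R) :=
        mul_le_mul_of_nonneg_right (by linarith) (by positivity)
      linarith
    have e6 : κ * h' ≤ κ1 / 2 * h' := mul_le_mul_of_nonneg_right hκκ hh2.le
    calc _ ≤ Q * Real.exp (K0 * (10 + R ^ 2)) *
          Real.exp (-(3 * (h' - m * R)) + ((a1 + κ) * h' + 2 * (m * R))) := by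
          have := Real.exp_le_exp.2 (by linarith :
            -(3 * hc N μ (T + u.im)) + (a1 + κ) * hc N μ (T + u.im) ≤
              -(3 * (h' - m * R)) + ((a1 + κ) * h' + 2 * (m * R)))
          gcongr
      _ = P * Real.exp (K0 * (10 + R ^ 2) + (-(3 * (h' - m * R)) + ((a1 + κ) * h' + 2 * (m * R))) +
            3 * h') := by
          rw [← hPe, mul_assoc, ← Real.exp_add]
      _ ≤ _ := by
          refine mul_le_mul_of_nonneg_left (Real.exp_le_exp.2 ?_) hP0.le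
          linarith
  · intro u hu1 hu2
    have p1 := near h le_rfl T (R := R) (u := u) (by rw [hu1]; norm_num) hu2
    rw [← hQ, ← hK0, hPe] at p1
    have e : f u = X (1 / 2 + (T : ℂ) * I + u) := by rw [hf]
    rw [e]
    refine p1.trans (mul_le_mul_of_nonneg_left (Real.exp_le_exp.2 ?_) hP0.le)
    have e7 : 0 < κ1 * h' := by positivity
    have e8 : 0 ≤ 5 * (m * R) := by positivity
    linarith

end Pool.Agent.TH839.SC
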