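import Pool.Agent.TH839.SC.Many

/-!
# Project SC: many zeros of a derivative near the critical line bound the derivative
-/

set_option autoImplicit false

open Complex MeasureTheory Filter Topology Set
open scoped ComplexConjugate

namespace Pool.Agent.TH839.SC

open Pool.Agent.W169.HF H353.E Pool.Agent.W355.UN Pool.Agent.TH839.UH Pool.Agent.TH839.LD
open W587.PL Pool.Agent.TH804.DL

variable {m : ℕ} {B : ℝ → ℝ} {N θ : ℝ} {μ : Fin m → ℂ} {X L : ℂ → ℂ}

lemma pow_two_exp (n : ℕ) : (2 : ℝ) ^ n ≤ Real.exp n := by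
  have h1 : (2 : ℝ) ≤ Real.exp 1 := by linarith [Real.exp_one_gt_d9]
  calc (2 : ℝ) ^ n ≤ Real.exp 1 ^ n := by gcongr
    _ = Real.exp n := by rw [← Real.exp_nat_mul, mul_one]

/-- the final arithmetic -/
lemma arith {h' lr c κ ε ε1 lV mR : ℝ} (hh : 0 < h') (hlr : 0 < lr) (hc : 0 < c) (hε1 : 0 < ε1) (hmR : 0 ≤ mR)
    (hk0 : 0 ≤ κ) (hk1 : κ ≤ c) (hk2 : κ * (2 * Real.pi * lr) ≤ ε) (he1 : ε1 ≤ ε) (he2 : ε1 ≤ Real.pi * c * lr / 4)
    (hm1 : mR ≤ h' / 2) (hm2 : Real.pi * lr * c * mR ≤ ε / 4 * h')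
    (hmain : (2 * c - κ) * (h' - mR) * lr ≤
      1 / 2 / Real.pi * (max (2 * h' - 4 * lV) 0 + ε1 * (2 * h'))) :
    lV ≤ (max 0 (1 / 2 - Real.pi * c * lr) + ε) * h' := by
  have hpi := Real.pi_pos
  have h1 : 2 * Real.pi * ((2 * c - κ) * (h' - mR) * lr) ≤ max (2 * h' - 4 * lV) 0 + ε1 * (2 * h') := by
    have h2 := mul_le_mul_of_nonneg_left hmain (by positivity : 0 ≤ 2 * Real.pi)
    have e : 2 * Real.pi * (1 / 2 / Real.pi * (max (2 * h' - 4 * lV) 0 + ε1 * (2 * h'))) =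
        max (2 * h' - 4 * lV) 0 + ε1 * (2 * h') := by field_simp
    rwa [e] at h2
  have hε : 0 < ε := lt_of_lt_of_le hε1 he1
  rcases le_total (2 * h' - 4 * lV) 0 with h2 | h2
  · -- impossible
    exfalso
    rw [max_eq_right h2, zero_add] at h1
    have h3 : c * (h' / 2) ≤ (2 * c - κ) * (h' - mR) := by
      have : 0 ≤ h' / 2 := by positivity
      calc c * (h' / 2) ≤ (2 * c - κ) * (h' / 2) := mul_le_mul_of_nonneg_right (by linarith) this
        _ ≤ _ := mul_le_mul_of_nonneg_left (by linarith) (by linarith)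
    have h4 : 2 * Real.pi * (c * (h' / 2) * lr) ≤ ε1 * (2 * h') := by
      refine le_trans ?_ h1
      refine mul_le_mul_of_nonneg_left ?_ (by positivity)
      exact mul_le_mul_of_nonneg_right h3 hlr.le
    have h5 : ε1 * (2 * h') ≤ Real.pi * c * lr / 4 * (2 * h') :=
      mul_le_mul_of_nonneg_right he2 (by positivity)
    have h6 : 0 < Real.pi * c * lr * h' := by positivity
    have e1 : 2 * Real.pi * (c * (h' / 2) * lr) = Real.pi * c * lr * h' := by ring
    have e2 : Real.pi * c * lr / 4 * (2 * h') = Real.pi * c * lr * h' / 2 := by ring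
    linarith
  · rw [max_eq_left h2] at h1
    have h3 : (2 * c - κ) * (h' - mR) = 2 * c * h' - κ * h' - (2 * c - κ) * mR := by ring
    have h4 : 2 * Real.pi * (κ * h' * lr) ≤ ε * h' := by
      have e : 2 * Real.pi * (κ * h' * lr) = κ * (2 * Real.pi * lr) * h' := by ring
      rw [e]
      exact mul_le_mul_of_nonneg_right hk2 hh.le
    have h5 : 2 * Real.pi * ((2 * c - κ) * mR * lr) ≤ ε * h' := by
      have e : 2 * Real.pi * ((2 * c - κ) * mR * lr) =
          4 * (Real.pi * lr * c * mR) - 2 * Real.pi * (κ * mR * lr) := by ring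
      have h6 : 0 ≤ 2 * Real.pi * (κ * mR * lr) := by positivity
      rw [e]
      linarith
    have h7 : 2 * Real.pi * ((2 * c - κ) * (h' - mR) * lr) =
        4 * (Real.pi * c * lr) * h' - 2 * Real.pi * (κ * h' * lr) -
          2 * Real.pi * ((2 * c - κ) * mR * lr) := by ring
    have hmx1 : 0 ≤ max 0 (1 / 2 - Real.pi * c * lr) := le_max_left _ _
    have hmx2 : (1 / 2 - Real.pi * c * lr) * h' ≤ max 0 (1 / 2 - Real.pi * c * lr) * h' :=
      mul_le_mul_of_nonneg_right (le_max_right _ _) hh.le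
    have h8 : (1 / 2 - Real.pi * c * lr) * h' = h' / 2 - Real.pi * c * lr * h' := by ring
    have h9 : ε1 * (2 * h') ≤ ε * (2 * h') := mul_le_mul_of_nonneg_right he1 (by positivity)
    have e0 : (max 0 (1 / 2 - Real.pi * c * lr) + ε) * h' =
      max 0 (1 / 2 - Real.pi * c * lr) * h' + ε * h' := by ring
    rw [e0]
    have e11 : 4 * (Real.pi * c * lr) * h' = 4 * (Real.pi * c * lr * h') := by ring
    linarith

theorem manyb (m : ℕ) (b : ℝ) (hb : 0 ≤ b) (r c ε : ℝ) (hr : 0 < r) (hr2 : r < 1 / 2) (hc0 : 0 < c)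
    (hε : 0 < ε) :
    ∃ a1 κ W τ h0 : ℝ, 1 / 2 < a1 ∧ a1 ≤ 3 / 4 ∧ 0 < κ ∧ 0 < τ ∧ 0 ≤ W ∧
      ∀ (B : ℝ → ℝ) (N : ℝ) (μ : Fin m → ℂ) (X L : ℂ → ℂ),
      UL m B N 1 μ X L → B 1 = b → ∀ (n : ℕ) (T : ℝ), h0 ≤ hc N μ T → (n : ℝ) ≤ τ * hc N μ T →
      (∀ T' : ℝ, |T' - T| ≤ W → ‖X (1 / 2 + (T' : ℂ) * I + a1)‖ ≤ ‖X (7 / 2 + (T' : ℂ) * I)‖ *
        Real.exp (-(3 * hc N μ T') + (a1 + κ) * hc N μ T')) →
      (∀ T' : ℝ, |T' - T| ≤ W → Many X n r T' ((2 * c - κ) * hc N μ T')) →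
      ‖iteratedDeriv n X (1 / 2 + (T : ℂ) * I)‖ ≤ ‖X (7 / 2 + (T : ℂ) * I)‖ *
        Real.exp (-(3 * hc N μ T)) * hc N μ T ^ n *
        Real.exp ((max 0 (1 / 2 - Real.pi * c * Real.log (1 / (2 * r))) + ε) * hc N μ T) := by
  have hpi := Real.pi_pos
  obtain ⟨lr, hlr⟩ : ∃ lr : ℝ, lr = Real.log (1 / (2 * r)) := ⟨_, rfl⟩
  have hlr0 : 0 < lr := by
    rw [hlr]
    apply Real.log_pos
    rw [lt_div_iff₀ (by positivity)]
    linarith
  obtain ⟨ε1, hε1⟩ : ∃ ε1 : ℝ, ε1 = min 1 (min ε (Real.pi * c * lr / 4)) := ⟨_, rfl⟩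
  have hε10 : 0 < ε1 := by rw [hε1]; positivity
  have hε11 : ε1 ≤ 1 := by rw [hε1]; exact min_le_left _ _
  have hε12 : ε1 ≤ ε := by rw [hε1]; exact (min_le_right _ _).trans (min_le_left _ _)
  have hε13 : ε1 ≤ Real.pi * c * lr / 4 := by rw [hε1]; exact (min_le_right _ _).trans (min_le_right _ _)
  obtain ⟨a, δ, W, Λ0, ha, ha', hδ, hW, hΛ0, HL⟩ := large_local (ε := ε1) (B := 3) hε10 hε11 (by norm_num)
  obtain ⟨a1, ha1⟩ : ∃ a1 : ℝ, a1 = (1 / 2 + a) / 2 := ⟨_, rfl⟩
  have ha10 : 1 / 2 < a1 := by rw [ha1]; linarith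
  have ha11 : a1 ≤ a := by rw [ha1]; linarith
  obtain ⟨κ1, R, ℓC, hκ1, hRW, HC⟩ := Pool.Agent.TH324.LD.cvx a1 4 (δ / 2) (W + 2) (by linarith)
    (by linarith) (by norm_num) (by positivity) (by positivity)
  have hR0 : 0 ≤ R := by linarith
  have hm0 : (0 : ℝ) ≤ m := Nat.cast_nonneg m
  obtain ⟨κ, hκ⟩ : ∃ κ : ℝ, κ = min (min (κ1 / 2) 1) (min c (ε / (2 * Real.pi * lr))) := ⟨_, rfl⟩
  have hκ0 : 0 < κ := by rw [hκ]; positivity
  have hκκ : κ ≤ κ1 / 2 := by rw [hκ]; exact (min_le_left _ _).trans (min_le_left _ _)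
  have hκo : κ ≤ 1 := by rw [hκ]; exact (min_le_left _ _).trans (min_le_right _ _)
  have hκc : κ ≤ c := by rw [hκ]; exact (min_le_right _ _).trans (min_le_left _ _)
  have hκε : κ * (2 * Real.pi * lr) ≤ ε := by
    rw [← le_div_iff₀ (by positivity), hκ]
    exact (min_le_right _ _).trans (min_le_right _ _)
  obtain ⟨G, hG⟩ : ∃ G : ℝ, G = 1 + (W + 1) ^ 2 := ⟨_, rfl⟩
  have hG1 : 1 ≤ G := by rw [hG]; nlinarith
  obtain ⟨τ, hτ⟩ : ∃ τ : ℝ, τ = 1 / (1 + 3888 * G) := ⟨_, rfl⟩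
  have hτ0 : 0 < τ := by rw [hτ]; positivity
  have hτ1 : τ * (1 + 3888 * G) = 1 := by rw [hτ]; field_simp
  have E : ∀ C k : ℝ, 0 < k → ∀ᶠ h : ℝ in atTop, C ≤ k * h := fun C k hk =>
    (tendsto_id.const_mul_atTop hk).eventually_ge_atTop C
  obtain ⟨h0, H0⟩ := eventually_atTop.1 ((E 2 1 one_pos).and ((E Λ0 2 two_pos).and
    ((E ℓC 1 one_pos).and
    ((E (Kn m b 0 * (10 + R ^ 2) + 5 * (m * R)) (κ1 / 2) (by positivity)).and
    ((E (Kn m b 0 * (10 + R ^ 2)) 1 one_pos).and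
    ((E (m * (31 + b)) (1 / 2) (by norm_num)).and
    ((E (1458 * (m * (18 + b)) * G) 1 one_pos).and
    ((E 3 (δ ^ 2 / 8) (by positivity)).and
    ((E (m * R) (1 / 2) (by norm_num)).and
    (E (Real.pi * lr * c * (m * R)) (ε / 4) (by positivity)))))))))))
  refine ⟨a1, κ, R, τ, h0, ha10, by linarith, hκ0, hτ0, hR0, ?_⟩
  intro B N μ X L h hBb n T hh0 hnτ hsm hmany
  obtain ⟨h', hh'⟩ : ∃ h' : ℝ, h' = hc N μ T := ⟨_, rfl⟩
  obtain ⟨d1, d2, d3, d4, d5, d6, d7, d8, d9, d10⟩ := H0 (hc N μ T) hh0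
  rw [← hh'] at hnτ d1 d2 d3 d4 d5 d6 d7 d8 d9 d10 ⊢
  rw [one_mul] at d1 d3 d5 d7
  have hh2 : 0 < h' := by linarith
  have hn0 : (0 : ℝ) ≤ n := Nat.cast_nonneg n
  have hnG : (n : ℝ) * (1 + 3888 * G) ≤ h' := by
    calc (n : ℝ) * (1 + 3888 * G) ≤ τ * h' * (1 + 3888 * G) :=
          mul_le_mul_of_nonneg_right hnτ (by positivity)
      _ = (τ * (1 + 3888 * G)) * h' := by ring
      _ = h' := by rw [hτ1, one_mul]
  have hnG1 : 3888 * (n : ℝ) ≤ n * (1 + 3888 * G) := by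
    have : (n : ℝ) * 3888 * 1 ≤ n * 3888 * G := mul_le_mul_of_nonneg_left hG1 (by positivity)
    linarith
  have hnh : (n : ℝ) ≤ h' := by linarith
  obtain ⟨Q, hQ⟩ : ∃ Q : ℝ, Q = ‖X (7 / 2 + (T : ℂ) * I)‖ := ⟨_, rfl⟩
  have hQ0 : 0 < Q := by rw [hQ]; exact norm_pos_iff.2 (prf h le_rfl 0 T).1
  obtain ⟨M, hM⟩ : ∃ M : ℝ, M = Q * Real.exp (-(3 * h')) * h' ^ n := ⟨_, rfl⟩
  have hM0 : 0 < M := by rw [hM]; positivity
  have hquad : 3 * h' ≤ Real.exp (δ / 2 * h') := by
    have h1 := Real.quadratic_le_exp_of_nonneg (x := δ / 2 * h') (by positivity)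
    have h2 : 3 * h' ≤ δ ^ 2 / 8 * h' * h' := mul_le_mul_of_nonneg_right d8 hh2.le
    have h3 : (δ / 2 * h') ^ 2 / 2 = δ ^ 2 / 8 * h' * h' := by ring
    have h4 : 0 < δ / 2 * h' := by positivity
    linarith
  have RN := rightn h (T := T) (a1 := a1) (κ := κ) (κ1 := κ1) (R := R) (h' := h') n (by linarith)
    (by linarith) hκ0 hh' hh2 hR0 hκ1 (by rw [hBb]; exact d4) (by rw [hBb]; exact d5) W (δ / 2)
    (by positivity) (fun P f => HC h' P f d3) hκκ hκo hnh hquad hsm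
  rw [← hQ, ← hM] at RN
  rw [← hQ, ← hM, ← hlr]
  -- the normalised function
  obtain ⟨F, hF⟩ : ∃ F : ℂ → ℂ, F = fun z => iteratedDeriv n X (1 * z + (1 / 2 + (T : ℂ) * I)) *
      (cexp (-(h' * z)) * ((M⁻¹ : ℝ) : ℂ)) := ⟨_, rfl⟩
  have hMc : ((M⁻¹ : ℝ) : ℂ) ≠ 0 := by
    rw [Complex.ofReal_ne_zero]
    positivity
  have hE : Differentiable ℂ fun z : ℂ => cexp (-(h' * z)) * ((M⁻¹ : ℝ) : ℂ) := by fun_prop
  have hE0 : ∀ z : ℂ, cexp (-(h' * z)) * ((M⁻¹ : ℝ) : ℂ) ≠ 0 := fun z =>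
    mul_ne_zero (Complex.exp_ne_zero _) hMc
  have hFd : Differentiable ℂ F := by
    rw [hF]
    exact ((iter_diff h n).comp (by fun_prop)).mul hE
  have hFn : ∀ z : ℂ, ‖F z‖ = ‖iteratedDeriv n X (1 / 2 + (T : ℂ) * I + z)‖ *
      Real.exp (-(h' * z.re)) / M := by
    intro z
    rw [hF]
    simp only [one_mul]
    rw [norm_mul, norm_mul, Complex.norm_exp, Complex.norm_real, Real.norm_eq_abs,
      abs_of_pos (inv_pos.2 hM0), neg_re, Complex.re_ofReal_mul, add_comm z, div_eq_mul_inv]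
    ring
  have hord : ∀ z : ℂ, analyticOrderNatAt F z =
      analyticOrderNatAt (iteratedDeriv n X) (z + (1 / 2 + (T : ℂ) * I)) := by
    intro z
    have := ord_tr (iter_diff h n) (iter_ne h le_rfl n) (a := 1) (b := 1 / 2 + (T : ℂ) * I) one_ne_zero
      hE hE0 z
    rw [one_mul] at this
    rw [hF, ← this]
  have hxy : ∀ x y : ℝ, ((x : ℂ) + (y : ℂ) * I).re = x ∧ ((x : ℂ) + (y : ℂ) * I).im = y := by
    intro x y
    constructor <;> simp
  have hloc : Loc F a δ 3 W (2 * h') (2 * h') := by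
    refine ⟨hFd, by positivity, by linarith, ?_, ?_⟩
    · intro x y hx hy
      have hax := RN a y ha11 (by linarith) hy
      rcases (abs_eq (by linarith : 0 ≤ a)).1 hx with e | e
      · rw [e, hFn, (hxy a y).1, div_le_iff₀ hM0]
        calc _ ≤ M * Real.exp (a * h' + 2 * (δ / 2) * h') * Real.exp (-(h' * a)) := by gcongr
          _ = Real.exp (a * h' + 2 * (δ / 2) * h' + -(h' * a)) * M := by
              rw [Real.exp_add (a * h' + 2 * (δ / 2) * h')]
              ring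
          _ ≤ _ := by
              refine mul_le_mul_of_nonneg_right (Real.exp_le_exp.2 ?_) hM0.le
              have : 0 < δ * h' := by positivity
              linarith
      · have hs := symn h n T ((a : ℂ) + (y : ℂ) * I)
        have e1 : -conj ((a : ℂ) + (y : ℂ) * I) = ((x : ℂ) + (y : ℂ) * I) := by
          rw [e]
          simp only [map_add, map_mul, Complex.conj_ofReal, Complex.conj_I]
          push_cast
          ring
        rw [e1] at hs
        rw [hFn, (hxy x y).1, hs, e, div_le_iff₀ hM0]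
        calc _ ≤ M * Real.exp (a * h' + 2 * (δ / 2) * h') * Real.exp (-(h' * -a)) := by gcongr
          _ = Real.exp (a * h' + 2 * (δ / 2) * h' + -(h' * -a)) * M := by
              rw [Real.exp_add (a * h' + 2 * (δ / 2) * h')]
              ring
          _ ≤ _ := by
              refine mul_le_mul_of_nonneg_right (Real.exp_le_exp.2 ?_) hM0.le
              have : 0 < δ * h' := by positivity
              linarith
    · intro x y hx hy
      obtain ⟨-, -, pu, -⟩ := prf h le_rfl n T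
      have p1 := pu ((x : ℂ) + (y : ℂ) * I)
      have hr1 := ratio h le_rfl n T
      rw [← hQ, ← hh', hBb] at hr1
      rw [← hh', hBb, (hxy x y).1, max_eq_right (by linarith), sub_self, mul_zero, zero_add] at p1
      have hnz : ‖(x : ℂ) + (y : ℂ) * I‖ ≤ W + 1 := by
        refine (norm_add_le _ _).trans ?_
        rw [norm_mul, Complex.norm_I, mul_one, Complex.norm_real, Complex.norm_real, Real.norm_eq_abs,
          Real.norm_eq_abs]
        linarith
      have hk : Kn m b n * (1 + ‖(x : ℂ) + (y : ℂ) * I‖ ^ 2) ≤ 1458 * (m * (18 + b)) * G + 3888 * n * G := by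
        have h1 : 1 + ‖(x : ℂ) + (y : ℂ) * I‖ ^ 2 ≤ G := by
          rw [hG]
          have := pow_le_pow_left₀ (norm_nonneg _) hnz 2
          linarith
        calc _ ≤ Kn m b n * G := mul_le_mul_of_nonneg_left h1 (Kn_nonneg hb n)
          _ = _ := by unfold Kn; ring
      have hp : (h' + m * (31 + b) + 3 * n) ^ n ≤ Real.exp n * h' ^ n := by
        calc (h' + m * (31 + b) + 3 * n) ^ n ≤ (2 * h') ^ n := by
              have : 0 ≤ h' + m * (31 + b) + 3 * n := by positivity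
              exact pow_le_pow_left₀ this (by linarith) n
          _ = 2 ^ n * h' ^ n := mul_pow _ _ _
          _ ≤ _ := by
              have := pow_two_exp n
              gcongr
      have hx2 : -(h' * x) ≤ h' * (3 / 4) := by
        have : -x ≤ 3 / 4 := by
          have := (abs_le.1 hx).1
          linarith
        have := mul_le_mul_of_nonneg_left this hh2.le
        linarith
      rw [hFn, (hxy x y).1, div_le_iff₀ hM0]
      calc _ ≤ (Q * (Real.exp n * h' ^ n) * Real.exp (1458 * (m * (18 + b)) * G + 3888 * n * G)) *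
            Real.exp (h' * (3 / 4)) := by
            have h1 := p1.trans (mul_le_mul (hr1.trans (mul_le_mul_of_nonneg_left hp hQ0.le))
              (Real.exp_le_exp.2 hk) (Real.exp_pos _).le (by positivity))
            have h2 := Real.exp_le_exp.2 hx2
            exact mul_le_mul h1 h2 (Real.exp_pos _).le (by positivity)
        _ = Real.exp (n + (1458 * (m * (18 + b)) * G + 3888 * n * G) + h' * (3 / 4) + 3 * h') * M := by
            rw [hM, Real.exp_add (n + (1458 * (m * (18 + b)) * G + 3888 * n * G) + h' * (3 / 4)),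
              Real.exp_add (n + (1458 * (m * (18 + b)) * G + 3888 * n * G)), Real.exp_add (n : ℝ)]
            have e1 : Real.exp (3 * h') * Real.exp (-(3 * h')) = 1 := by
              rw [← Real.exp_add, add_neg_cancel, Real.exp_zero]
            calc _ = Q * (Real.exp n * h' ^ n) * Real.exp (1458 * (m * (18 + b)) * G + 3888 * n * G) *
                  Real.exp (h' * (3 / 4)) * (Real.exp (3 * h') * Real.exp (-(3 * h'))) := by
                    rw [e1, mul_one]
              _ = _ := by ring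
        _ ≤ _ := by
            refine mul_le_mul_of_nonneg_right (Real.exp_le_exp.2 ?_) hM0.le
            have : (n : ℝ) * (1 + 3888 * G) = n + 3888 * n * G := by ring
            linarith
  -- conclusion
  obtain ⟨V, hV⟩ : ∃ V : ℝ, V = ‖F 0‖ := ⟨_, rfl⟩
  have hV2 : V = ‖iteratedDeriv n X (1 / 2 + (T : ℂ) * I)‖ / M := by
    rw [hV, hFn]
    simp
  have hgoal : V ≤ Real.exp ((max 0 (1 / 2 - Real.pi * c * lr) + ε) * h') →
      ‖iteratedDeriv n X (1 / 2 + (T : ℂ) * I)‖ ≤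
        M * Real.exp ((max 0 (1 / 2 - Real.pi * c * lr) + ε) * h') := by
    intro h1
    rw [hV2, div_le_iff₀ hM0] at h1
    linarith
  apply hgoal
  have hmx1 : 0 ≤ max 0 (1 / 2 - Real.pi * c * lr) := le_max_left _ _
  rcases le_or_gt 1 V with hV1 | hV1
  swap
  · have : 1 ≤ Real.exp ((max 0 (1 / 2 - Real.pi * c * lr) + ε) * h') := Real.one_le_exp (by positivity)
    linarith
  obtain ⟨y0, hy0, hy1, -, hz, -⟩ := HL F (2 * h') (2 * h') d2 hloc (by rw [← hV]; exact hV1)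
  rw [← hV] at hy1 hz
  have hy0R : |T + y0 - T| ≤ R := by rw [add_sub_cancel_left]; linarith
  obtain ⟨S, hS1, hS2⟩ := hmany (T + y0) hy0R
  classical
  have hcen : ∀ s : ℂ, s - (1 / 2 + ((T + y0 : ℝ) : ℂ) * I) = (s - (1 / 2 + (T : ℂ) * I)) - y0 * I := by
    intro s
    push_cast
    ring
  have hz1 := hz (1 / 2) (by norm_num) le_rfl (S.image fun s => s - (1 / 2 + (T : ℂ) * I)) (by
    intro z hz
    obtain ⟨s, hs, rfl⟩ := Finset.mem_image.1 hz
    rw [← hcen]
    exact (hS1 s hs).trans hr2.le)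
  rw [Finset.sum_image (fun z _ w _ h => sub_left_injective h)] at hz1
  have hFy : F (y0 * I) ≠ 0 := by
    intro h0
    rw [h0, norm_zero] at hy1
    linarith
  have hsum : (∑ s ∈ S, (analyticOrderNatAt (iteratedDeriv n X) s : ℝ)) * lr ≤
      ∑ s ∈ S, (analyticOrderNatAt F (s - (1 / 2 + (T : ℂ) * I)) : ℝ) *
        Real.log (1 / 2 / ‖s - (1 / 2 + (T : ℂ) * I) - y0 * I‖) := by
    rw [Finset.sum_mul]
    apply Finset.sum_le_sum
    intro s hs
    have e1 : analyticOrderNatAt F (s - (1 / 2 + (T : ℂ) * I)) =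
        analyticOrderNatAt (iteratedDeriv n X) s := by rw [hord, sub_add_cancel]
    rw [e1]
    rcases eq_or_ne (s - (1 / 2 + (T : ℂ) * I)) (y0 * I) with h0 | h0
    · have h1 : analyticOrderNatAt (iteratedDeriv n X) s = 0 := by
        rw [← e1, h0]
        by_contra h2
        exact hFy (apply_eq_zero_of_analyticOrderNatAt_ne_zero h2)
      rw [h1]
      simp
    · apply mul_le_mul_of_nonneg_left _ (Nat.cast_nonneg _)
      have h1 : 0 < ‖s - (1 / 2 + (T : ℂ) * I) - y0 * I‖ := norm_pos_iff.2 (sub_ne_zero.2 h0)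
      have h2 := hS1 s hs
      rw [hcen] at h2
      rw [hlr]
      apply Real.log_le_log (by positivity)
      rw [div_le_div_iff₀ (by positivity) h1]
      linarith
  have hnr := (hc_near h.hN μ (T := T) (T1 := T + y0) (R := R) hy0R).2
  rw [← hh'] at hnr
  have hlow : (2 * c - κ) * (h' - m * R) * lr ≤
      (∑ s ∈ S, (analyticOrderNatAt (iteratedDeriv n X) s : ℝ)) * lr := by
    refine mul_le_mul_of_nonneg_right (le_trans ?_ hS2) hlr0.le
    exact mul_le_mul_of_nonneg_left hnr (by linarith)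
  have hfin := arith (h' := h') (lr := lr) (c := c) (κ := κ) (ε := ε) (ε1 := ε1) (lV := Real.log V)
    (mR := m * R) hh2 hlr0 hc0 hε10 (by positivity) hκ0.le hκc hκε hε12 hε13 (by linarith) d10
    (hlow.trans (hsum.trans hz1))
  rwa [Real.log_le_iff_le_exp (by linarith)] at hfin

end Pool.Agent.TH839.SC
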