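import Pool.Agent.TH839.SC.Many2

/-!
# Project SC: many zeros of a derivative near the critical line bound the function
-/

set_option autoImplicit false

open Complex MeasureTheory Filter Topology Set
open scoped ComplexConjugate

namespace Pool.Agent.TH839.SC

open Pool.Agent.W169.HF H353.E Pool.Agent.W355.UN Pool.Agent.TH839.UH Pool.Agent.TH839.LD
open Pool.Agent.TH839.ZT (ratio_lo)

variable {m : ℕ} {B : ℝ → ℝ} {N θ : ℝ} {μ : Fin m → ℂ} {X L : ℂ → ℂ}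

lemma two_pow_mul {x : ℝ} (hx : 0 ≤ x) (n : ℕ) : (2 * x) ^ n ≤ Real.exp n * x ^ n := by
  rw [mul_pow]
  exact mul_le_mul_of_nonneg_right (pow_two_exp n) (by positivity)

/-- one place: from the critical line to the line `Re s = 1/2 + y0` -/
lemma place (h : UL m B N 1 μ X L) {T b y0 ρ ε2 κ1 κ2 κa R h' : ℝ} (n : ℕ) (hBb : B 1 = b) (hb : 0 ≤ b)
    (hy0 : 0 < y0) (hy1 : y0 ≤ 1) (hρ0 : 0 ≤ ρ) (hρ1 : ρ ≤ 1 / 2) (hh' : h' = hc N μ T) (hh2 : 0 < h')
    (hR0 : 0 ≤ R) (hκ1 : 0 < κ1) (hε20 : 0 < ε2) (hε2 : ε2 ≤ κ1 / 4) (hε21 : ε2 ≤ 1) (hκa : 0 < κa)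
    (hκ2 : κ2 ≤ κa / 2)
    (e1 : m * (31 + b) + 3 * n ≤ h' / 2) (e2 : (n : ℝ) ≤ κ1 / 8 * h') (e3 : (n : ℝ) ≤ κa / 2 * h')
    (e4 : Kn m b n * (10 + R ^ 2) ≤ κ1 / 4 * h') (e5 : Kn m b n * (10 + R ^ 2) + n ≤ h')
    (e6 : Kn m b 0 * (10 + R ^ 2) + 5 * (m * R) ≤ κ1 / 4 * h') (e7 : m * R ≤ h' / 2)
    (HC : ∀ (P : ℝ) (f : ℂ → ℂ), 0 < P → Differentiable ℂ f →
      (∀ u : ℂ, ‖f (-conj u)‖ = ‖f u‖) →
      (∀ u : ℂ, |u.re| ≤ 3 → |u.im| ≤ R → ‖f u‖ ≤ P * Real.exp (4 * h')) →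
      (∀ u : ℂ, u.re = 0 → |u.im| ≤ R → ‖f u‖ ≤ P * Real.exp (0 * h' + κ1 * h')) →
      (∀ u : ℂ, u.re = 3 → |u.im| ≤ R → ‖f u‖ ≤ P * Real.exp (3 * h' + κ1 * h')) →
      ∀ u : ℂ, |u.re| ≤ 3 → |u.im| ≤ 1 → ‖f u‖ ≤ P * Real.exp (max |u.re| 0 * h' + κ2 * h'))
    (hline : ∀ T' : ℝ, |T' - T| ≤ R → ‖iteratedDeriv n X (1 / 2 + (T' : ℂ) * I)‖ ≤
      ‖X (7 / 2 + (T' : ℂ) * I)‖ * Real.exp (-(3 * hc N μ T')) * hc N μ T' ^ n *
        Real.exp ((ρ + ε2) * hc N μ T')) :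
    ‖iteratedDeriv n X (1 / 2 + (T : ℂ) * I + y0)‖ ≤ ‖iteratedDeriv n X (7 / 2 + (T : ℂ) * I)‖ *
      Real.exp (h' * (y0 + ρ - 3) + κa * h') := by
  have hm0 : (0 : ℝ) ≤ m := Nat.cast_nonneg m
  have hn0 : (0 : ℝ) ≤ n := Nat.cast_nonneg n
  obtain ⟨Q, hQ⟩ : ∃ Q : ℝ, Q = ‖X (7 / 2 + (T : ℂ) * I)‖ := ⟨_, rfl⟩
  have hQ0 : 0 < Q := by rw [hQ]; exact norm_pos_iff.2 (prf h le_rfl 0 T).1
  obtain ⟨-, hne, pu, -⟩ := prf h le_rfl n T
  obtain ⟨Qn, hQn⟩ : ∃ Qn : ℝ, Qn = ‖iteratedDeriv n X (7 / 2 + (T : ℂ) * I)‖ := ⟨_, rfl⟩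
  have hQn0 : 0 < Qn := by rw [hQn]; exact norm_pos_iff.2 hne
  have r1 := ratio h le_rfl n T
  have r2 := ratio_lo h le_rfl n T (by rw [hBb, ← hh']; linarith)
  rw [← hQ, ← hQn, ← hh', hBb] at r1 r2
  rw [← hQn, ← hh', hBb] at pu
  rw [← hQn]
  have hQup : Qn ≤ Q * (Real.exp n * h' ^ n) := by
    refine r1.trans (mul_le_mul_of_nonneg_left ?_ hQ0.le)
    refine le_trans (pow_le_pow_left₀ (by positivity) ?_ n) (two_pow_mul hh2.le n)
    linarith
  have hQlo : Q * h' ^ n ≤ Real.exp n * Qn := by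
    have h1 : (h' / 2) ^ n ≤ (h' - m * (31 + b) - 3 * n) ^ n :=
      pow_le_pow_left₀ (by positivity) (by linarith) n
    have h2 : h' ^ n ≤ Real.exp n * (h' / 2) ^ n := by
      have := two_pow_mul (by positivity : 0 ≤ h' / 2) n
      rwa [mul_div_cancel₀ _ (two_ne_zero)] at this
    calc Q * h' ^ n ≤ Q * (Real.exp n * (h' / 2) ^ n) := mul_le_mul_of_nonneg_left h2 hQ0.le
      _ ≤ Q * (Real.exp n * (h' - m * (31 + b) - 3 * n) ^ n) := by gcongr
      _ = Real.exp n * (Q * (h' - m * (31 + b) - 3 * n) ^ n) := by ring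
      _ ≤ _ := mul_le_mul_of_nonneg_left r2 (Real.exp_pos _).le
  obtain ⟨P, hP⟩ : ∃ P : ℝ, P = Q * h' ^ n * Real.exp (-(3 * h') + ρ * h') := ⟨_, rfl⟩
  have hP0 : 0 < P := by rw [hP]; positivity
  have hPe : ∀ x : ℝ, Q * h' ^ n * Real.exp x = P * Real.exp (x + 3 * h' - ρ * h') := by
    intro x
    have e : Real.exp (-(3 * h') + ρ * h') * Real.exp (x + 3 * h' - ρ * h') = Real.exp x := by
      rw [← Real.exp_add]
      congr 1
      ring
    rw [hP, ← e]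
    ring
  have hρh : 0 ≤ ρ * h' := by positivity
  have hbox : ∀ u : ℂ, |u.re| ≤ 3 → |u.im| ≤ R →
      ‖iteratedDeriv n X (1 / 2 + (T : ℂ) * I + u)‖ ≤
        P * Real.exp (Kn m b n * (10 + R ^ 2) + n + 3 * h' - ρ * h') := by
    intro u hu1 hu2
    have p1 := pu u
    rw [max_eq_right hu1, sub_self, mul_zero, zero_add] at p1
    have hk : Kn m b n * (1 + ‖u‖ ^ 2) ≤ Kn m b n * (10 + R ^ 2) := by
      refine mul_le_mul_of_nonneg_left ?_ (Kn_nonneg hb n)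
      have e : ‖u‖ ^ 2 = u.re ^ 2 + u.im ^ 2 := by
        rw [← Complex.normSq_eq_norm_sq, Complex.normSq_apply]
        ring
      have h5 : u.re ^ 2 ≤ 3 ^ 2 := sq_le_sq' (by linarith [(abs_le.1 hu1).1]) (abs_le.1 hu1).2
      have h6 : u.im ^ 2 ≤ R ^ 2 := sq_le_sq' (by linarith [(abs_le.1 hu2).1]) (abs_le.1 hu2).2
      rw [e]
      linarith
    calc _ ≤ _ := p1
      _ ≤ (Q * (Real.exp n * h' ^ n)) * Real.exp (Kn m b n * (10 + R ^ 2)) := by
          have := Real.exp_le_exp.2 hk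
          gcongr
      _ = Q * h' ^ n * Real.exp (Kn m b n * (10 + R ^ 2) + n) := by
          rw [Real.exp_add]
          ring
      _ = _ := by
          rw [hPe]
  have C := HC P (fun u => iteratedDeriv n X (1 / 2 + (T : ℂ) * I + u)) hP0
    ((iter_diff h n).comp (by fun_prop)) (fun u => symn h n T u) ?_ ?_ ?_ y0
    (by rw [ofReal_re, abs_of_pos hy0]; linarith) (by simp)
  · rw [ofReal_re, abs_of_pos hy0, max_eq_left hy0.le] at C
    refine C.trans ?_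
    calc P * Real.exp (y0 * h' + κ2 * h') = (Q * h' ^ n) * (Real.exp (-(3 * h') + ρ * h') *
          Real.exp (y0 * h' + κ2 * h')) := by rw [hP]; ring
      _ ≤ (Real.exp n * Qn) * (Real.exp (-(3 * h') + ρ * h') * Real.exp (y0 * h' + κ2 * h')) := by
          gcongr
      _ = Qn * Real.exp (n + ((-(3 * h') + ρ * h') + (y0 * h' + κ2 * h'))) := by
          rw [Real.exp_add (n : ℝ), Real.exp_add (-(3 * h') + ρ * h')]
          ring
      _ ≤ _ := by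
          refine mul_le_mul_of_nonneg_left (Real.exp_le_exp.2 ?_) hQn0.le
          have h1 : κ2 * h' ≤ κa / 2 * h' := mul_le_mul_of_nonneg_right hκ2 hh2.le
          have h2 : h' * (y0 + ρ - 3) = y0 * h' + ρ * h' - 3 * h' := by ring
          linarith
  · intro u hu1 hu2
    refine (hbox u hu1 hu2).trans (mul_le_mul_of_nonneg_left (Real.exp_le_exp.2 ?_) hP0.le)
    linarith
  · intro u hu1 hu2
    have p1 := hline (T + u.im) (by rw [add_sub_cancel_left]; exact hu2)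
    have e0 : (1 / 2 + ((T + u.im : ℝ) : ℂ) * I : ℂ) = 1 / 2 + (T : ℂ) * I + u := by
      have : u = (u.im : ℂ) * I := by
        conv_lhs => rw [← Complex.re_add_im u, hu1]
        simp
      conv_rhs => rw [this]
      push_cast
      ring
    rw [e0] at p1
    refine p1.trans ?_
    have p2 := near h le_rfl T (R := R) (u := 3 + (u.im : ℂ) * I) (by simp) (by simpa using hu2)
    have e9 : (1 / 2 + (T : ℂ) * I + (3 + (u.im : ℂ) * I) : ℂ) =
        7 / 2 + ((T + u.im : ℝ) : ℂ) * I := by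
      push_cast
      ring
    rw [e9, ← hQ, hBb] at p2
    obtain ⟨b1, b2⟩ := hc_near h.hN μ (T := T) (T1 := T + u.im) (R := R) (by
      rw [add_sub_cancel_left]; exact hu2)
    have hcn := hc_nonneg h.hN μ (T + u.im)
    obtain ⟨h2, hh3⟩ : ∃ h2 : ℝ, h2 = hc N μ (T + u.im) := ⟨_, rfl⟩
    rw [← hh', ← hh3] at b1 b2
    rw [← hh3] at hcn ⊢
    have e10 : h2 ^ n ≤ Real.exp n * h' ^ n :=
      (pow_le_pow_left₀ hcn (by linarith) n).trans (two_pow_mul hh2.le n)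
    have e11 : -(3 * h2) + (ρ + ε2) * h2 ≤ -(3 * h') + ρ * h' + κ1 / 4 * h' + 5 * (m * R) := by
      have f1 : (ρ + ε2) * h2 ≤ (ρ + ε2) * (h' + m * R) := mul_le_mul_of_nonneg_left b1 (by linarith)
      have f2 : (ρ + ε2) * (m * R) ≤ 2 * (m * R) := mul_le_mul_of_nonneg_right (by linarith) (by positivity)
      have f3 : ε2 * h' ≤ κ1 / 4 * h' := mul_le_mul_of_nonneg_right hε2 hh2.le
      have f4 : (ρ + ε2) * (h' + m * R) = ρ * h' + ε2 * h' + (ρ + ε2) * (m * R) := by ring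
      linarith
    calc _ ≤ (Q * Real.exp (Kn m b 0 * (10 + R ^ 2))) * Real.exp (-(3 * h2)) * (Real.exp n * h' ^ n) *
          Real.exp ((ρ + ε2) * h2) := by gcongr
      _ = (Q * h' ^ n) * Real.exp (Kn m b 0 * (10 + R ^ 2) + n + (-(3 * h2) + (ρ + ε2) * h2)) := by
          rw [Real.exp_add (Kn m b 0 * (10 + R ^ 2) + n), Real.exp_add (Kn m b 0 * (10 + R ^ 2)),
            Real.exp_add (-(3 * h2))]
          ring
      _ ≤ (Q * h' ^ n) * Real.exp (-(3 * h') + ρ * h' + κ1 * h') := by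
          refine mul_le_mul_of_nonneg_left (Real.exp_le_exp.2 ?_) (by positivity)
          have g1 : 0 < κ1 * h' := by positivity
          have g2 : κ1 / 4 * h' = κ1 * h' / 4 := by ring
          have g3 : κ1 / 8 * h' = κ1 * h' / 8 := by ring
          linarith
      _ = _ := by
          rw [hP, zero_mul, zero_add, Real.exp_add (-(3 * h') + ρ * h')]
          ring
  · intro u hu1 hu2
    refine (hbox u (by rw [hu1]; norm_num) hu2).trans
      (mul_le_mul_of_nonneg_left (Real.exp_le_exp.2 ?_) hP0.le)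
    have g1 : 0 < κ1 * h' := by positivity
    have g2 : κ1 / 4 * h' = κ1 * h' / 4 := by ring
    have g3 : κ1 / 8 * h' = κ1 * h' / 8 := by ring
    linarith

end Pool.Agent.TH839.SC
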