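import Pool.Agent.TH839.SC.Many3

/-!
# Project SC: many zeros of a derivative near the critical line bound the function
-/

set_option autoImplicit false

open Complex MeasureTheory Filter Topology Set
open scoped ComplexConjugate

namespace Pool.Agent.TH839.SC

open Pool.Agent.W169.HF H353.E Pool.Agent.W355.UN Pool.Agent.TH839.UH Pool.Agent.TH839.LD

variable {m : ℕ} {B : ℝ → ℝ} {N θ : ℝ} {μ : Fin m → ℂ} {X L : ℂ → ℂ}

theorem manysmall (m : ℕ) (b : ℝ) (hb : 0 ≤ b) (Dc : ℝ → ℝ) (r c α ε : ℝ) (hr : 0 < r) (hr2 : r < 1 / 2)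
    (hc0 : 0 < c) (hα : 0 ≤ α) (hε : 0 < ε) :
    ∃ a1 κ W h0 : ℝ, 1 / 2 < a1 ∧ a1 ≤ 3 / 4 ∧ 0 < κ ∧
      ∀ (B : ℝ → ℝ) (N : ℝ) (μ : Fin m → ℂ) (X L : ℂ → ℂ),
      UL m B N 1 μ X L → B 1 = b → ∀ (n : ℕ) (T : ℝ), (n = 0 ∨ ∃ σ : ℝ, DecT Dc N μ X σ T) →
        h0 ≤ hc N μ T → n * Real.log (hc N μ T) ≤ (α + κ) * hc N μ T →
        (∀ T' : ℝ, |T' - T| ≤ W * hc N μ T → ‖X (1 / 2 + (T' : ℂ) * I + a1)‖ ≤
          ‖X (7 / 2 + (T' : ℂ) * I)‖ * Real.exp (-(3 * hc N μ T') + (a1 + κ) * hc N μ T')) →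
        (∀ T' : ℝ, |T' - T| ≤ W * hc N μ T → Many X n r T' ((2 * c - κ) * hc N μ T')) →
          ‖X (1 / 2 + (T : ℂ) * I)‖ ≤ ‖X (7 / 2 + (T : ℂ) * I)‖ *
            Real.exp (-(3 * hc N μ T) +
              (max 0 (1 / 2 - Real.pi * c * Real.log (1 / (2 * r))) + α + ε) * hc N μ T) := by
  have hpi := Real.pi_pos
  have hm0 : (0 : ℝ) ≤ m := Nat.cast_nonneg m
  have hlr0 : 0 < Real.log (1 / (2 * r)) := by
    apply Real.log_pos
    rw [lt_div_iff₀ (by positivity)]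
    linarith
  obtain ⟨ρ, hρ⟩ : ∃ ρ : ℝ, ρ = max 0 (1 / 2 - Real.pi * c * Real.log (1 / (2 * r))) := ⟨_, rfl⟩
  have hρ0 : 0 ≤ ρ := by rw [hρ]; exact le_max_left _ _
  have hρ1 : ρ ≤ 1 / 2 := by
    rw [hρ]
    have : 0 < Real.pi * c * Real.log (1 / (2 * r)) := by positivity
    exact max_le (by norm_num) (by linarith)
  obtain ⟨y0, hy0⟩ : ∃ y0 : ℝ, y0 = min 1 (ε / 4) := ⟨_, rfl⟩
  have hy0p : 0 < y0 := by rw [hy0]; positivity
  have hy01 : y0 ≤ 1 := by rw [hy0]; exact min_le_left _ _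
  have hy0ε : y0 ≤ ε / 4 := by rw [hy0]; exact min_le_right _ _
  obtain ⟨κa, κ', W', h0', hκa, hκ', HT⟩ := transfer m b hb Dc y0 ρ α (ε / 4) hy0p hy01 hρ0 hρ1 hα
    (by positivity)
  obtain ⟨κ1, R, ℓ0, hκ1, hR1, HC⟩ := Pool.Agent.TH324.LD.cvx 0 4 (κa / 2) 1 le_rfl (by norm_num)
    (by norm_num) (by positivity) one_pos
  have hR0 : 0 ≤ R := by linarith
  obtain ⟨ε2, hε2⟩ : ∃ ε2 : ℝ, ε2 = min 1 (κ1 / 4) := ⟨_, rfl⟩
  have hε20 : 0 < ε2 := by rw [hε2]; positivity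
  have hε21 : ε2 ≤ 1 := by rw [hε2]; exact min_le_left _ _
  have hε22 : ε2 ≤ κ1 / 4 := by rw [hε2]; exact min_le_right _ _
  obtain ⟨a1, κb, Wb, τb, h0b, ha1, ha1', hκb, hτb, hWb, HM⟩ := manyb m b hb r c ε2 hr hr2 hc0 hε20
  rw [← hρ] at HM
  obtain ⟨W1, hW1⟩ : ∃ W1 : ℝ, W1 = max W' 0 := ⟨_, rfl⟩
  have hW1' : W' ≤ W1 := by rw [hW1]; exact le_max_left _ _
  have hW10 : 0 ≤ W1 := by rw [hW1]; exact le_max_right _ _
  obtain ⟨h1, H1⟩ := hc_win m (W1 + 1) (by linarith)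
  obtain ⟨G, hG⟩ : ∃ G : ℝ, G = 10 + R ^ 2 := ⟨_, rfl⟩
  have hG0 : 10 ≤ G := by rw [hG]; linarith [sq_nonneg R]
  obtain ⟨τ, hτ0, t1, t2, t3, t4, t5, t6⟩ : ∃ τ : ℝ, 0 < τ ∧ 3 * τ ≤ 1 / 8 ∧ τ ≤ κ1 / 16 ∧ τ ≤ κa / 4 ∧
      3888 * G * τ ≤ κ1 / 16 ∧ (3888 * G + 1) * τ ≤ 1 / 4 ∧ τ ≤ τb / 2 := by
    obtain ⟨τ, hτ⟩ : ∃ τ : ℝ, τ = min (min (1 / 24) (min (κ1 / 16) (κa / 4)))
      (min (κ1 / (16 * (3888 * G))) (min (1 / (4 * (3888 * G + 1))) (τb / 2))) := ⟨_, rfl⟩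
    have a1 : τ ≤ 1 / 24 := by rw [hτ]; exact (min_le_left _ _).trans (min_le_left _ _)
    have a2 : τ ≤ κ1 / 16 := by
      rw [hτ]; exact (min_le_left _ _).trans ((min_le_right _ _).trans (min_le_left _ _))
    have a3 : τ ≤ κa / 4 := by
      rw [hτ]; exact (min_le_left _ _).trans ((min_le_right _ _).trans (min_le_right _ _))
    have a4 : τ ≤ κ1 / (16 * (3888 * G)) := by
      rw [hτ]; exact (min_le_right _ _).trans (min_le_left _ _)
    have a5 : τ ≤ 1 / (4 * (3888 * G + 1)) := by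
      rw [hτ]; exact (min_le_right _ _).trans ((min_le_right _ _).trans (min_le_left _ _))
    have a6 : τ ≤ τb / 2 := by
      rw [hτ]; exact (min_le_right _ _).trans ((min_le_right _ _).trans (min_le_right _ _))
    have a0 : 0 < τ := by rw [hτ]; positivity
    refine ⟨τ, a0, by linarith, a2, a3, ?_, ?_, a6⟩
    · rw [le_div_iff₀ (by positivity)] at a4
      linarith
    · rw [le_div_iff₀ (by positivity)] at a5
      linarith
  have E : ∀ C k : ℝ, 0 < k → ∀ᶠ h : ℝ in atTop, C ≤ k * h := fun C k hk =>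
    (tendsto_id.const_mul_atTop hk).eventually_ge_atTop C
  obtain ⟨h2, H2⟩ := eventually_atTop.1 ((E 2 1 one_pos).and ((E (Real.exp ((α + 1) / τ)) 1 one_pos).and
    ((E h0' 1 one_pos).and ((E h1 1 one_pos).and ((E h0b (1 / 2) (by norm_num)).and
    ((E (m * (31 + b)) (1 / 8) (by norm_num)).and
    ((E (1458 * (m * (18 + b)) * G) (κ1 / 16) (by positivity)).and
    ((E (1458 * (m * (18 + b)) * G) (1 / 8) (by norm_num)).and
    ((E (Kn m b 0 * G + 5 * (m * R)) (κ1 / 8) (by positivity)).and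
    ((E (m * R) (1 / 4) (by norm_num)).and ((E ℓ0 (1 / 2) (by norm_num)).and
    (E (R + Wb) 1 one_pos))))))))))))
  refine ⟨a1, min (min κ' κb) 1, W1 + 1, h2, ha1, ha1', by positivity, ?_⟩
  intro B N μ X L h hBb n T hdec hh0 hn hright hmany
  obtain ⟨κ, hκ⟩ : ∃ κ : ℝ, κ = min (min κ' κb) 1 := ⟨_, rfl⟩
  rw [← hκ] at hn hright hmany
  have hκ0 : 0 < κ := by rw [hκ]; positivity
  have hκκ : κ ≤ κ' := by rw [hκ]; exact (min_le_left _ _).trans (min_le_left _ _)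
  have hκb' : κ ≤ κb := by rw [hκ]; exact (min_le_left _ _).trans (min_le_right _ _)
  have hκo : κ ≤ 1 := by rw [hκ]; exact min_le_right _ _
  obtain ⟨c1, c2, c3, c4, c5, c6, c7, c8, c9, c10, c11, c12⟩ := H2 _ hh0
  obtain ⟨h', hh'⟩ : ∃ h' : ℝ, h' = hc N μ T := ⟨_, rfl⟩
  have hwin := fun T' => H1 N μ T T' h.hN (by rw [one_mul] at c4; exact c4)
  rw [← hh'] at hn hright hmany c1 c2 c3 c4 c5 c6 c7 c8 c9 c10 c11 c12 hwin
  rw [one_mul] at c1 c2 c3 c4 c12
  have hh2 : 0 < h' := by linarith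
  have hn0 : (0 : ℝ) ≤ n := Nat.cast_nonneg n
  have hnτ : (n : ℝ) ≤ τ * h' := by
    have h1 : (α + 1) / τ ≤ Real.log h' := by
      rw [Real.le_log_iff_exp_le hh2]
      exact c2
    have h2 : (n : ℝ) * ((α + 1) / τ) ≤ (α + 1) * h' := by
      calc (n : ℝ) * ((α + 1) / τ) ≤ n * Real.log h' := mul_le_mul_of_nonneg_left h1 hn0
        _ ≤ (α + κ) * h' := hn
        _ ≤ _ := mul_le_mul_of_nonneg_right (by linarith) hh2.le
    have h3 : (n : ℝ) * (α + 1) ≤ τ * h' * (α + 1) := by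
      have e1 : (n : ℝ) * (α + 1) = τ * (n * ((α + 1) / τ)) := by
        field_simp
      rw [e1]
      calc _ ≤ τ * ((α + 1) * h') := mul_le_mul_of_nonneg_left h2 hτ0.le
        _ = _ := by ring
    exact le_of_mul_le_mul_right h3 (by linarith)
  have R0 := HT B N μ X L h hBb n T hdec (by rw [← hh']; exact c3) (by
    rw [← hh']
    exact hn.trans (mul_le_mul_of_nonneg_right (by linarith) hh2.le)) ?_ 0 (by simp) (by simp)
  · rw [add_zero, zero_re, abs_zero, max_eq_right hy0p.le, ← hh'] at R0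
    rw [← hρ, ← hh']
    refine R0.trans (mul_le_mul_of_nonneg_left (Real.exp_le_exp.2 ?_) (norm_nonneg _))
    have f1 : (y0 + ρ + α + ε / 4) * h' ≤ (ρ + α + ε) * h' :=
      mul_le_mul_of_nonneg_right (by linarith) hh2.le
    linarith
  · intro T' hT'
    rw [← hh'] at hT'
    have hT1 : |T' - T| ≤ W1 * h' := hT'.trans (mul_le_mul_of_nonneg_right hW1' hh2.le)
    obtain ⟨w1, w2⟩ := hwin T' (by
      have : 0 ≤ h' := hh2.le
      linarith)
    obtain ⟨g, hg⟩ : ∃ g : ℝ, g = hc N μ T' := ⟨_, rfl⟩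
    rw [← hg] at w1 w2 ⊢
    have hg0 : 0 < g := by linarith
    have hhg : h' ≤ 2 * g := by linarith
    have hng : (n : ℝ) ≤ τ * (2 * g) := hnτ.trans (mul_le_mul_of_nonneg_left hhg hτ0.le)
    have s1 : 3 * (n : ℝ) ≤ g / 4 := by
      calc 3 * (n : ℝ) ≤ 3 * (τ * (2 * g)) := by linarith
        _ = 3 * τ * (2 * g) := by ring
        _ ≤ 1 / 8 * (2 * g) := mul_le_mul_of_nonneg_right t1 (by positivity)
        _ = _ := by ring
    have s2 : (n : ℝ) ≤ κ1 / 8 * g := by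
      calc (n : ℝ) ≤ τ * (2 * g) := hng
        _ ≤ κ1 / 16 * (2 * g) := mul_le_mul_of_nonneg_right t2 (by positivity)
        _ = _ := by ring
    have s3 : (n : ℝ) ≤ κa / 2 * g := by
      calc (n : ℝ) ≤ τ * (2 * g) := hng
        _ ≤ κa / 4 * (2 * g) := mul_le_mul_of_nonneg_right t3 (by positivity)
        _ = _ := by ring
    have s4 : 3888 * (n : ℝ) * G ≤ κ1 / 8 * g := by
      calc 3888 * (n : ℝ) * G ≤ 3888 * (τ * (2 * g)) * G := by
            have : 0 ≤ G := by linarith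
            gcongr
        _ = 3888 * G * τ * (2 * g) := by ring
        _ ≤ κ1 / 16 * (2 * g) := mul_le_mul_of_nonneg_right t4 (by positivity)
        _ = _ := by ring
    have s5 : 3888 * (n : ℝ) * G + n ≤ g / 2 := by
      calc 3888 * (n : ℝ) * G + n = (3888 * G + 1) * n := by ring
        _ ≤ (3888 * G + 1) * (τ * (2 * g)) := mul_le_mul_of_nonneg_left hng (by linarith)
        _ = (3888 * G + 1) * τ * (2 * g) := by ring
        _ ≤ 1 / 4 * (2 * g) := mul_le_mul_of_nonneg_right t5 (by positivity)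
        _ = _ := by ring
    have k1 : κ1 / 16 * h' ≤ κ1 / 8 * g := by
      have := mul_le_mul_of_nonneg_left hhg (by positivity : 0 ≤ κ1 / 16)
      linarith
    have k2 : κ1 / 8 * h' ≤ κ1 / 4 * g := by
      have := mul_le_mul_of_nonneg_left hhg (by positivity : 0 ≤ κ1 / 8)
      linarith
    have hKG : Kn m b n * G = 1458 * (m * (18 + b)) * G + 3888 * n * G := by unfold Kn; ring
    refine place h (T := T') (b := b) (y0 := y0) (ρ := ρ) (ε2 := ε2) (κ1 := κ1) (κ2 := κa / 2)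
      (κa := κa) (R := R) (h' := g) n hBb hb hy0p hy01 hρ0 hρ1 hg hg0 hR0 hκ1 hε20 hε22 hε21 hκa le_rfl
      ?_ s2 s3 ?_ ?_ ?_ ?_ (fun P f => HC g P f (by linarith)) ?_
    · linarith
    · rw [← hG, hKG]
      linarith
    · rw [← hG, hKG]
      linarith
    · rw [← hG]
      linarith
    · linarith
    · intro T2 hT2
      have hT2' : |T2 - T| ≤ (W1 + 1) * h' := by
        have e1 : T2 - T = (T2 - T') + (T' - T) := by ring
        rw [e1]
        refine (abs_add_le _ _).trans ?_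
        linarith
      obtain ⟨v1, v2⟩ := hwin T2 hT2'
      refine HM B N μ X L h hBb n T2 (by linarith) ?_ ?_ ?_
      · have f1 : τ * h' ≤ τb / 2 * h' := mul_le_mul_of_nonneg_right t6 hh2.le
        have f2 := mul_le_mul_of_nonneg_left v1 hτb.le
        linarith
      · intro T3 hT3
        have hT3' : |T3 - T| ≤ (W1 + 1) * h' := by
          have e1 : T3 - T = (T3 - T2) + (T2 - T') + (T' - T) := by ring
          rw [e1]
          refine (abs_add_three _ _ _).trans ?_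
          linarith
        refine (hright T3 hT3').trans (mul_le_mul_of_nonneg_left (Real.exp_le_exp.2 ?_) (norm_nonneg _))
        have f1 : (a1 + κ) * hc N μ T3 ≤ (a1 + κb) * hc N μ T3 :=
          mul_le_mul_of_nonneg_right (by linarith) (hc_nonneg h.hN μ T3)
        linarith
      · intro T3 hT3
        have hT3' : |T3 - T| ≤ (W1 + 1) * h' := by
          have e1 : T3 - T = (T3 - T2) + (T2 - T') + (T' - T) := by ring
          rw [e1]
          refine (abs_add_three _ _ _).trans ?_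
          linarith
        exact (hmany T3 hT3').mono
          (mul_le_mul_of_nonneg_right (by linarith) (hc_nonneg h.hN μ T3))

end Pool.Agent.TH839.SC
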