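import Pool.Agent.TH839.SC.Path
import Pool.Agent.TH839.SC.Dec

/-!
# Project SC: from the size of a derivative to the size of the function
-/

set_option autoImplicit false

open Complex MeasureTheory Filter Topology Set
open scoped ComplexConjugate

namespace Pool.Agent.TH839.SC

open Pool.Agent.W169.HF H353.E Pool.Agent.W355.UN Pool.Agent.TH839.UH Pool.Agent.TH839.LD

variable {m : ℕ} {B : ℝ → ℝ} {N θ : ℝ} {μ : Fin m → ℂ} {X L : ℂ → ℂ}

/-- the size of one derivative on a vertical line bounds the function -/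
theorem transfer (m : ℕ) (b : ℝ) (hb : 0 ≤ b) (Dc : ℝ → ℝ) (y0 ρ α ε : ℝ) (hx0p : 0 < y0) (hx01 : y0 ≤ 1)
    (hρ0 : 0 ≤ ρ) (hρ1 : ρ ≤ 1 / 2) (hα : 0 ≤ α) (hε : 0 < ε) :
    ∃ κa κ W h0 : ℝ, 0 < κa ∧ 0 < κ ∧ ∀ (B : ℝ → ℝ) (N : ℝ) (μ : Fin m → ℂ) (X L : ℂ → ℂ),
      UL m B N 1 μ X L → B 1 = b → ∀ (n : ℕ) (T : ℝ), (n = 0 ∨ ∃ σ : ℝ, DecT Dc N μ X σ T) →
        h0 ≤ hc N μ T → n * Real.log (hc N μ T) ≤ (α + κ) * hc N μ T →
        (∀ T' : ℝ, |T' - T| ≤ W * hc N μ T →
          ‖iteratedDeriv n X (1 / 2 + (T' : ℂ) * I + y0)‖ ≤ ‖iteratedDeriv n X (7 / 2 + (T' : ℂ) * I)‖ *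
            Real.exp (hc N μ T' * (y0 + ρ - 3) + κa * hc N μ T')) →
          ∀ u : ℂ, |u.re| ≤ 3 → |u.im| ≤ 1 →
            ‖X (1 / 2 + (T : ℂ) * I + u)‖ ≤ ‖X (7 / 2 + (T : ℂ) * I)‖ *
              Real.exp (-(3 * hc N μ T) + (max |u.re| y0 + ρ + α + ε) * hc N μ T) := by
  obtain ⟨κ1, R, ℓ0, hκ1, hR1, HC⟩ := Pool.Agent.TH324.LD.cvx y0 4 (ε / 8) 1 hx0p.le (by linarith)
    (by norm_num) (by positivity) one_pos
  obtain ⟨κa, hκa⟩ : ∃ κa : ℝ, κa = min 1 (κ1 / 16) := ⟨_, rfl⟩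
  have hκap : 0 < κa := by rw [hκa]; positivity
  have hκa1 : κa ≤ 1 := by rw [hκa]; exact min_le_left _ _
  have hκaκ : κa ≤ κ1 / 16 := by rw [hκa]; exact min_le_right _ _
  obtain ⟨D, hD⟩ : ∃ D : ℝ, D = max (Dc R) 1 := ⟨_, rfl⟩
  obtain ⟨τ, hτ, t2, t3, t4, t5⟩ : ∃ τ : ℝ, 0 < τ ∧
      8 * m * τ ≤ 1 / 2 ∧ 3 * τ ≤ 1 / 4 ∧ 4 * (3888 * τ) ≤ κa / 4 ∧ 4 * τ ≤ ε / 8 := by
    obtain ⟨τ, hτ⟩ : ∃ τ : ℝ, τ = min (1 / (16 * ((m : ℝ) + 1)))
      (min (min (1 / 12) (κa / (16 * 3888))) (ε / 32)) := ⟨_, rfl⟩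
    have e2 : τ ≤ 1 / (16 * ((m : ℝ) + 1)) := by
      rw [hτ]; exact min_le_left _ _
    have e3 : τ ≤ 1 / 12 := by
      rw [hτ]; exact (min_le_right _ _).trans ((min_le_left _ _).trans (min_le_left _ _))
    have e4 : τ ≤ κa / (16 * 3888) := by
      rw [hτ]; exact (min_le_right _ _).trans ((min_le_left _ _).trans (min_le_right _ _))
    have e5 : τ ≤ ε / 32 := by
      rw [hτ]; exact (min_le_right _ _).trans (min_le_right _ _)
    have hm0 : (0 : ℝ) ≤ m := Nat.cast_nonneg m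
    have e0 : 0 < τ := by rw [hτ]; positivity
    refine ⟨τ, e0, ?_, by linarith, by linarith, by linarith⟩
    rw [le_div_iff₀ (by positivity)] at e2
    nlinarith
  have hR0 : 0 ≤ R := by linarith
  have hm0 : (0 : ℝ) ≤ m := Nat.cast_nonneg m
  have E : ∀ C k : ℝ, 0 < k → ∀ᶠ h : ℝ in atTop, C ≤ k * h := fun C k hk =>
    (tendsto_id.const_mul_atTop hk).eventually_ge_atTop C
  obtain ⟨h0, H0⟩ := eventually_atTop.1 ((E 2 1 one_pos).and ((E (Real.exp ((α + 1) / τ)) 1 one_pos).and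
    ((E (m * R) (1 / 4) (by norm_num)).and ((E D (1 / 4) (by norm_num)).and
    ((E (20 + R) 2 (by norm_num)).and
    ((E (m * (31 + b)) (1 / 4) (by norm_num)).and
    ((E (4 * (1458 * (m * (18 + b)))) (κa / 4) (by positivity)).and
    ((E (4 * D + Kn m b 0 * (10 + R ^ 2) + 3 * (m * R)) (κ1 / 2) (by positivity)).and
    ((E ℓ0 1 one_pos).and (E (Kn m b 0 * (10 + R ^ 2)) 1 one_pos))))))))))
  refine ⟨κa, min (ε / 8) 1, 62, h0, hκap, by positivity, ?_⟩
  intro B N μ X L h hBb n T hdec hh0 hn hsize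
  obtain ⟨κ, hκ⟩ : ∃ κ : ℝ, κ = min (ε / 8) 1 := ⟨_, rfl⟩
  rw [← hκ] at hn
  have hκ0 : 0 < κ := by rw [hκ]; positivity
  have hκε : κ ≤ ε / 8 := by rw [hκ]; exact min_le_left _ _
  have hκo : κ ≤ 1 := by rw [hκ]; exact min_le_right _ _
  obtain ⟨h', hh'⟩ : ∃ h' : ℝ, h' = hc N μ T := ⟨_, rfl⟩
  rw [← hh'] at hh0 hn hsize ⊢
  obtain ⟨c1, c2, c3, c4, c5, c7, c8, c9, c10, c11⟩ := H0 h' hh0
  rw [one_mul] at c1 c2 c10 c11
  have hh2 : 0 < h' := by linarith
  have hn0 : (0 : ℝ) ≤ n := Nat.cast_nonneg n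
  -- n is small
  have hnτ : (n : ℝ) ≤ τ * h' := by
    have h1 : (α + 1) / τ ≤ Real.log h' := by
      rw [Real.le_log_iff_exp_le hh2]
      exact c2
    have h2 : (n : ℝ) * ((α + 1) / τ) ≤ (α + 1) * h' := by
      calc (n : ℝ) * ((α + 1) / τ) ≤ n * Real.log h' := mul_le_mul_of_nonneg_left h1 hn0
        _ ≤ (α + κ) * h' := hn
        _ ≤ _ := mul_le_mul_of_nonneg_right (by linarith) hh2.le
    have h3 : (n : ℝ) * (α + 1) ≤ τ * h' * (α + 1) := by
      have e1 : (n : ℝ) * (α + 1) = τ * (n * ((α + 1) / τ)) := by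
        field_simp
      rw [e1]
      calc _ ≤ τ * ((α + 1) * h') := mul_le_mul_of_nonneg_left h2 hτ.le
        _ = _ := by ring
    exact le_of_mul_le_mul_right h3 (by linarith)
  have n2 : 8 * (n : ℝ) * m ≤ 1 / 2 * h' := by
    calc 8 * (n : ℝ) * m ≤ 8 * (τ * h') * m := by
          refine mul_le_mul_of_nonneg_right (by linarith) hm0
      _ = 8 * m * τ * h' := by ring
      _ ≤ _ := mul_le_mul_of_nonneg_right t2 hh2.le
  have n3 : 3 * (n : ℝ) ≤ 1 / 4 * h' := by
    calc 3 * (n : ℝ) ≤ 3 * (τ * h') := by linarith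
      _ = 3 * τ * h' := by ring
      _ ≤ _ := mul_le_mul_of_nonneg_right t3 hh2.le
  have n4 : 4 * (3888 * (n : ℝ)) ≤ κa / 4 * h' := by
    calc 4 * (3888 * (n : ℝ)) ≤ 4 * (3888 * (τ * h')) := by linarith
      _ = 4 * (3888 * τ) * h' := by ring
      _ ≤ _ := mul_le_mul_of_nonneg_right t4 hh2.le
  have n5 : 4 * (n : ℝ) ≤ ε / 8 * h' := by
    calc 4 * (n : ℝ) ≤ 4 * (τ * h') := by linarith
      _ = 4 * τ * h' := by ring
      _ ≤ _ := mul_le_mul_of_nonneg_right t5 hh2.le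
  obtain ⟨Q, hQ⟩ : ∃ Q : ℝ, Q = ‖X (7 / 2 + (T : ℂ) * I)‖ := ⟨_, rfl⟩
  have hQ0 : 0 < Q := by rw [hQ]; exact norm_pos_iff.2 (prf h le_rfl 0 T).1
  rw [← hQ]
  have hD1 : 1 ≤ D := by rw [hD]; exact le_max_right _ _
  have hD0 : 0 ≤ D := by linarith
  -- the bound on the line y0
  have line : ∀ T1 : ℝ, |T1 - T| ≤ R → ‖X (1 / 2 + (T1 : ℂ) * I + y0)‖ ≤
      Q * Real.exp (-(3 * h') + ρ * h') * (32 * h') ^ n * Real.exp (y0 * h' + κ1 * h') := by
    intro T1 hT1
    obtain ⟨h1, hh1⟩ : ∃ h1 : ℝ, h1 = hc N μ T1 := ⟨_, rfl⟩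
    obtain ⟨a1, a2⟩ := hc_near h.hN μ hT1
    rw [← hh', ← hh1] at a1 a2
    have P : ‖X (1 / 2 + (T1 : ℂ) * I + y0)‖ ≤ D * Real.exp (3 * D) * ‖X (7 / 2 + (T1 : ℂ) * I)‖ *
        (16 * h1) ^ n * Real.exp ((y0 + ρ - 3 + 2 * κa) * h1) := by
      rcases hdec with hn00 | ⟨σ, hσ, hdec⟩
      · have p0 := hsize T1 (by linarith)
        rw [hn00, iteratedDeriv_zero, ← hh1] at p0
        rw [hn00, pow_zero, mul_one]
        have p1 : 1 ≤ D * Real.exp (3 * D) := by
          have : 1 ≤ Real.exp (3 * D) := Real.one_le_exp (by linarith)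
          calc (1 : ℝ) = 1 * 1 := by norm_num
            _ ≤ _ := mul_le_mul hD1 this zero_le_one hD0
        have p2 : 0 ≤ κa * h1 := mul_nonneg hκap.le (by linarith)
        have p3 : Real.exp (h1 * (y0 + ρ - 3) + κa * h1) ≤
            Real.exp ((y0 + ρ - 3 + 2 * κa) * h1) := by
          apply Real.exp_le_exp.2
          have : (y0 + ρ - 3 + 2 * κa) * h1 = h1 * (y0 + ρ - 3) + κa * h1 + κa * h1 := by ring
          linarith
        calc _ ≤ _ := p0
          _ ≤ ‖X (7 / 2 + (T1 : ℂ) * I)‖ * Real.exp ((y0 + ρ - 3 + 2 * κa) * h1) := by gcongr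
          _ = 1 * (‖X (7 / 2 + (T1 : ℂ) * I)‖ * Real.exp ((y0 + ρ - 3 + 2 * κa) * h1)) := by ring
          _ ≤ (D * Real.exp (3 * D)) * (‖X (7 / 2 + (T1 : ℂ) * I)‖ *
              Real.exp ((y0 + ρ - 3 + 2 * κa) * h1)) := by gcongr
          _ = _ := by ring
      · have hDD : Dc R ≤ D := by rw [hD]; exact le_max_left _ _
        have hdm : ∀ v : ℝ, 0 ≤ v → ‖X (7 / 2 + ((T1 + σ * v : ℝ) : ℂ) * I)‖ ≤
            D * Real.exp (-(v / 4)) * ‖X (7 / 2 + (T1 : ℂ) * I)‖ ∧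
            hc N μ T1 - D ≤ hc N μ (T1 + σ * v) := by
          intro v hv
          obtain ⟨q1, q2⟩ := (hdec R hR0).2 T1 hT1 v hv
          refine ⟨q1.trans ?_, by linarith⟩
          gcongr
        refine pathr Pool.Agent.TH126.LD.vint h (n := n) (V0 := 60 * h') hσ hρ0 hρ1 hD0 hx0p
          (by linarith) hκap hκa1 hh1
          (fun v hv => (hdm v hv).1) (fun v hv => by rw [hh1]; exact (hdm v hv).2)
          (by rw [hBb]; linarith) (by linarith) (by
            rw [hBb]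
            unfold Kn
            have : κa / 4 * h' + κa / 4 * h' ≤ κa * h1 := by
              have e1 : 1 / 2 * h' ≤ h1 := by linarith
              have e2 := mul_le_mul_of_nonneg_left e1 hκap.le
              linarith
            linarith) (by linarith) ?_
        intro v hv hvV
        refine hsize (T1 + σ * v) ?_
        have e1 : T1 + σ * v - T = (T1 - T) + σ * v := by ring
        rw [e1]
        refine (abs_add_le _ _).trans ?_
        have e2 : |σ * v| ≤ 60 * h' := by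
          rw [abs_mul, hσ, one_mul, abs_of_nonneg hv]
          exact hvV
        linarith
    refine P.trans ?_
    have p1 := near h le_rfl T (R := R) (u := 3 + ((T1 - T : ℝ) : ℂ) * I) (by simp) (by simpa using hT1)
    have e1 : (1 / 2 + (T : ℂ) * I + (3 + ((T1 - T : ℝ) : ℂ) * I) : ℂ) = 7 / 2 + (T1 : ℂ) * I := by
      push_cast
      ring
    rw [e1, ← hQ, hBb] at p1
    have p2 : (16 * h1) ^ n ≤ (32 * h') ^ n := by
      have : 0 ≤ 16 * h1 := by linarith
      exact pow_le_pow_left₀ this (by linarith) n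
    have p3 : (y0 + ρ - 3 + 2 * κa) * h1 ≤ (y0 + ρ - 3) * h' + 3 * (m * R) + κ1 / 4 * h' := by
      have q1 : (3 - y0 - ρ) * (h' - m * R) ≤ (3 - y0 - ρ) * h1 :=
        mul_le_mul_of_nonneg_left a2 (by linarith)
      have q2 : (3 - y0 - ρ) * (m * R) ≤ 3 * (m * R) :=
        mul_le_mul_of_nonneg_right (by linarith) (by positivity)
      have q3 : 2 * κa * h1 ≤ 2 * (κ1 / 16) * (2 * h') := by
        have q4 : h1 ≤ 2 * h' := by linarith
        have q5 : 0 ≤ h1 := by linarith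
        have q6 : 2 * κa ≤ 2 * (κ1 / 16) := by linarith
        exact mul_le_mul q6 q4 q5 (by positivity)
      have q7 : (3 - y0 - ρ) * (h' - m * R) = (3 - y0 - ρ) * h' - (3 - y0 - ρ) * (m * R) := by ring
      have q8 : (y0 + ρ - 3 + 2 * κa) * h1 = -((3 - y0 - ρ) * h1) + 2 * κa * h1 := by ring
      have q9 : (y0 + ρ - 3) * h' = -((3 - y0 - ρ) * h') := by ring
      have q10 : 2 * (κ1 / 16) * (2 * h') = κ1 / 4 * h' := by ring
      linarith
    have p4 : D ≤ Real.exp D := by linarith [Real.add_one_le_exp D]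
    have p5 : 0 < κ1 * h' := by positivity
    have h16 : 0 ≤ 16 * h1 := by linarith
    calc _ ≤ Real.exp D * Real.exp (3 * D) * (Q * Real.exp (Kn m b 0 * (10 + R ^ 2))) *
          (32 * h') ^ n * Real.exp ((y0 + ρ - 3) * h' + 3 * (m * R) + κ1 / 4 * h') := by
          have := Real.exp_le_exp.2 p3
          gcongr
      _ = Q * (32 * h') ^ n * Real.exp (D + 3 * D + Kn m b 0 * (10 + R ^ 2) +
          ((y0 + ρ - 3) * h' + 3 * (m * R) + κ1 / 4 * h')) := by
          rw [Real.exp_add (D + 3 * D + Kn m b 0 * (10 + R ^ 2)), Real.exp_add (D + 3 * D),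
            Real.exp_add D]
          ring
      _ ≤ Q * (32 * h') ^ n * Real.exp ((-(3 * h') + ρ * h') + (y0 * h' + κ1 * h')) := by
          refine mul_le_mul_of_nonneg_left (Real.exp_le_exp.2 ?_) (by positivity)
          have e2 : (y0 + ρ - 3) * h' = y0 * h' + ρ * h' - 3 * h' := by ring
          have e3 : κ1 / 4 * h' = κ1 * h' / 4 := by ring
          have e4 : κ1 / 2 * h' = κ1 * h' / 2 := by ring
          linarith
      _ = _ := by
          rw [Real.exp_add (-(3 * h') + ρ * h')]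
          ring
  have hP : 0 < Q * Real.exp (-(3 * h') + ρ * h') * (32 * h') ^ n := by positivity
  have hpow : 1 ≤ (32 * h') ^ n := one_le_pow₀ (by linarith)
  have hρh : 0 ≤ ρ * h' := by positivity
  have hQP : ∀ x : ℝ, Q * Real.exp x ≤
      Q * Real.exp (-(3 * h') + ρ * h') * (32 * h') ^ n * Real.exp (x + 3 * h') := by
    intro x
    have e0 : Q * Real.exp x ≤ Q * Real.exp (x + ρ * h') :=
      mul_le_mul_of_nonneg_left (Real.exp_le_exp.2 (by linarith)) hQ0.le
    refine e0.trans ?_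
    have e1 : Q * Real.exp (-(3 * h') + ρ * h') * (32 * h') ^ n * Real.exp (x + 3 * h') =
        Q * Real.exp (x + ρ * h') * (32 * h') ^ n := by
      have e2 : Real.exp (-(3 * h') + ρ * h') * Real.exp (x + 3 * h') = Real.exp (x + ρ * h') := by
        rw [← Real.exp_add]
        congr 1
        ring
      rw [← e2]
      ring
    rw [e1]
    exact le_mul_of_one_le_right (by positivity) hpow
  intro u0 hu01 hu02
  have C := HC h' (Q * Real.exp (-(3 * h') + ρ * h') * (32 * h') ^ n)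
    (fun u => X (1 / 2 + (T : ℂ) * I + u)) c10 hP (h.slow.1.comp (by fun_prop)) (fun u => sym h T u)
    ?_ ?_ ?_ u0 hu01 hu02
  · refine C.trans ?_
    have f1 : (32 * h') ^ n ≤ Real.exp ((α + ε / 8) * h' + ε / 8 * h') := by
      have f2 : (32 * h') ^ n = Real.exp (n * Real.log h' + n * Real.log 32) := by
        rw [← mul_add, ← Real.log_mul hh2.ne' (by norm_num), mul_comm (n : ℝ), Real.exp_mul,
          Real.exp_log (by positivity), Real.rpow_natCast, mul_comm]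
      rw [f2]
      apply Real.exp_le_exp.2
      have f3 : Real.log 32 ≤ 4 := by
        rw [Real.log_le_iff_le_exp (by norm_num)]
        have h9 : (2.7 : ℝ) ^ 4 ≤ Real.exp 1 ^ 4 := by
          have := Real.exp_one_gt_d9
          gcongr
          linarith
        rw [← Real.exp_nat_mul] at h9
        norm_num at h9 ⊢
        linarith
      have f4 : n * Real.log 32 ≤ n * 4 := mul_le_mul_of_nonneg_left f3 hn0
      have f5 : (α + κ) * h' ≤ (α + ε / 8) * h' := mul_le_mul_of_nonneg_right (by linarith) hh2.le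
      linarith
    calc _ ≤ Q * Real.exp (-(3 * h') + ρ * h') * Real.exp ((α + ε / 8) * h' + ε / 8 * h') *
          Real.exp (max |u0.re| y0 * h' + ε / 8 * h') := by gcongr
      _ = Q * Real.exp ((-(3 * h') + ρ * h') + ((α + ε / 8) * h' + ε / 8 * h') +
          (max |u0.re| y0 * h' + ε / 8 * h')) := by
          rw [Real.exp_add ((-(3 * h') + ρ * h') + ((α + ε / 8) * h' + ε / 8 * h')),
            Real.exp_add (-(3 * h') + ρ * h')]
          ring
      _ ≤ _ := by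
          refine mul_le_mul_of_nonneg_left (Real.exp_le_exp.2 ?_) hQ0.le
          have f7 : 0 < ε * h' := by positivity
          have f8 : (α + ε / 8) * h' = α * h' + ε * h' / 8 := by ring
          have f9 : (max |u0.re| y0 + ρ + α + ε) * h' =
            max |u0.re| y0 * h' + ρ * h' + α * h' + ε * h' := by ring
          have f10 : ε / 8 * h' = ε * h' / 8 := by ring
          linarith
  · intro u hu1 hu2
    have p1 := near h le_rfl T hu1 hu2
    rw [← hQ, hBb] at p1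
    refine (p1.trans (hQP _)).trans ?_
    refine mul_le_mul_of_nonneg_left (Real.exp_le_exp.2 ?_) hP.le
    linarith
  · intro u hu1 hu2
    have p1 := line (T + u.im) (by rw [add_sub_cancel_left]; exact hu2)
    have e1 : (1 / 2 + ((T + u.im : ℝ) : ℂ) * I + y0 : ℂ) = 1 / 2 + (T : ℂ) * I + u := by
      have : u = (y0 : ℂ) + (u.im : ℂ) * I := by
        rw [← hu1]
        exact (Complex.re_add_im u).symm
      conv_rhs => rw [this]
      push_cast
      ring
    rw [e1] at p1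
    exact p1
  · intro u hu1 hu2
    have p1 := near h le_rfl T (R := R) (u := u) (by rw [hu1]; norm_num) hu2
    rw [← hQ, hBb] at p1
    refine (p1.trans (hQP _)).trans ?_
    refine mul_le_mul_of_nonneg_left (Real.exp_le_exp.2 ?_) hP.le
    have e4 : κ1 / 2 * h' = κ1 * h' / 2 := by ring
    have p5 : 0 < κ1 * h' := by positivity
    have p6 : 0 ≤ 3 * (m * R) := by positivity
    linarith

end Pool.Agent.TH839.SC
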